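import Pool.Agent.LibVinogradov.Count3

/-!
# Many pairs of primes `p < q` with `(q - p) / 2` prime
-/

namespace LSieve

open Finset Filter Topology

/-- The pairs `(p, q)` of primes with `q = p + 2 t`, `t` prime. -/
def Pr3 (n d b b' : ℕ) : Finset (ℕ × ℕ) :=
  {x ∈ PP d b n ×ˢ PQ d b' n | ((x.2 - x.1) / 2).Prime ∧ x.2 = x.1 + 2 * ((x.2 - x.1) / 2)}

lemma Cnt3_le (n d b b' : ℕ) (hn : 2 ≤ n) :
    Cnt3 n (PP d b n) (PQ d b' n) vI ≤ #(Pr3 n d b b') * (36 * Real.log n) ^ 2 := by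
  have h1 : Cnt3 n (PP d b n) (PQ d b' n) vI ≤
      ∑ x ∈ Pr3 n d b b', Real.log x.1 * Real.log x.2 := by
    unfold Cnt3 Pr3
    rw [sum_comm, sum_filter, sum_product]
    refine sum_le_sum fun p _ => ?_
    rw [sum_comm]
    refine sum_le_sum fun q _ => ?_
    have hlp := Real.log_natCast_nonneg p
    have hlq := Real.log_natCast_nonneg q
    have hpq : 0 ≤ Real.log p * Real.log q := mul_nonneg hlp hlq
    by_cases h : ((q - p) / 2).Prime ∧ q = p + 2 * ((q - p) / 2)
    · rw [if_pos h]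
      calc ∑ t ∈ Ioc (2 * n ^ 32) (6 * (2 * n ^ 32)),
            (if q = p + 2 * t then vI t * Real.log p * Real.log q else 0)
          ≤ ∑ t ∈ Ioc (2 * n ^ 32) (6 * (2 * n ^ 32)),
            (if t = (q - p) / 2 then Real.log p * Real.log q else 0) := by
            refine sum_le_sum fun t _ => ?_
            split_ifs with h1 h2 h2
            · have hv : vI t ≤ 1 := by unfold vI; split_ifs <;> norm_num
              calc vI t * Real.log p * Real.log q = vI t * (Real.log p * Real.log q) := by ring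
                _ ≤ 1 * (Real.log p * Real.log q) := by gcongr
                _ = _ := one_mul _
            · exfalso; omega
            · exact hpq
            · exact le_rfl
        _ ≤ Real.log p * Real.log q := by
            rw [sum_ite_eq']
            split_ifs
            · exact le_rfl
            · exact hpq
    · rw [if_neg h]
      apply le_of_eq
      refine sum_eq_zero fun t _ => ?_
      split_ifs with h1
      · have h2 : t = (q - p) / 2 := by omega
        have h3 : ¬ t.Prime := fun h3 => h ⟨h2 ▸ h3, by omega⟩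
        unfold vI
        rw [if_neg h3]
        ring
      · rfl
  refine h1.trans ?_
  have hb : ∀ m : ℕ, 0 < m → m ≤ 16 * n ^ 32 → Real.log m ≤ 36 * Real.log n := by
    intro m hm hm2
    have h2 := log_bound n hn 16 4 32 (by norm_num) (by norm_num)
    have h3 : Real.log m ≤ Real.log ((16 * n ^ 32 : ℕ) : ℝ) :=
      Real.log_le_log (by exact_mod_cast hm) (by exact_mod_cast hm2)
    push_cast at h2 h3
    linarith
  calc ∑ x ∈ Pr3 n d b b', Real.log x.1 * Real.log x.2
      ≤ ∑ x ∈ Pr3 n d b b', (36 * Real.log n) ^ 2 := by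
        refine sum_le_sum fun x hx => ?_
        unfold Pr3 at hx
        rw [mem_filter, mem_product] at hx
        obtain ⟨⟨hp, hq⟩, -⟩ := hx
        have e3 := mem_Ioc.1 (mem_filter.1 hp).1
        have e4 := mem_Ioc.1 (mem_filter.1 hq).1
        have f3 := hb x.1 (by omega) (by omega)
        have f4 := hb x.2 (by omega) (by omega)
        have g3 := Real.log_natCast_nonneg x.1
        have g4 := Real.log_natCast_nonneg x.2
        calc Real.log x.1 * Real.log x.2
            ≤ (36 * Real.log n) * (36 * Real.log n) := by gcongr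
          _ = _ := by ring
    _ = _ := by rw [sum_const, nsmul_eq_mul]

/-- **Ternary theorem, unweighted form.** -/
theorem pairs_exist3 (d b b' : ℕ) (hd : d.Prime) (hd2 : d ≠ 2) (hb : b.Coprime d)
    (hb' : b'.Coprime d) (hbb : ¬ b ≡ b' [MOD d]) :
    ∃ cc : ℝ, 0 < cc ∧ ∀ᶠ n : ℕ in atTop, ∃ 𝒬 : Finset (ℕ × ℕ),
      cc * n ^ 64 / Real.log n ^ 3 ≤ #𝒬 ∧ ∀ x ∈ 𝒬, x.1.Prime ∧ x.2.Prime ∧ 4 * n ^ 32 < x.1 ∧
        x.1 < x.2 ∧ x.2 ≤ 16 * n ^ 32 ∧ x.1 ≡ b [MOD d] ∧ x.2 ≡ b' [MOD d] ∧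
        ∃ t : ℕ, t.Prime ∧ 2 * n ^ 32 < t ∧ x.2 = x.1 + 2 * t := by
  have hd1 : (0 : ℝ) < (d : ℝ) - 1 := by
    have : (2 : ℝ) ≤ d := by exact_mod_cast hd.two_le
    linarith
  refine ⟨16 / (3 * ((d : ℝ) - 1) ^ 2 * (33 * 36 ^ 2)), by positivity, ?_⟩
  filter_upwards [Cnt3_ge d b b' hd hd2 hb hb' hbb, eventually_ge_atTop 3] with n h hn
  have hn' : (3 : ℝ) ≤ n := by exact_mod_cast hn
  have hlog : 0 < Real.log n := Real.log_pos (by linarith)
  refine ⟨Pr3 n d b b', ?_, ?_⟩
  · have h1 := Cnt3_le n d b b' (by omega)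
    have h2 : Real.log ((2 * n ^ 32 : ℕ) : ℝ) ≤ 33 * Real.log n := by
      have h3 := log_bound n (by omega) 2 1 32 (by norm_num) (by norm_num)
      push_cast at h3 ⊢
      linarith
    have h3 : Real.log ((2 * n ^ 32 : ℕ) : ℝ) * Cnt3 n (PP d b n) (PQ d b' n) vI ≤
        (33 * Real.log n) * (#(Pr3 n d b b') * (36 * Real.log n) ^ 2) := by
      have h4 := Real.log_natCast_nonneg (2 * n ^ 32)
      calc Real.log ((2 * n ^ 32 : ℕ) : ℝ) * Cnt3 n (PP d b n) (PQ d b' n) vI
          ≤ Real.log ((2 * n ^ 32 : ℕ) : ℝ) * (#(Pr3 n d b b') * (36 * Real.log n) ^ 2) := by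
            gcongr
        _ ≤ _ := by gcongr
    have h4 := h.trans h3
    rw [div_le_iff₀ (by positivity)]
    push_cast at h4
    have h5 : 1 / (3 * ((d : ℝ) - 1) ^ 2) * (4 * (n : ℝ) ^ 32) ^ 2 =
      (16 / (3 * ((d : ℝ) - 1) ^ 2 * (33 * 36 ^ 2)) * (n : ℝ) ^ 64) * (33 * 36 ^ 2) := by
      field_simp; ring
    have h6 : (33 * Real.log n) * (#(Pr3 n d b b') * (36 * Real.log n) ^ 2) =
      (#(Pr3 n d b b') * Real.log n ^ 3) * (33 * 36 ^ 2) := by ring
    rw [h5, h6] at h4
    exact le_of_mul_le_mul_right h4 (by positivity)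
  · rintro ⟨p, q⟩ hx
    rw [Pr3, mem_filter, mem_product] at hx
    simp only at hx ⊢
    obtain ⟨⟨hp, hq⟩, ht, heq⟩ := hx
    have e3 := mem_Ioc.1 (mem_filter.1 hp).1
    have e4 := mem_Ioc.1 (mem_filter.1 hq).1
    exact ⟨(mem_filter.1 hp).2.1, (mem_filter.1 hq).2.1, by omega, by omega, by omega,
      (mem_filter.1 hp).2.2, (mem_filter.1 hq).2.2, (q - p) / 2, ht, by omega, heq⟩

end LSieve
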