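import Pool.Agent.LibVinogradov.Decomp

/-!
# Bilinear sums over blocks
-/

namespace LSieve

open Finset

lemma mult_key1 {α β : UnitAddCircle} {q Y H : ℕ} (hq : addOrderOf α = q) (hq0 : 0 < q)
    (hqY : q ≤ Y) (hβ : ‖β‖ ≤ 1 / (q * ((Y : ℝ) + 1))) (h : ℤ) (hh : 2 * |h| ≤ Y + 1)
    (hH : 2 * Y ≤ H) (hlt : ‖h • (α + β)‖ < 1 / (H : ℝ)) :
    (q : ℤ) ∣ h ∧ |(h : ℝ)| * ‖β‖ < 1 / H := by
  have hq' : (0 : ℝ) < q := by exact_mod_cast hq0
  have hY' : (0 : ℝ) < Y := by exact_mod_cast lt_of_lt_of_le hq0 hqY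
  have hqY' : (q : ℝ) ≤ Y := by exact_mod_cast hqY
  have hH' : 2 * (Y : ℝ) ≤ H := by exact_mod_cast hH
  have hh' : 2 * |(h : ℝ)| ≤ Y + 1 := by
    have : ((2 * |h| : ℤ) : ℝ) ≤ ((Y + 1 : ℤ) : ℝ) := by exact_mod_cast hh
    push_cast at this
    exact this
  have h1 : |(h : ℝ)| * ‖β‖ ≤ 1 / (2 * q) := by
    calc |(h : ℝ)| * ‖β‖ ≤ (Y + 1) / 2 * (1 / (q * ((Y : ℝ) + 1))) := by
          apply mul_le_mul _ hβ (norm_nonneg _) (by positivity)
          linarith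
      _ = _ := by field_simp
  have h2 : h • α = 0 := by
    by_contra hne
    have h3 : q • (h • α) = 0 := by
      rw [smul_comm, ← hq, addOrderOf_nsmul_eq_zero, smul_zero]
    have h4 := norm_ge_of_nsmul_eq_zero hq0 h3 hne
    have h5 : 1 / (q : ℝ) ≤ ‖h • α‖ := by
      rw [div_le_iff₀ hq']; linarith
    have h6 : ‖h • α‖ ≤ ‖h • (α + β)‖ + ‖h • β‖ := by
      have : h • α = h • (α + β) - h • β := by rw [smul_add]; abel
      rw [this]
      exact norm_sub_le _ _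
    have h7 := norm_zsmul_le' β h
    have h8 : 1 / (H : ℝ) ≤ 1 / (2 * Y) := one_div_le_one_div_of_le (by positivity) hH'
    have h9 : 1 / (2 * (Y : ℝ)) ≤ 1 / (2 * q) := one_div_le_one_div_of_le (by positivity)
      (by linarith)
    have h10 : 1 / (q : ℝ) = 1 / (2 * q) + 1 / (2 * q) := by field_simp; norm_num
    linarith
  refine ⟨?_, ?_⟩
  · rw [← hq]; exact addOrderOf_dvd_iff_zsmul_eq_zero.2 h2
  · rw [smul_add, h2, zero_add] at hlt
    rwa [norm_zsmul_eq] at hlt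
    refine h1.trans ?_
    apply one_div_le_one_div_of_le (by norm_num)
    have : (1 : ℝ) ≤ q := by exact_mod_cast hq0
    linarith

lemma ball_geom1 {α β : UnitAddCircle} {q Y H L u D : ℕ} (hq : addOrderOf α = q) (hq0 : 0 < q)
    (hqY : q ≤ Y) (hβ : ‖β‖ ≤ 1 / (q * ((Y : ℝ) + 1))) (hu : 2 * u ≤ Y + 1) (hH : 2 * Y ≤ H)
    (hD : u ≤ D ∨ 1 ≤ H * ((D : ℝ) + 1) * ‖β‖) {l l' : ℕ}
    (hl : l ∈ Ioc L (L + u)) (hl' : l' ∈ Ioc L (L + u))
    (hlt : ‖l' • (α + β) - l • (α + β)‖ < 1 / (H : ℝ)) :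
    (q : ℤ) ∣ (l' : ℤ) - l ∧ |(l' : ℤ) - l| ≤ D := by
  rw [mem_Ioc] at hl hl'
  have habs : |(l' : ℤ) - l| ≤ u := by rw [abs_le]; omega
  have h0 : l' • (α + β) - l • (α + β) = ((l' : ℤ) - l) • (α + β) := by
    rw [sub_smul, natCast_zsmul, natCast_zsmul]
  rw [h0] at hlt
  obtain ⟨h1, h2⟩ := mult_key1 hq hq0 hqY hβ ((l' : ℤ) - l) (by omega) hH hlt
  refine ⟨h1, ?_⟩
  rcases hD with hD | hD
  · exact habs.trans (by exact_mod_cast hD)
  · by_contra hcon
    push Not at hcon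
    have hH0 : (0 : ℝ) < H := by
      have : 0 < H := by omega
      exact_mod_cast this
    have h3 : (D : ℝ) + 1 ≤ |(((l' : ℤ) - l : ℤ) : ℝ)| := by
      have : (D : ℤ) + 1 ≤ |(l' : ℤ) - l| := hcon
      have h4 : (((D : ℤ) + 1 : ℤ) : ℝ) ≤ ((|(l' : ℤ) - l| : ℤ) : ℝ) := by exact_mod_cast this
      push_cast at h4 ⊢
      exact h4
    rw [lt_div_iff₀ hH0] at h2
    have h4 : ((D : ℝ) + 1) * ‖β‖ * H ≤ |(((l' : ℤ) - l : ℤ) : ℝ)| * ‖β‖ * H := by gcongr
    have h5 : (H : ℝ) * ((D : ℝ) + 1) * ‖β‖ = ((D : ℝ) + 1) * ‖β‖ * H := by ring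
    linarith

/-- Multiplicity for primes, via Brun-Titchmarsh. -/
lemma ball_card_prime1 {α β : UnitAddCircle} {q Y H L u D M : ℕ} (hq : addOrderOf α = q)
    (hq0 : 0 < q)
    (hqY : q ≤ Y) (hβ : ‖β‖ ≤ 1 / (q * ((Y : ℝ) + 1))) (hu : 2 * u ≤ Y + 1) (hH : 2 * Y ≤ H)
    (hD : u ≤ D ∨ 1 ≤ H * ((D : ℝ) + 1) * ‖β‖) (hM : M ^ 2 * q ≤ 2 * D) (hqD : q ≤ D)
    (P : Finset ℕ) (hPM : ∀ p ∈ P, M < p) (hP : P ⊆ Ioc L (L + u)) (hPp : ∀ p ∈ P, p.Prime)
    (l : ℕ) (hl : l ∈ P) :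
    (#{l' ∈ P | ‖l' • (α + β) - l • (α + β)‖ < 1 / (H : ℝ)} : ℝ) *
      (Real.log M * q.totient) ≤ 54 * D := by
  set B := {l' ∈ P | ‖l' • (α + β) - l • (α + β)‖ < 1 / (H : ℝ)} with hB
  set X := 2 * D / q + 1 with hX
  have hgeom : ∀ l' ∈ B, (q : ℤ) ∣ (l' : ℤ) - l ∧ |(l' : ℤ) - l| ≤ D := by
    intro l' hl'
    rw [hB, mem_filter] at hl'
    exact ball_geom1 hq hq0 hqY hβ hu hH hD (hP hl) (hP hl'.1) hl'.2
  have hqX : 2 * D < q * X := by
    rw [hX]
    have := Nat.lt_div_mul_add (a := 2 * D) hq0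
    calc 2 * D < 2 * D / q * q + q := this
      _ = _ := by ring
  have h1 := brun_titchmarsh B (fun p hp => hPp p (mem_filter.1 hp).1) M X q l (l - D)
    (by
      rw [hX, Nat.lt_succ_iff, Nat.le_div_iff_mul_le hq0]
      exact hM)
    (fun p hp => hPM p (mem_filter.1 hp).1)
    hq0
    (by
      intro p hp
      have h2 := (hgeom p hp).1
      have h3 : (l : ℤ) ≡ p [ZMOD q] := Int.modEq_iff_dvd.2 h2
      exact ((Int.natCast_modEq_iff).1 h3).symm)
    (by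
      intro p hp
      have h2 := (hgeom p hp).2
      rw [abs_le] at h2
      omega)
  have hqR : (0 : ℝ) < q := by exact_mod_cast hq0
  have hφ' : (0 : ℝ) < q.totient := by exact_mod_cast Nat.totient_pos.2 hq0
  have hXle : (X : ℝ) ≤ 3 * D / q := by
    rw [le_div_iff₀ hqR]
    have h2 : X * q ≤ 3 * D := by
      rw [hX, add_mul, one_mul]
      have h3 := Nat.div_mul_le_self (2 * D) q
      omega
    exact_mod_cast h2
  have h2 : (#B : ℝ) * Real.log M ≤ 54 * D / q.totient := by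
    refine h1.trans ?_
    calc 18 * ((q : ℝ) / q.totient) * X ≤ 18 * ((q : ℝ) / q.totient) * (3 * D / q) := by
          gcongr
      _ = _ := by field_simp; ring
  calc (#B : ℝ) * (Real.log M * q.totient) = (#B * Real.log M) * q.totient := by ring
    _ ≤ (54 * D / q.totient) * q.totient := by gcongr
    _ = _ := by field_simp

/-- Multiplicity for integers. -/
lemma ball_card_int1 {α β : UnitAddCircle} {q Y H L u D : ℕ} (hq : addOrderOf α = q) (hq0 : 0 < q)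
    (hqY : q ≤ Y) (hβ : ‖β‖ ≤ 1 / (q * ((Y : ℝ) + 1))) (hu : 2 * u ≤ Y + 1) (hH : 2 * Y ≤ H)
    (hD : u ≤ D ∨ 1 ≤ H * ((D : ℝ) + 1) * ‖β‖)
    (P : Finset ℕ) (hP : P ⊆ Ioc L (L + u)) (l : ℕ) (hl : l ∈ P) :
    #{l' ∈ P | ‖l' • (α + β) - l • (α + β)‖ < 1 / (H : ℝ)} ≤ 2 * (D / q) + 1 := by
  classical
  set B := {l' ∈ P | ‖l' • (α + β) - l • (α + β)‖ < 1 / (H : ℝ)} with hB
  have hgeom : ∀ l' ∈ B, (q : ℤ) ∣ (l' : ℤ) - l ∧ |(l' : ℤ) - l| ≤ D := by
    intro l' hl'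
    rw [hB, mem_filter] at hl'
    exact ball_geom1 hq hq0 hqY hβ hu hH hD (hP hl) (hP hl'.1) hl'.2
  have h1 : #B ≤ #(Icc (-((D / q : ℕ) : ℤ)) ((D / q : ℕ) : ℤ)) := by
    refine card_le_card_of_injOn (fun l' => ((l' : ℤ) - l) / q) ?_ ?_
    · intro l' hl'
      obtain ⟨⟨c, hc⟩, h2⟩ := hgeom l' hl'
      have hq'z : (0 : ℤ) < q := by exact_mod_cast hq0
      simp only [coe_Icc, Set.mem_Icc]
      rw [hc, Int.mul_ediv_cancel_left _ hq'z.ne']
      rw [hc, abs_mul, abs_of_pos hq'z] at h2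
      have h3 : |c| ≤ ((D / q : ℕ) : ℤ) := by
        have h4 : (c.natAbs) * q ≤ D := by
          have : (((c.natAbs) * q : ℕ) : ℤ) ≤ D := by
            push_cast
            rw [mul_comm]; exact h2
          exact_mod_cast this
        have h5 := (Nat.le_div_iff_mul_le hq0).2 h4
        have h6 : ((c.natAbs : ℕ) : ℤ) ≤ ((D / q : ℕ) : ℤ) := by exact_mod_cast h5
        rwa [Int.natCast_natAbs] at h6
      exact abs_le.1 h3
    · intro a ha b hb hab
      obtain ⟨⟨c, hc⟩, -⟩ := hgeom a ha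
      obtain ⟨⟨d, hd⟩, -⟩ := hgeom b hb
      have hq'z : (0 : ℤ) < q := by exact_mod_cast hq0
      have hab' : ((a : ℤ) - l) / q = ((b : ℤ) - l) / q := hab
      rw [hc, hd, Int.mul_ediv_cancel_left _ hq'z.ne', Int.mul_ediv_cancel_left _ hq'z.ne'] at hab'
      rw [hab'] at hc
      omega
  refine h1.trans ?_
  rw [Int.card_Icc]
  omega

/-- Primes in a block. -/
def Pb (J R u k : ℕ) : Finset ℕ := {p ∈ PR J R | u * k < p ∧ p ≤ u * (k + 1)}

/-- The rough `m` attached to a block. -/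
def Mb (J T X u k : ℕ) : Finset ℕ :=
  {m ∈ Ioc 0 X | (T < u * (k + 1) * m ∧ u * k * m ≤ X) ∧ ∀ p ∈ PJ J, ¬ p ∣ m}

/-- Rough `m` at the edge `c`. -/
def Eb (J X u k c : ℕ) : Finset ℕ :=
  {m ∈ Ioc 0 X | (u * k * m ≤ c ∧ c < u * (k + 1) * m) ∧ ∀ p ∈ PJ J, ¬ p ∣ m}

lemma edge_norm (J R T X u k p : ℕ) (hp : p ∈ Pb J R u k) (x : UnitAddCircle) :
    ‖nsum (Mset T X p) (cI J R) x‖ ≤ ‖nsum (Mb J T X u k) (cI J R) x‖ +
      (#(Eb J X u k T) + #(Eb J X u k X)) := by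
  classical
  unfold Pb at hp
  rw [mem_filter] at hp
  obtain ⟨-, hp1, hp2⟩ := hp
  set M1 := {m ∈ Mset T X p | ∀ q ∈ PJ J, ¬ q ∣ m} with hM1
  have h1 : nsum (Mset T X p) (cI J R) x = nsum M1 (cI J R) x := by
    unfold nsum
    rw [hM1, sum_filter]
    refine sum_congr rfl fun m _ => ?_
    split_ifs with h
    · rfl
    · unfold cI
      rw [roughI_eq, if_neg h]; simp
  have hsub : M1 ⊆ Mb J T X u k := by
    intro m hm
    rw [hM1, mem_filter] at hm
    obtain ⟨hm1, hm2⟩ := hm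
    unfold Mset at hm1
    rw [mem_filter, mem_Ioc] at hm1
    unfold Mb
    rw [mem_filter, mem_Ioc]
    obtain ⟨hm3, hm4, hm5⟩ := hm1
    refine ⟨hm3, ⟨?_, ?_⟩, hm2⟩
    · exact lt_of_lt_of_le hm4 (Nat.mul_le_mul_right _ hp2)
    · exact (Nat.mul_le_mul_right _ hp1.le).trans hm5
  have h2 : nsum (Mb J T X u k) (cI J R) x =
      nsum (Mb J T X u k \ M1) (cI J R) x + nsum M1 (cI J R) x := by
    unfold nsum
    rw [sum_sdiff hsub]
  have h3 : ‖nsum (Mb J T X u k \ M1) (cI J R) x‖ ≤ #(Eb J X u k T) + #(Eb J X u k X) := by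
    calc ‖nsum (Mb J T X u k \ M1) (cI J R) x‖ ≤ ∑ m ∈ Mb J T X u k \ M1, (1 : ℝ) := by
          unfold nsum
          refine (norm_sum_le _ _).trans (sum_le_sum fun m _ => ?_)
          rw [norm_mul, norm_e, mul_one, Complex.norm_real, Real.norm_eq_abs,
            abs_of_nonneg (cI_nonneg J R m)]
          exact cI_le_one J R m
      _ = (#(Mb J T X u k \ M1) : ℝ) := by simp
      _ ≤ ((#(Eb J X u k T ∪ Eb J X u k X) : ℕ) : ℝ) := by
          have : #(Mb J T X u k \ M1) ≤ #(Eb J X u k T ∪ Eb J X u k X) := by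
            apply card_le_card
            intro m hm
            rw [mem_sdiff] at hm
            obtain ⟨hm1, hm2⟩ := hm
            unfold Mb at hm1
            rw [mem_filter, mem_Ioc] at hm1
            obtain ⟨hm3, ⟨hm4, hm5⟩, hm6⟩ := hm1
            rw [hM1, mem_filter] at hm2
            unfold Mset at hm2
            rw [mem_filter, mem_Ioc] at hm2
            rw [mem_union]
            unfold Eb
            rw [mem_filter, mem_filter, mem_Ioc]
            by_cases h4 : T < p * m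
            · right
              refine ⟨hm3, ⟨hm5, ?_⟩, hm6⟩
              by_contra h5
              apply hm2
              refine ⟨⟨hm3, h4, ?_⟩, hm6⟩
              exact (Nat.mul_le_mul_right _ hp2).trans (not_lt.1 h5)
            · left
              refine ⟨hm3, ⟨?_, hm4⟩, hm6⟩
              exact (Nat.mul_le_mul_right _ hp1.le).trans (not_lt.1 h4)
          exact_mod_cast this
      _ ≤ _ := by
          have := card_union_le (Eb J X u k T) (Eb J X u k X)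
          exact_mod_cast this
  rw [h1]
  have h4 : nsum M1 (cI J R) x = nsum (Mb J T X u k) (cI J R) x -
      nsum (Mb J T X u k \ M1) (cI J R) x := by rw [h2]; ring
  rw [h4]
  exact (norm_sub_le _ _).trans (by gcongr)

lemma edge_sub (J X u k c K : ℕ) (hu : 0 < u) (hK : 0 < K) (hk : K ≤ k) :
    Eb J X u k c ⊆ Ico (c / (u * (k + 1)) + 1) (c / (u * (k + 1)) + 1 + (c / (u * K ^ 2) + 2)) := by
  intro m hm
  unfold Eb at hm
  rw [mem_filter, mem_Ioc] at hm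
  obtain ⟨⟨hm0, -⟩, ⟨h1, h2⟩, -⟩ := hm
  rw [mem_Ico]
  have hu' : (0 : ℝ) < u := by exact_mod_cast hu
  have hK' : (0 : ℝ) < K := by exact_mod_cast hK
  have hk' : (K : ℝ) ≤ k := by exact_mod_cast hk
  constructor
  · have : c / (u * (k + 1)) < m := by
      rw [Nat.div_lt_iff_lt_mul (by positivity)]
      linarith
    omega
  · by_contra hcon
    push Not at hcon
    set a := c / (u * (k + 1)) with ha
    set b := c / (u * K ^ 2) with hb
    have e1 : (c : ℝ) < u * (k + 1) * (a + 1) := by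
      have := Nat.lt_mul_div_succ c (show 0 < u * (k + 1) by positivity)
      have h3 : ((c : ℕ) : ℝ) < ((u * (k + 1) * (c / (u * (k + 1)) + 1) : ℕ) : ℝ) := by
        exact_mod_cast this
      push_cast at h3
      rw [ha]
      exact h3
    have e2 : (c : ℝ) < u * K ^ 2 * (b + 1) := by
      have := Nat.lt_mul_div_succ c (show 0 < u * K ^ 2 by positivity)
      have h3 : ((c : ℕ) : ℝ) < ((u * K ^ 2 * (c / (u * K ^ 2) + 1) : ℕ) : ℝ) := by
        exact_mod_cast this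
      push_cast at h3
      rw [hb]
      exact h3
    have e3 : (u : ℝ) * k * m ≤ c := by exact_mod_cast h1
    have e4 : (a : ℝ) + 1 + (b + 2) ≤ m := by exact_mod_cast hcon
    have hc0 : (0 : ℝ) ≤ c := Nat.cast_nonneg c
    have hk0 : (0 : ℝ) < k := by linarith
    -- c (k+1) = c k + c < u (k+1) k (a+1) + u K^2 (b+1)
    have e5 : (c : ℝ) * (k + 1) < u * k * (k + 1) * (a + 1) + u * k * (k + 1) * (b + 1) := by
      have f1 : (c : ℝ) * k < u * (k + 1) * (a + 1) * k := mul_lt_mul_of_pos_right e1 hk0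
      have f2 : (u : ℝ) * K ^ 2 * (b + 1) ≤ u * k * (k + 1) * (b + 1) := by
        have : (K : ℝ) ^ 2 ≤ k * (k + 1) := by nlinarith
        have hb0 : (0 : ℝ) ≤ b + 1 := by positivity
        calc (u : ℝ) * K ^ 2 * (b + 1) ≤ u * (k * (k + 1)) * (b + 1) := by gcongr
          _ = _ := by ring
      linarith
    have e6 : (u : ℝ) * k * m * (k + 1) ≤ c * (k + 1) := by gcongr
    have e7 : (u : ℝ) * k * (k + 1) * (a + 1 + (b + 2)) ≤ u * k * (k + 1) * m := by gcongr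
    have e8 : 0 < (u : ℝ) * k * (k + 1) := by positivity
    nlinarith

end LSieve
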