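import Pool.Agent.LibVinogradov.Bilin

/-!
# Block bounds and summation over blocks
-/

namespace LSieve

open Finset

/-- Common hypotheses. -/
structure BH (α β : UnitAddCircle) (q Y J R T X K : ℕ) (μ : ℝ) : Prop where
  hq : addOrderOf α = q
  hq0 : 0 < q
  hqY : q ≤ Y
  hβ : ‖β‖ ≤ 1 / (q * ((Y : ℝ) + 1))
  hK : 1 ≤ K
  hYR : 2 * Y * R ≤ X
  hRK : 2 * R ≤ K * (Y + 1)
  hμ0 : 0 < μ
  hμ1 : μ ≤ 1
  hμ : μ = 1 ∨ 2 * K ≤ X * ‖β‖ * μ

variable {α β : UnitAddCircle} {q Y J R T X K : ℕ} {μ : ℝ}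

lemma block_facts (h : BH α β q Y J R T X K μ) {u k : ℕ} (hk : K ≤ k) (hk2 : k < 2 * K)
    (hne : (Pb J R u k).Nonempty) :
    0 < u ∧ u * K < R ∧ 2 ^ (2 ^ J) < u * (2 * K) ∧ 2 * Y ≤ X / (u * K) ∧ 2 * u ≤ Y + 1 ∧
      (u ≤ ⌊μ * u⌋₊ ∨ 1 ≤ ((X / (u * K) : ℕ) : ℝ) * ((⌊μ * u⌋₊ : ℝ) + 1) * ‖β‖) := by
  obtain ⟨p, hp⟩ := hne
  unfold Pb at hp
  rw [mem_filter, mem_PR] at hp
  obtain ⟨⟨⟨hp1, hp2⟩, hpp⟩, hp3, hp4⟩ := hp
  have hu : 0 < u := by
    rcases Nat.eq_zero_or_pos u with h0 | h0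
    · rw [h0, zero_mul] at hp4
      have := hpp.pos
      omega
    · exact h0
  have hK := h.hK
  have h1 : u * K < R := lt_of_le_of_lt (Nat.mul_le_mul_left u hk) (by omega)
  have h2 : 2 ^ (2 ^ J) < u * (2 * K) :=
    lt_of_lt_of_le hp1 (hp4.trans (Nat.mul_le_mul_left u (by omega)))
  have h3 : 2 * Y ≤ X / (u * K) := by
    rw [Nat.le_div_iff_mul_le (by positivity)]
    exact (Nat.mul_le_mul_left _ h1.le).trans h.hYR
  have h4 : 2 * u ≤ Y + 1 := by
    have : K * (2 * u) ≤ K * (Y + 1) := by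
      have := h.hRK
      calc K * (2 * u) = 2 * (u * K) := by ring
        _ ≤ 2 * R := by omega
        _ ≤ _ := this
    exact Nat.le_of_mul_le_mul_left this (by omega)
  refine ⟨hu, h1, h2, h3, h4, ?_⟩
  rcases h.hμ with h5 | h5
  · left; rw [h5, one_mul, Nat.floor_natCast]
  · right
    have hu' : (0 : ℝ) < u := by exact_mod_cast hu
    have hK' : (0 : ℝ) < K := by exact_mod_cast hK
    have hY : 1 ≤ Y := le_trans h.hq0 h.hqY
    set H := X / (u * K) with hH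
    have hH1 : (1 : ℝ) ≤ H := by
      have : 1 ≤ H := by omega
      exact_mod_cast this
    have e1 : (X : ℝ) < u * K * (H + 1) := by
      have := Nat.lt_mul_div_succ X (show 0 < u * K by positivity)
      have h6 : ((X : ℕ) : ℝ) < ((u * K * (X / (u * K) + 1) : ℕ) : ℝ) := by exact_mod_cast this
      push_cast at h6
      rw [hH]
      exact h6
    have e2 : (X : ℝ) ≤ 2 * (u * K) * H := by nlinarith [mul_pos hu' hK']
    have e3 : μ * u ≤ (⌊μ * u⌋₊ : ℝ) + 1 := (Nat.lt_floor_add_one _).le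
    have hβ0 := norm_nonneg β
    have hμ0 := h.hμ0
    have e4 : 2 * (K : ℝ) ≤ 2 * K * (H * ((⌊μ * u⌋₊ : ℝ) + 1) * ‖β‖) := by
      calc 2 * (K : ℝ) ≤ X * ‖β‖ * μ := h5
        _ ≤ (2 * (u * K) * H) * ‖β‖ * μ := by gcongr
        _ = 2 * K * (H * (μ * u) * ‖β‖) := by ring
        _ ≤ _ := by gcongr
    have e5 : 2 * (K : ℝ) * 1 ≤ 2 * K * (H * ((⌊μ * u⌋₊ : ℝ) + 1) * ‖β‖) := by
      rw [mul_one]; exact e4
    exact le_of_mul_le_mul_left e5 (by positivity)

lemma Pb_sub (J R u k : ℕ) : Pb J R u k ⊆ Ioc (u * k) (u * k + u) := by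
  intro p hp
  unfold Pb at hp
  rw [mem_filter] at hp
  rw [mem_Ioc]
  refine ⟨hp.2.1, ?_⟩
  have := hp.2.2
  rw [mul_add, mul_one] at this
  exact this

lemma Pb_card (J R u k : ℕ) : #(Pb J R u k) ≤ u := by
  have := card_le_card (Pb_sub J R u k)
  rw [Nat.card_Ioc] at this
  omega

lemma Mb_sub (J T X u k : ℕ) (hu : 0 < u) (hK : 0 < K) (hk : K ≤ k) :
    Mb J T X u k ⊆ Ico 1 (1 + X / (u * K)) := by
  intro m hm
  unfold Mb at hm
  rw [mem_filter, mem_Ioc] at hm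
  obtain ⟨⟨hm0, -⟩, ⟨-, h2⟩, -⟩ := hm
  rw [mem_Ico]
  refine ⟨hm0, ?_⟩
  have : m ≤ X / (u * K) := by
    rw [Nat.le_div_iff_mul_le (by positivity)]
    calc m * (u * K) = u * K * m := by ring
      _ ≤ u * k * m := Nat.mul_le_mul_right _ (Nat.mul_le_mul_left _ hk)
      _ ≤ X := h2
  omega

lemma Mb_card (J T X u k : ℕ) (hu : 0 < u) (hK : 0 < K) (hk : K ≤ k) :
    #(Mb J T X u k) ≤ X / (u * K) := by
  have := card_le_card (Mb_sub (K := K) J T X u k hu hK hk)
  rwa [Nat.card_Ico, Nat.add_sub_cancel_left] at this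

lemma sum_cI_sq (J R : ℕ) (S : Finset ℕ) : ∑ m ∈ S, cI J R m ^ 2 ≤ #S := by
  calc ∑ m ∈ S, cI J R m ^ 2 ≤ ∑ m ∈ S, (1 : ℝ) := by
        refine sum_le_sum fun m _ => ?_
        have h1 := cI_nonneg J R m
        have h2 := cI_le_one J R m
        nlinarith
    _ = _ := by simp

lemma Eb_card (J X u k c : ℕ) (hu : 0 < u) (hK : 0 < K) (hk : K ≤ k) :
    (#(Eb J X u k c) : ℝ) ≤ c / (u * K ^ 2) + 2 := by
  have h2 := card_le_card (edge_sub J X u k c K hu hK hk)
  rw [Nat.card_Ico, Nat.add_sub_cancel_left] at h2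
  have h3 : ((c / (u * K ^ 2) : ℕ) : ℝ) ≤ (c : ℝ) / ((u * K ^ 2 : ℕ) : ℝ) := Nat.cast_div_le
  push_cast at h3
  have h4 : ((#(Eb J X u k c) : ℕ) : ℝ) ≤ ((c / (u * K ^ 2) + 2 : ℕ) : ℝ) := by exact_mod_cast h2
  push_cast at h4
  linarith

/-- Block bound with logarithmic losses. -/
lemma block_int (h : BH α β q Y J R T X K μ) {u k : ℕ} (hk : K ≤ k) (hk2 : k < 2 * K)
    (hne : (Pb J R u k).Nonempty) (w : ℝ) (hw0 : 0 ≤ w)
    (hw : 2 * μ / q + 2 * K / (2 : ℝ) ^ (2 ^ J) ≤ w ^ 2) :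
    ∑ p ∈ Pb J R u k, ‖nsum (Mset T X p) (cI J R) (p • (α + β))‖ ≤
      3 * (X / K) * w + (T + X) / K ^ 2 + 4 * R / K := by
  obtain ⟨hu, h1, h2, h3, h4, h5⟩ := block_facts h hk hk2 hne
  have hK := h.hK
  have hu' : (0 : ℝ) < u := by exact_mod_cast hu
  have hK' : (0 : ℝ) < K := by exact_mod_cast hK
  have hq' : (0 : ℝ) < q := by exact_mod_cast h.hq0
  set H := X / (u * K) with hH
  have hHpos : 0 < H := by
    have : 1 ≤ Y := le_trans h.hq0 h.hqY
    omega
  have hHX : (H : ℝ) * u ≤ X / K := by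
    rw [le_div_iff₀ hK']
    have : H * (u * K) ≤ X := Nat.div_mul_le_self _ _
    have : ((H * (u * K) : ℕ) : ℝ) ≤ X := by exact_mod_cast this
    push_cast at this
    linarith
  set D := ⌊μ * u⌋₊ with hD
  have hDle : (D : ℝ) ≤ μ * u := Nat.floor_le (mul_nonneg h.hμ0.le hu'.le)
  have hls := large_sieve_nat (Pb J R u k) (fun p => p • (α + β)) H (2 * (D / q) + 1) hHpos
    (fun l hl => ball_card_int1 h.hq h.hq0 h.hqY h.hβ h4 h3 h5 (Pb J R u k) (Pb_sub J R u k) l hl)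
    1 (Mb J T X u k) (Mb_sub J T X u k hu hK hk) (cI J R)
  have hc : ∑ m ∈ Mb J T X u k, cI J R m ^ 2 ≤ H := by
    refine (sum_cI_sq J R _).trans ?_
    exact_mod_cast Mb_card J T X u k hu hK hk
  have hmain : ∑ p ∈ Pb J R u k, ‖nsum (Mb J T X u k) (cI J R) (p • (α + β))‖ ≤
      3 * (X / K) * w := by
    apply le_of_sq_le_sq _ (by positivity)
    calc (∑ p ∈ Pb J R u k, ‖nsum (Mb J T X u k) (cI J R) (p • (α + β))‖) ^ 2
        ≤ #(Pb J R u k) * ∑ p ∈ Pb J R u k, ‖nsum (Mb J T X u k) (cI J R) (p • (α + β))‖ ^ 2 :=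
          sq_sum_le_card_mul_sum_sq
      _ ≤ u * (9 * ((2 * (D / q) + 1 : ℕ) : ℝ) * H * H) := by
          have := Pb_card J R u k
          have : (#(Pb J R u k) : ℝ) ≤ u := by exact_mod_cast this
          gcongr
          exact hls.trans (by gcongr)
      _ ≤ u * (9 * (2 * (μ * u) / q + 1) * H * H) := by
          have e1 : ((D / q : ℕ) : ℝ) ≤ (D : ℝ) / q := Nat.cast_div_le
          have e2 : (D : ℝ) / q ≤ μ * u / q := by gcongr
          have e3 : ((2 * (D / q) + 1 : ℕ) : ℝ) ≤ 2 * (μ * u) / q + 1 := by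
            push_cast
            have : 2 * (μ * u) / (q : ℝ) = 2 * (μ * u / q) := by ring
            rw [this]
            linarith
          gcongr
      _ = 9 * (H * u) ^ 2 * (2 * μ / q + 1 / u) := by field_simp
      _ ≤ 9 * (X / K) ^ 2 * (2 * μ / q + 2 * K / (2 : ℝ) ^ (2 ^ J)) := by
          have e1 : 1 / (u : ℝ) ≤ 2 * K / (2 : ℝ) ^ (2 ^ J) := by
            rw [div_le_div_iff₀ hu' (by positivity)]
            have : ((2 ^ (2 ^ J) : ℕ) : ℝ) ≤ ((u * (2 * K) : ℕ) : ℝ) := by exact_mod_cast h2.le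
            push_cast at this
            linarith
          have := h.hμ0
          gcongr
      _ ≤ 9 * (X / K) ^ 2 * w ^ 2 := by gcongr
      _ = _ := by ring
  have hE : (#(Pb J R u k) : ℝ) * (#(Eb J X u k T) + #(Eb J X u k X)) ≤
      (T + X) / K ^ 2 + 4 * R / K := by
    have e1 := Eb_card (K := K) J X u k T hu hK hk
    have e2 := Eb_card (K := K) J X u k X hu hK hk
    have e3 := Pb_card J R u k
    have e3' : (#(Pb J R u k) : ℝ) ≤ u := by exact_mod_cast e3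
    calc (#(Pb J R u k) : ℝ) * (#(Eb J X u k T) + #(Eb J X u k X))
        ≤ u * ((T / (u * K ^ 2) + 2) + (X / (u * K ^ 2) + 2)) := by gcongr
      _ = (T + X) / K ^ 2 + 4 * u := by field_simp; ring
      _ ≤ _ := by
          have : (u : ℝ) ≤ R / K := by
            rw [le_div_iff₀ hK']; exact_mod_cast h1.le
          have e4 : 4 * (R : ℝ) / K = 4 * (R / K) := by ring
          rw [e4]; linarith
  calc ∑ p ∈ Pb J R u k, ‖nsum (Mset T X p) (cI J R) (p • (α + β))‖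
      ≤ ∑ p ∈ Pb J R u k, (‖nsum (Mb J T X u k) (cI J R) (p • (α + β))‖ +
        (#(Eb J X u k T) + #(Eb J X u k X))) :=
        sum_le_sum fun p hp => edge_norm J R T X u k p hp _
    _ = ∑ p ∈ Pb J R u k, ‖nsum (Mb J T X u k) (cI J R) (p • (α + β))‖ +
        #(Pb J R u k) * (#(Eb J X u k T) + #(Eb J X u k X)) := by
        rw [sum_add_distrib, sum_const, nsmul_eq_mul]
    _ ≤ _ := by linarith

/-- Block bound without logarithmic losses. -/
lemma block_BT (h : BH α β q Y J R T X K μ) {u k M : ℕ} (hk : K ≤ k) (hk2 : k < 2 * K)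
    (hne : (Pb J R u k).Nonempty) (hTX : T ≤ X)
    (hM1 : 1 ≤ M) (hMZ : M ≤ 2 ^ (2 ^ J))
    (hMD : (M : ℝ) ^ 2 * q + 1 ≤ μ * (2 : ℝ) ^ (2 ^ J) / (2 * K))
    (hMR : (M ^ 2 + 1) * R ≤ X) (hMT : M ^ 2 * (R * K) ≤ T)
    (hMs : ((q : ℝ) * M) ^ 2 * (1 / (2 * Y) + 2 * (R * ‖β‖)) < 1)
    (w : ℝ) (hw0 : 0 ≤ w) (hw : μ * q / (q.totient : ℝ) ^ 2 ≤ w ^ 2) :
    Real.log M ^ 2 * ∑ p ∈ Pb J R u k, ‖nsum (Mset T X p) (cI J R) (p • (α + β))‖ ≤
      562 * (X / K) * w + 324 * ((T + X) / K ^ 2 + 4 * R / K) := by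
  obtain ⟨hu, h1, h2, h3, h4, h5⟩ := block_facts h hk hk2 hne
  have hK := h.hK
  have hu' : (0 : ℝ) < u := by exact_mod_cast hu
  have hK' : (0 : ℝ) < K := by exact_mod_cast hK
  have hq' : (0 : ℝ) < q := by exact_mod_cast h.hq0
  have hφ : (0 : ℝ) < q.totient := by exact_mod_cast Nat.totient_pos.2 h.hq0
  have hlogM : 0 ≤ Real.log M := Real.log_natCast_nonneg M
  have hμ0 := h.hμ0
  set H := X / (u * K) with hH
  have hY1 : 1 ≤ Y := le_trans h.hq0 h.hqY
  have hHpos : 0 < H := by omega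
  have hHX : (H : ℝ) * u ≤ X / K := by
    rw [le_div_iff₀ hK']
    have : H * (u * K) ≤ X := Nat.div_mul_le_self _ _
    have : ((H * (u * K) : ℕ) : ℝ) ≤ X := by exact_mod_cast this
    push_cast at this
    linarith
  set D := ⌊μ * u⌋₊ with hD
  have hDle : (D : ℝ) ≤ μ * u := Nat.floor_le (mul_nonneg h.hμ0.le hu'.le)
  have hMZ' : (M : ℝ) ^ 2 * q + 1 ≤ μ * u := by
    refine hMD.trans ?_
    rw [div_le_iff₀ (by positivity)]
    have : ((2 ^ (2 ^ J) : ℕ) : ℝ) ≤ ((u * (2 * K) : ℕ) : ℝ) := by exact_mod_cast h2.le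
    push_cast at this
    calc μ * (2 : ℝ) ^ (2 ^ J) ≤ μ * (u * (2 * K)) := by gcongr
      _ = _ := by ring
  have hDge : M ^ 2 * q ≤ D := by
    apply Nat.le_floor
    push_cast
    linarith
  have hM2q : q ≤ M ^ 2 * q := Nat.le_mul_of_pos_left _ (by positivity)
  have hM2u : M ^ 2 < u := by
    have e1 : M ^ 2 ≤ M ^ 2 * q := Nat.le_mul_of_pos_right _ h.hq0
    have e2 : ((M ^ 2 * q : ℕ) : ℝ) < u := by
      push_cast
      have : μ * u ≤ 1 * u := by gcongr; exact h.hμ1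
      linarith
    have e3 : M ^ 2 * q < u := by exact_mod_cast e2
    omega
  have hM2H : M ^ 2 < H := by
    have : M ^ 2 + 1 ≤ H := by
      rw [hH, Nat.le_div_iff_mul_le (by positivity)]
      exact (Nat.mul_le_mul_left _ h1.le).trans hMR
    omega
  have hPbM : ∀ p ∈ Pb J R u k, M < p := by
    intro p hp
    unfold Pb at hp
    rw [mem_filter, mem_PR] at hp
    omega
  have hPbp : ∀ p ∈ Pb J R u k, p.Prime := by
    intro p hp
    unfold Pb at hp
    rw [mem_filter, mem_PR] at hp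
    exact hp.1.2
  -- number of primes in the block
  have hcardP : (#(Pb J R u k) : ℝ) * Real.log M ≤ 18 * u := by
    have := brun_titchmarsh (Pb J R u k) hPbp M u 1 0 (u * k + 1) hM2u hPbM one_pos
      (fun p _ => Nat.modEq_one)
      (fun p hp => by
        have := mem_Ioc.1 (Pb_sub J R u k hp)
        rw [one_mul]
        constructor <;> omega)
    simpa using this
  -- number of rough integers
  have hrough : ∀ c : ℕ, T ≤ c → (#(Eb J X u k c) : ℝ) * Real.log M ≤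
      18 * (c / (u * K ^ 2) + 2) := by
    intro c hc
    have e0 : M ^ 2 < c / (u * K ^ 2) + 2 := by
      have : M ^ 2 ≤ c / (u * K ^ 2) := by
        rw [Nat.le_div_iff_mul_le (by positivity)]
        calc M ^ 2 * (u * K ^ 2) = M ^ 2 * ((u * K) * K) := by ring
          _ ≤ M ^ 2 * (R * K) := by gcongr
          _ ≤ T := hMT
          _ ≤ c := hc
      omega
    have e1 := rough_count (Eb J X u k c) M _ _ e0 (edge_sub J X u k c K hu hK hk) (by
      intro n hn p hp hpM hpn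
      unfold Eb at hn
      rw [mem_filter] at hn
      exact hn.2.2 p (mem_PJ.2 ⟨hpM.trans hMZ, hp⟩) hpn)
    refine e1.trans ?_
    have h3 : ((c / (u * K ^ 2) : ℕ) : ℝ) ≤ (c : ℝ) / ((u * K ^ 2 : ℕ) : ℝ) := Nat.cast_div_le
    push_cast at h3 ⊢
    linarith
  have hroughM : (#(Mb J T X u k) : ℝ) * Real.log M ≤ 18 * H := by
    apply rough_count (Mb J T X u k) M 1 H hM2H (Mb_sub J T X u k hu hK hk)
    intro n hn p hp hpM hpn
    unfold Mb at hn
    rw [mem_filter] at hn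
    exact hn.2.2 p (mem_PJ.2 ⟨hpM.trans hMZ, hp⟩) hpn
  -- the large sieve
  have hmain : Real.log M ^ 2 *
      ∑ p ∈ Pb J R u k, ‖nsum (Mb J T X u k) (cI J R) (p • (α + β))‖ ≤ 562 * (X / K) * w := by
    rcases Nat.lt_or_ge 1 M with hM2 | hM2
    · have hlogpos : 0 < Real.log M := Real.log_pos (by exact_mod_cast hM2)
      set Rm := ⌊54 * D / (Real.log M * q.totient)⌋₊ with hRm
      have hRm1 : (Rm : ℝ) * (Real.log M * q.totient) ≤ 54 * D := by
        have e1 : (Rm : ℝ) ≤ 54 * D / (Real.log M * q.totient) := Nat.floor_le (by positivity)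
        rwa [le_div_iff₀ (by positivity)] at e1
      have hmult : ∀ l ∈ Pb J R u k,
          #{l' ∈ Pb J R u k | ‖l' • (α + β) - l • (α + β)‖ < 1 / (H : ℝ)} ≤ Rm := by
        intro l hl
        have e1 := ball_card_prime1 (M := M) h.hq h.hq0 h.hqY h.hβ h4 h3 h5 (by omega) (by omega)
          (Pb J R u k) hPbM (Pb_sub J R u k) hPbp l hl
        apply Nat.le_floor
        rwa [le_div_iff₀ (by positivity)]
      have hqord : ∀ p : ℕ, addOrderOf (p • α) ∣ q := fun p => by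
        rw [← h.hq]; exact addOrderOf_nsmul_dvd α p
      have hls := sifted_large_sieve_nat (Pb J R u k) (fun p => p • α) (fun p => p • β)
        H Rm M q (R * ‖β‖) q.primeFactors hHpos
        (fun p _ => Nat.pos_of_ne_zero fun h0 => by
          have := hqord p
          rw [h0, zero_dvd_iff] at this
          exact h.hq0.ne' this)
        (fun p _ => Nat.le_of_dvd h.hq0 (hqord p))
        (fun p _ r hr hrd => Nat.mem_primeFactors.2 ⟨hr, hrd.trans (hqord p), h.hq0.ne'⟩)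
        (fun p hp => by
          have e1 : ‖p • β‖ ≤ (p : ℝ) * ‖β‖ := norm_nsmul_le
          refine e1.trans ?_
          unfold Pb at hp
          rw [mem_filter, mem_PR] at hp
          have : (p : ℝ) ≤ R := by exact_mod_cast hp.1.1.2
          exact mul_le_mul_of_nonneg_right this (norm_nonneg _))
        (by
          refine lt_of_le_of_lt ?_ hMs
          have : (1 : ℝ) / H ≤ 1 / (2 * Y) := by
            apply one_div_le_one_div_of_le (by positivity)
            exact_mod_cast h3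
          gcongr)
        (fun l hl => by
          have := hmult l hl
          simp_rw [smul_add] at this ⊢
          exact this)
        1 (Mb J T X u k) (Mb_sub J T X u k hu hK hk) (cI J R)
        (by
          intro p hp hpM _
          refine ⟨0, fun n hn h0 => ?_⟩
          have e1 : (p : ℤ) ∣ n := Int.modEq_zero_iff_dvd.1 h0
          unfold Mb at hn
          rw [mem_filter] at hn
          exact hn.2.2 p (mem_PJ.2 ⟨hpM.trans hMZ, hp⟩) (by exact_mod_cast e1))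
      have hG := log_le_G q.primeFactors M (fun p hp => Nat.prime_of_mem_primeFactors hp)
      rw [V_primeFactors q h.hq0] at hG
      set SS := ∑ p ∈ Pb J R u k, ‖nsum (Mb J T X u k) (cI J R) (p • (α + β))‖ ^ 2 with hSS
      have hSS0 : 0 ≤ SS := sum_nonneg fun _ _ => sq_nonneg _
      have hls2 : G q.primeFactors M * SS ≤ 9 * Rm * H * #(Mb J T X u k) := by
        have e1 : SS = ∑ i ∈ Pb J R u k, ‖nsum (Mb J T X u k) (cI J R) (i • α + i • β)‖ ^ 2 := by
          rw [hSS]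
          refine sum_congr rfl fun p _ => ?_
          rw [smul_add]
        rw [e1]
        refine hls.trans ?_
        have := sum_cI_sq J R (Mb J T X u k)
        gcongr
      -- combine
      have key : (Real.log M) ^ 3 * SS ≤ 314928 / 18 * (D * H ^ 2 * (q / (q.totient : ℝ) ^ 2)) := by
        calc (Real.log M) ^ 3 * SS = (Real.log M) ^ 2 * (Real.log M * SS) := by ring
          _ ≤ (Real.log M) ^ 2 * ((2 * (q / q.totient) * G q.primeFactors M) * SS) := by gcongr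
          _ = (Real.log M) ^ 2 * (2 * (q / q.totient)) * (G q.primeFactors M * SS) := by ring
          _ ≤ (Real.log M) ^ 2 * (2 * (q / q.totient)) * (9 * Rm * H * #(Mb J T X u k)) := by
              gcongr
          _ = 18 * H * (q / (q.totient : ℝ) ^ 2) * (Rm * (Real.log M * q.totient)) *
              (#(Mb J T X u k) * Real.log M) := by field_simp; ring
          _ ≤ 18 * H * (q / (q.totient : ℝ) ^ 2) * (54 * D) * (18 * H) := by gcongr
          _ = _ := by ring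
      apply le_of_sq_le_sq _ (by positivity)
      calc (Real.log M ^ 2 *
            ∑ p ∈ Pb J R u k, ‖nsum (Mb J T X u k) (cI J R) (p • (α + β))‖) ^ 2
          = Real.log M ^ 4 *
            (∑ p ∈ Pb J R u k, ‖nsum (Mb J T X u k) (cI J R) (p • (α + β))‖) ^ 2 := by ring
        _ ≤ Real.log M ^ 4 * (#(Pb J R u k) * SS) := by
            gcongr
            exact sq_sum_le_card_mul_sum_sq
        _ = (#(Pb J R u k) * Real.log M) * (Real.log M ^ 3 * SS) := by ring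
        _ ≤ (18 * u) * (314928 / 18 * (D * H ^ 2 * (q / (q.totient : ℝ) ^ 2))) := by
            gcongr
        _ ≤ (18 * u) * (314928 / 18 * ((μ * u) * H ^ 2 * (q / (q.totient : ℝ) ^ 2))) := by
            gcongr
        _ = 314928 * (H * u) ^ 2 * (μ * q / (q.totient : ℝ) ^ 2) := by ring
        _ ≤ 314928 * (X / K) ^ 2 * w ^ 2 := by gcongr
        _ ≤ 562 ^ 2 * (X / K) ^ 2 * w ^ 2 := by gcongr; norm_num
        _ = _ := by ring
    · have : M = 1 := by omega
      rw [this]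
      simp
      positivity
  have hE : (#(Pb J R u k) : ℝ) * Real.log M *
      ((#(Eb J X u k T) + #(Eb J X u k X)) * Real.log M) ≤
      324 * ((T + X) / K ^ 2 + 4 * R / K) := by
    have e1 := hrough T le_rfl
    have e2 := hrough X hTX
    calc (#(Pb J R u k) : ℝ) * Real.log M * ((#(Eb J X u k T) + #(Eb J X u k X)) * Real.log M)
        ≤ (18 * u) * (18 * (T / (u * K ^ 2) + 2) + 18 * (X / (u * K ^ 2) + 2)) := by
          apply mul_le_mul hcardP _ (by positivity) (by positivity)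
          rw [add_mul]
          exact add_le_add e1 e2
      _ = 324 * ((T + X) / K ^ 2 + 4 * u) := by field_simp; ring
      _ ≤ _ := by
          have : (u : ℝ) ≤ R / K := by
            rw [le_div_iff₀ hK']; exact_mod_cast h1.le
          have e4 : 4 * (R : ℝ) / K = 4 * (R / K) := by ring
          rw [e4]; gcongr
  calc Real.log M ^ 2 * ∑ p ∈ Pb J R u k, ‖nsum (Mset T X p) (cI J R) (p • (α + β))‖
      ≤ Real.log M ^ 2 * ∑ p ∈ Pb J R u k, (‖nsum (Mb J T X u k) (cI J R) (p • (α + β))‖ +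
        (#(Eb J X u k T) + #(Eb J X u k X))) := by
        gcongr with p hp
        exact edge_norm J R T X u k p hp _
    _ = Real.log M ^ 2 * ∑ p ∈ Pb J R u k, ‖nsum (Mb J T X u k) (cI J R) (p • (α + β))‖ +
        #(Pb J R u k) * Real.log M * ((#(Eb J X u k T) + #(Eb J X u k X)) * Real.log M) := by
        rw [sum_add_distrib, sum_const, nsmul_eq_mul]
        ring
    _ ≤ _ := by linarith

/-- Covering the primes by blocks. -/
lemma cover (J R I K : ℕ) (hK : 1 ≤ K) (hKZ : K ≤ 2 ^ (2 ^ J)) (hRI : R ≤ 2 ^ I * K)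
    (F : ℕ → ℝ) (hF : ∀ p, 0 ≤ F p) :
    ∑ p ∈ PR J R, F p ≤ ∑ v ∈ range I, ∑ k ∈ Ico K (2 * K), ∑ p ∈ Pb J R (2 ^ v) k, F p := by
  have h1 : ∀ v k, ∑ p ∈ Pb J R (2 ^ v) k, F p =
      ∑ p ∈ PR J R, if 2 ^ v * k < p ∧ p ≤ 2 ^ v * (k + 1) then F p else 0 := by
    intro v k; unfold Pb; rw [sum_filter]
  simp_rw [h1]
  have h2 : ∑ v ∈ range I, ∑ k ∈ Ico K (2 * K), ∑ p ∈ PR J R,
      (if 2 ^ v * k < p ∧ p ≤ 2 ^ v * (k + 1) then F p else 0) =
      ∑ p ∈ PR J R, ∑ v ∈ range I, ∑ k ∈ Ico K (2 * K),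
      (if 2 ^ v * k < p ∧ p ≤ 2 ^ v * (k + 1) then F p else 0) := by
    rw [sum_comm (s := PR J R)]
    exact sum_congr rfl fun v _ => sum_comm
  rw [h2]
  refine sum_le_sum fun p hp => ?_
  rw [mem_PR] at hp
  obtain ⟨⟨hp1, hp2⟩, -⟩ := hp
  -- find the block
  have hex : ∃ v < I, 2 ^ v * K < p ∧ p ≤ 2 ^ (v + 1) * K := by
    have hlast : ∃ v, p ≤ 2 ^ (v + 1) * K ∧ v < I := by
      rcases Nat.eq_zero_or_pos I with h0 | h0
      · rw [h0] at hRI
        omega
      · refine ⟨I - 1, ?_, by omega⟩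
        have : I - 1 + 1 = I := by omega
        rw [this]; omega
    classical
    set v := Nat.find hlast with hv
    have hv1 := Nat.find_spec hlast
    refine ⟨v, hv1.2, ?_, hv1.1⟩
    rcases Nat.eq_zero_or_pos v with h0 | h0
    · rw [h0]; omega
    · have h3 := Nat.find_min hlast (m := v - 1) (by omega)
      push Not at h3
      have h4 : v - 1 + 1 = v := by omega
      rw [h4] at h3
      by_contra h5
      have := h3 (not_lt.1 h5)
      have := hv1.2
      omega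
  obtain ⟨v, hvI, hv1, hv2⟩ := hex
  have h2v : 0 < 2 ^ v := by positivity
  set k := (p - 1) / 2 ^ v with hk
  have hk1 : 2 ^ v * k ≤ p - 1 := Nat.mul_div_le _ _
  have hk2 : p - 1 < 2 ^ v * (k + 1) := Nat.lt_mul_div_succ _ h2v
  have hk3 : K ≤ k := by
    rw [hk, Nat.le_div_iff_mul_le h2v]
    calc K * 2 ^ v = 2 ^ v * K := by ring
      _ ≤ p - 1 := by omega
  have hk4 : k < 2 * K := by
    rw [hk, Nat.div_lt_iff_lt_mul h2v]
    have : 2 ^ (v + 1) * K = 2 * K * 2 ^ v := by rw [pow_succ]; ring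
    omega
  have hnn : ∀ v' k', 0 ≤ (if 2 ^ v' * k' < p ∧ p ≤ 2 ^ v' * (k' + 1) then F p else 0) := by
    intro v' k'; split_ifs
    · exact hF p
    · exact le_rfl
  calc F p = (if 2 ^ v * k < p ∧ p ≤ 2 ^ v * (k + 1) then F p else 0) := by
        rw [if_pos]; constructor <;> omega
    _ ≤ ∑ k ∈ Ico K (2 * K), (if 2 ^ v * k < p ∧ p ≤ 2 ^ v * (k + 1) then F p else 0) :=
        single_le_sum (f := fun k => (if 2 ^ v * k < p ∧ p ≤ 2 ^ v * (k + 1) then F p else 0))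
          (fun k' _ => hnn v k') (mem_Ico.2 ⟨hk3, hk4⟩)
    _ ≤ _ := single_le_sum
          (f := fun v => ∑ k ∈ Ico K (2 * K), (if 2 ^ v * k < p ∧ p ≤ 2 ^ v * (k + 1) then F p else 0))
          (fun v' _ => sum_nonneg fun k' _ => hnn v' k') (mem_range.2 hvI)

/-- Total bilinear sum, with logarithmic losses. -/
theorem bilin_int (h : BH α β q Y J R T X K μ) (I : ℕ) (hKZ : K ≤ 2 ^ (2 ^ J))
    (hRI : R ≤ 2 ^ I * K) (w : ℝ) (hw0 : 0 ≤ w)
    (hw : 2 * μ / q + 2 * K / (2 : ℝ) ^ (2 ^ J) ≤ w ^ 2) :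
    ∑ p ∈ PR J R, ‖nsum (Mset T X p) (cI J R) (p • (α + β))‖ ≤
      I * (3 * X * w + (T + X) / K + 4 * R) := by
  have hK := h.hK
  have hK' : (0 : ℝ) < K := by exact_mod_cast hK
  refine (cover J R I K hK hKZ hRI _ (fun p => norm_nonneg _)).trans ?_
  have h1 : ∀ v ∈ range I, ∀ k ∈ Ico K (2 * K),
      ∑ p ∈ Pb J R (2 ^ v) k, ‖nsum (Mset T X p) (cI J R) (p • (α + β))‖ ≤
      3 * (X / K) * w + (T + X) / K ^ 2 + 4 * R / K := by
    intro v _ k hk
    rw [mem_Ico] at hk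
    rcases (Pb J R (2 ^ v) k).eq_empty_or_nonempty with h0 | h0
    · rw [h0, sum_empty]; positivity
    · exact block_int h hk.1 hk.2 h0 w hw0 hw
  calc ∑ v ∈ range I, ∑ k ∈ Ico K (2 * K), ∑ p ∈ Pb J R (2 ^ v) k,
        ‖nsum (Mset T X p) (cI J R) (p • (α + β))‖
      ≤ ∑ v ∈ range I, ∑ k ∈ Ico K (2 * K),
        (3 * (X / K) * w + (T + X) / K ^ 2 + 4 * R / K : ℝ) :=
        sum_le_sum fun v hv => sum_le_sum fun k hk => h1 v hv k hk
    _ = I * (K * (3 * (X / K) * w + (T + X) / K ^ 2 + 4 * R / K)) := by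
        simp only [sum_const, Nat.card_Ico, card_range, nsmul_eq_mul]
        have : 2 * K - K = K := by omega
        rw [this]
    _ = _ := by field_simp

/-- Total bilinear sum, without logarithmic losses. -/
theorem bilin_BT (h : BH α β q Y J R T X K μ) (I M : ℕ) (hKZ : K ≤ 2 ^ (2 ^ J))
    (hRI : R ≤ 2 ^ I * K) (hTX : T ≤ X)
    (hM1 : 1 ≤ M) (hMZ : M ≤ 2 ^ (2 ^ J))
    (hMD : (M : ℝ) ^ 2 * q + 1 ≤ μ * (2 : ℝ) ^ (2 ^ J) / (2 * K))
    (hMR : (M ^ 2 + 1) * R ≤ X) (hMT : M ^ 2 * (R * K) ≤ T)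
    (hMs : ((q : ℝ) * M) ^ 2 * (1 / (2 * Y) + 2 * (R * ‖β‖)) < 1)
    (w : ℝ) (hw0 : 0 ≤ w) (hw : μ * q / (q.totient : ℝ) ^ 2 ≤ w ^ 2) :
    Real.log M ^ 2 * ∑ p ∈ PR J R, ‖nsum (Mset T X p) (cI J R) (p • (α + β))‖ ≤
      I * (562 * X * w + 324 * ((T + X) / K + 4 * R)) := by
  have hK := h.hK
  have hK' : (0 : ℝ) < K := by exact_mod_cast hK
  have h1 : ∀ v ∈ range I, ∀ k ∈ Ico K (2 * K),
      Real.log M ^ 2 * ∑ p ∈ Pb J R (2 ^ v) k, ‖nsum (Mset T X p) (cI J R) (p • (α + β))‖ ≤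
      562 * (X / K) * w + 324 * ((T + X) / K ^ 2 + 4 * R / K) := by
    intro v _ k hk
    rw [mem_Ico] at hk
    rcases (Pb J R (2 ^ v) k).eq_empty_or_nonempty with h0 | h0
    · rw [h0, sum_empty, mul_zero]; positivity
    · exact block_BT h hk.1 hk.2 h0 hTX hM1 hMZ hMD hMR hMT hMs w hw0 hw
  calc Real.log M ^ 2 * ∑ p ∈ PR J R, ‖nsum (Mset T X p) (cI J R) (p • (α + β))‖
      ≤ Real.log M ^ 2 * ∑ v ∈ range I, ∑ k ∈ Ico K (2 * K), ∑ p ∈ Pb J R (2 ^ v) k,
        ‖nsum (Mset T X p) (cI J R) (p • (α + β))‖ := by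
        gcongr
        exact cover J R I K hK hKZ hRI _ (fun p => norm_nonneg _)
    _ = ∑ v ∈ range I, ∑ k ∈ Ico K (2 * K), Real.log M ^ 2 * ∑ p ∈ Pb J R (2 ^ v) k,
        ‖nsum (Mset T X p) (cI J R) (p • (α + β))‖ := by
        rw [mul_sum]
        exact sum_congr rfl fun v _ => by rw [mul_sum]
    _ ≤ ∑ v ∈ range I, ∑ k ∈ Ico K (2 * K),
        (562 * (X / K) * w + 324 * ((T + X) / K ^ 2 + 4 * R / K) : ℝ) :=
        sum_le_sum fun v hv => sum_le_sum fun k hk => h1 v hv k hk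
    _ = I * (K * (562 * (X / K) * w + 324 * ((T + X) / K ^ 2 + 4 * R / K))) := by
        simp only [sum_const, Nat.card_Ico, card_range, nsmul_eq_mul]
        have : 2 * K - K = K := by omega
        rw [this]
    _ = _ := by field_simp

end LSieve
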