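import Pool.Agent.LibVinogradov.ErrorBound3
import Pool.Agent.LibLargeSieve.AeLimit

/-!
# Weighted count of `q = p + 2 t` in primes
-/

namespace LSieve

open Finset Filter Topology

/-- Weighted number of solutions of `q = p + 2 t`. -/
noncomputable def Cnt3 (n : ℕ) (P P' : Finset ℕ) (k : ℕ → ℝ) : ℝ :=
  ∑ t ∈ Ioc (2 * n ^ 32) (6 * (2 * n ^ 32)), ∑ p ∈ P, ∑ q ∈ P',
    if q = p + 2 * t then k t * Real.log p * Real.log q else 0

theorem fourier_Cnt3 (n : ℕ) (hn : 0 < n) (P P' : Finset ℕ) (k : ℕ → ℝ)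
    (hP : P ⊆ Ioc (4 * n ^ 32) (2 * (4 * n ^ 32)))
    (hP' : P' ⊆ Ioc (3 * (4 * n ^ 32)) (4 * (4 * n ^ 32))) :
    ((8 * (4 * n ^ 32) : ℕ) : ℂ) * (Cnt3 n P P' k : ℂ) =
      ∑ r ∈ range (8 * (4 * n ^ 32)), FS P (pt (8 * (4 * n ^ 32)) r) *
        (starRingEnd ℂ) (FS P' (pt (8 * (4 * n ^ 32)) r)) *
          nsum (Ioc (2 * n ^ 32) (6 * (2 * n ^ 32))) k (2 • pt (8 * (4 * n ^ 32)) r) := by
  set M0 := 8 * (4 * n ^ 32) with hM0
  have hM0pos : 0 < M0 := by positivity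
  have h1 : ∀ r : ℕ, FS P (pt M0 r) * (starRingEnd ℂ) (FS P' (pt M0 r)) *
      nsum (Ioc (2 * n ^ 32) (6 * (2 * n ^ 32))) k (2 • pt M0 r) =
      ∑ t ∈ Ioc (2 * n ^ 32) (6 * (2 * n ^ 32)), ∑ p ∈ P, ∑ q ∈ P',
        ((k t * Real.log p * Real.log q : ℝ) : ℂ) *
          e (((p : ℤ) - q + 2 * t) • pt M0 r) := by
    intro r
    unfold FS
    rw [nsum_conj]
    unfold nsum
    rw [mul_sum (Ioc (2 * n ^ 32) (6 * (2 * n ^ 32)))]
    refine sum_congr rfl fun t _ => ?_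
    rw [sum_mul_sum, sum_mul]
    refine sum_congr rfl fun p _ => ?_
    rw [sum_mul]
    refine sum_congr rfl fun q _ => ?_
    have h2 : ((p : ℤ) - q + 2 * t) • pt M0 r =
        p • pt M0 r + (-(q • pt M0 r)) + t • (2 • pt M0 r) := by
      rw [add_smul, sub_smul, smul_smul]
      rw [show ((2 : ℤ) * t) = ((t * 2 : ℕ) : ℤ) by push_cast; ring]
      rw [natCast_zsmul, natCast_zsmul, natCast_zsmul]
      abel
    rw [h2, e_add, e_add]
    push_cast
    ring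
  simp_rw [h1]
  unfold Cnt3
  rw [sum_comm (s := range M0), Complex.ofReal_sum, mul_sum]
  refine sum_congr rfl fun t ht => ?_
  rw [sum_comm (s := range M0), Complex.ofReal_sum, mul_sum]
  refine sum_congr rfl fun p hp => ?_
  rw [sum_comm (s := range M0), Complex.ofReal_sum, mul_sum]
  refine sum_congr rfl fun q hq => ?_
  rw [← mul_sum, sum_e_pt M0 hM0pos]
  have hiff : ((M0 : ℤ) ∣ ((p : ℤ) - q + 2 * t)) ↔ q = p + 2 * t := by
    have ht' := mem_Ioc.1 ht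
    have hp' := mem_Ioc.1 (hP hp)
    have hq' := mem_Ioc.1 (hP' hq)
    have hlt : 2 * t ≤ 6 * (4 * n ^ 32) := by omega
    constructor
    · rintro ⟨c, hc⟩
      have hlt' : ((2 * t : ℕ) : ℤ) ≤ 6 * (4 * n ^ 32) := by exact_mod_cast hlt
      push_cast at hlt'
      have hM0' : (M0 : ℤ) = 8 * (4 * (n : ℤ) ^ 32) := by rw [hM0]; push_cast; ring
      have hlt0 : (0 : ℤ) ≤ 2 * t := by positivity
      obtain ⟨hp1, hp2⟩ := hp'
      obtain ⟨hq1, hq2⟩ := hq'
      have hp1' : (4 * (n : ℤ) ^ 32) < p := by exact_mod_cast hp1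
      have hp2' : (p : ℤ) ≤ 2 * (4 * (n : ℤ) ^ 32) := by exact_mod_cast hp2
      have hq1' : 3 * (4 * (n : ℤ) ^ 32) < q := by exact_mod_cast hq1
      have hq2' : (q : ℤ) ≤ 4 * (4 * (n : ℤ) ^ 32) := by exact_mod_cast hq2
      have hc0 : c = 0 := by
        set N : ℤ := 4 * (n : ℤ) ^ 32
        have hN : 0 < N := by positivity
        rw [hM0'] at hc
        rcases lt_trichotomy c 0 with h | h | h
        · exfalso
          have : 8 * N * c ≤ 8 * N * (-1) := by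
            apply mul_le_mul_of_nonneg_left _ (by positivity)
            omega
          linarith
        · exact h
        · exfalso
          have : 8 * N * 1 ≤ 8 * N * c := by
            apply mul_le_mul_of_nonneg_left _ (by positivity)
            omega
          linarith
      rw [hc0, mul_zero] at hc
      have : (q : ℤ) = ((p + 2 * t : ℕ) : ℤ) := by push_cast; linarith
      exact_mod_cast this
    · rintro rfl
      refine ⟨0, ?_⟩
      push_cast; ring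
  by_cases hd : q = p + 2 * t
  · rw [if_pos (hiff.2 hd), if_pos hd]; ring
  · rw [if_neg (fun h => hd (hiff.1 h)), if_neg hd]; simp

/-- The contribution of `kT` is small. -/
theorem Cnt3_kT_small (δ : ℝ) (hδ : 0 < δ) : ∃ w : ℕ, 1 ≤ w ∧ ∀ᶠ n : ℕ in atTop,
    ∀ P P' : Finset ℕ, Good n P → Good n P' →
      P ⊆ Ioc (4 * n ^ 32) (2 * (4 * n ^ 32)) →
      P' ⊆ Ioc (3 * (4 * n ^ 32)) (4 * (4 * n ^ 32)) →
      |Cnt3 n P P' (kT n w.factorial)| ≤ δ * (4 * (n : ℝ) ^ 32) ^ 2 := by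
  obtain ⟨w, hw, h⟩ := error_bound3 (8 * δ) (by positivity)
  refine ⟨w, hw, ?_⟩
  filter_upwards [h, eventually_gt_atTop 0] with n hn hn0 P P' hP hP' hPI hP'I
  have h1 := hn P P' hP hP'
  have h2 := fourier_Cnt3 n hn0 P P' (kT n w.factorial) hPI hP'I
  have h3 : ‖((8 * (4 * n ^ 32) : ℕ) : ℂ) * (Cnt3 n P P' (kT n w.factorial) : ℂ)‖ ≤
      8 * δ * (4 * (n : ℝ) ^ 32) ^ 3 := by
    rw [h2]
    refine (norm_sum_le _ _).trans (le_trans (sum_le_sum fun r _ => ?_) h1)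
    rw [norm_mul, norm_mul, RCLike.norm_conj]
  rw [norm_mul, Complex.norm_natCast, Complex.norm_real, Real.norm_eq_abs] at h3
  have hn0' : (0 : ℝ) < n := by exact_mod_cast hn0
  have h4 : (0 : ℝ) < 8 * (4 * (n : ℝ) ^ 32) := by positivity
  push_cast at h3
  have h5 : 8 * (4 * (n : ℝ) ^ 32) * |Cnt3 n P P' (kT n w.factorial)| ≤
      8 * (4 * (n : ℝ) ^ 32) * (δ * (4 * (n : ℝ) ^ 32) ^ 2) := by
    refine h3.trans (le_of_eq ?_); ring
  exact le_of_mul_le_mul_left h5 h4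

lemma Ae_eq (P P' : Finset ℕ) (e : ℕ) (he : 0 < e) : Ae P P' e =
    ∑ p ∈ P, ∑ q ∈ P', if ((2 * e : ℕ) : ℤ) ∣ (q : ℤ) - p then Real.log p * Real.log q else 0 := by
  classical
  have h2e : 0 < 2 * e := by omega
  have hmaps : ∀ p ∈ P, p % (2 * e) ∈ range (2 * e) := fun p _ => mem_range.2 (Nat.mod_lt _ h2e)
  rw [← sum_fiberwise_of_maps_to hmaps]
  unfold Ae th
  refine sum_congr rfl fun ρ _ => ?_
  rw [sum_mul_sum]
  unfold cls
  refine sum_congr rfl fun p hp => ?_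
  rw [mem_filter] at hp
  rw [sum_filter]
  refine sum_congr rfl fun q _ => ?_
  have h1 : ((2 * e : ℕ) : ℤ) ∣ (q : ℤ) - p ↔ q % (2 * e) = ρ := by
    rw [← hp.2, ← Int.modEq_iff_dvd, Int.natCast_modEq_iff]
    exact eq_comm
  by_cases h : q % (2 * e) = ρ
  · rw [if_pos h, if_pos (h1.2 h)]
  · rw [if_neg h, if_neg (fun h2 => h (h1.1 h2))]

/-- Expansion of the count with the sieve model. -/
lemma Cnt3_ind (n : ℕ) (w : ℕ) (P P' : Finset ℕ)
    (hP : P ⊆ Ioc (4 * n ^ 32) (2 * (4 * n ^ 32)))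
    (hP' : P' ⊆ Ioc (3 * (4 * n ^ 32)) (4 * (4 * n ^ 32))) :
    Cnt3 n P P' (ind w.factorial) =
      ∑ A ∈ (primesTo w).powerset, (-1 : ℝ) ^ #A * Ae P P' (eA A) := by
  classical
  unfold Cnt3
  have hpt : ∀ p ∈ P, ∀ q ∈ P', ∑ t ∈ Ioc (2 * n ^ 32) (6 * (2 * n ^ 32)),
      (if q = p + 2 * t then ind w.factorial t else 0) =
      ∑ A ∈ (primesTo w).powerset, (-1 : ℝ) ^ #A *
        (if ((2 * eA A : ℕ) : ℤ) ∣ (q : ℤ) - p then 1 else 0) := by
    intro p hp q hq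
    have hpI := mem_Ioc.1 (hP hp)
    have hqI := mem_Ioc.1 (hP' hq)
    by_cases hd : 2 ∣ q - p
    · obtain ⟨t0, ht0⟩ := hd
      have hq : q = p + 2 * t0 := by omega
      have hmem : t0 ∈ Ioc (2 * n ^ 32) (6 * (2 * n ^ 32)) := by
        rw [mem_Ioc]
        omega
      rw [sum_eq_single_of_mem t0 hmem]
      · rw [if_pos hq, ind_eq]
        refine sum_congr rfl fun A _ => ?_
        congr 1
        have h1 : (q : ℤ) - p = ((2 * t0 : ℕ) : ℤ) := by rw [hq]; push_cast; ring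
        rw [h1]
        have h2 : ((2 * eA A : ℕ) : ℤ) ∣ ((2 * t0 : ℕ) : ℤ) ↔ eA A ∣ t0 := by
          rw [Int.natCast_dvd_natCast]
          exact Nat.mul_dvd_mul_iff_left (by norm_num)
        by_cases h3 : eA A ∣ t0
        · rw [if_pos h3, if_pos (h2.2 h3)]
        · rw [if_neg h3, if_neg (fun h => h3 (h2.1 h))]
      · intro t _ hne
        rw [if_neg]
        intro h
        apply hne
        omega
    · rw [sum_eq_zero, sum_eq_zero]
      · intro A _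
        rw [if_neg, mul_zero]
        intro h
        apply hd
        have h1 : ((2 : ℕ) : ℤ) ∣ (q : ℤ) - p := by
          refine dvd_trans ?_ h
          exact ⟨eA A, by push_cast; ring⟩
        have h2 : ((q - p : ℕ) : ℤ) = (q : ℤ) - p := by
          rw [Nat.cast_sub (by omega)]
        rw [← h2] at h1
        exact_mod_cast h1
      · intro t _
        rw [if_neg]
        intro h
        apply hd
        exact ⟨t, by omega⟩
  calc ∑ t ∈ Ioc (2 * n ^ 32) (6 * (2 * n ^ 32)), ∑ p ∈ P, ∑ q ∈ P',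
        (if q = p + 2 * t then ind w.factorial t * Real.log p * Real.log q else 0)
      = ∑ p ∈ P, ∑ q ∈ P', (Real.log p * Real.log q) *
          ∑ t ∈ Ioc (2 * n ^ 32) (6 * (2 * n ^ 32)),
            (if q = p + 2 * t then ind w.factorial t else 0) := by
        rw [sum_comm]
        refine sum_congr rfl fun p _ => ?_
        rw [sum_comm]
        refine sum_congr rfl fun q _ => ?_
        rw [mul_sum]
        refine sum_congr rfl fun t _ => ?_
        split_ifs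
        · ring
        · simp
    _ = ∑ p ∈ P, ∑ q ∈ P', (Real.log p * Real.log q) *
          ∑ A ∈ (primesTo w).powerset, (-1 : ℝ) ^ #A *
        (if ((2 * eA A : ℕ) : ℤ) ∣ (q : ℤ) - p then 1 else 0) :=
        sum_congr rfl fun p hp => sum_congr rfl fun q hq => by rw [hpt p hp q hq]
    _ = ∑ p ∈ P, ∑ A ∈ (primesTo w).powerset, ∑ q ∈ P',
                (Real.log p * Real.log q) * ((-1 : ℝ) ^ #A *
                (if ((2 * eA A : ℕ) : ℤ) ∣ (q : ℤ) - p then 1 else 0)) := by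
              refine sum_congr rfl fun p _ => ?_
              rw [sum_comm]
              refine sum_congr rfl fun q _ => ?_
              rw [mul_sum]
    _ = ∑ A ∈ (primesTo w).powerset, ∑ p ∈ P, ∑ q ∈ P',
                (Real.log p * Real.log q) * ((-1 : ℝ) ^ #A *
                (if ((2 * eA A : ℕ) : ℤ) ∣ (q : ℤ) - p then 1 else 0)) := sum_comm
    _ = _ := by
              refine sum_congr rfl fun A hA => ?_
              rw [Ae_eq P P' (eA A) (eA_pos (fun p hp =>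
                (mem_primesTo.1 (mem_powerset.1 hA hp)).2)), mul_sum]
              refine sum_congr rfl fun p _ => ?_
              rw [mul_sum]
              refine sum_congr rfl fun q _ => ?_
              split_ifs
              · ring
              · simp

/-- Lower bound for the main term. -/
theorem main_term3 (d b b' w : ℕ) (hd : d.Prime) (hd2 : d ≠ 2) (hb : b.Coprime d)
    (hb' : b'.Coprime d) (hbb : ¬ b ≡ b' [MOD d]) :
    ∀ᶠ n : ℕ in atTop, 48 / 100 / ((d : ℝ) - 1) ^ 2 * ((4 * n ^ 32 : ℕ) : ℝ) ^ 2 ≤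
      V (primesTo w) * Cnt3 n (PP d b n) (PQ d b' n) (ind w.factorial) := by
  set S := (primesTo w).powerset with hS
  have hSp : ∀ A ∈ S, ∀ p ∈ A, p.Prime := fun A hA p hp =>
    (mem_primesTo.1 (mem_powerset.1 hA hp)).2
  have hV1 : 1 ≤ V (primesTo w) := one_le_V (fun p hp => (mem_primesTo.1 hp).2)
  have hV0 : 0 < V (primesTo w) := by linarith
  have hd1 : (0 : ℝ) < (d : ℝ) - 1 := by
    have : (2 : ℝ) ≤ d := by exact_mod_cast hd.two_le
    linarith
  -- limit of the main sum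
  have hlim : Tendsto (fun n : ℕ => V (primesTo w) * ((∑ A ∈ S, (-1 : ℝ) ^ #A *
      Ae (PP d b n) (PQ d b' n) (eA A)) / ((4 * n ^ 32 : ℕ) : ℝ) ^ 2)) atTop
      (𝓝 (V (primesTo w) * (∑ A ∈ S, (-1 : ℝ) ^ #A * ((∏ p ∈ A, gp d p) /
        ((d : ℝ) - 1) ^ 2)))) := by
    apply Tendsto.const_mul
    have h1 : Tendsto (fun n : ℕ => ∑ A ∈ S, (-1 : ℝ) ^ #A *
      (Ae (PP d b n) (PQ d b' n) (eA A) / ((4 * n ^ 32 : ℕ) : ℝ) ^ 2)) atTop
      (𝓝 (∑ A ∈ S, (-1 : ℝ) ^ #A * ((∏ p ∈ A, gp d p) / ((d : ℝ) - 1) ^ 2))) := by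
      apply tendsto_finsetSum
      intro A hA
      exact (Ae_tendsto d b b' hd hd2 hb hb' hbb A (hSp A hA)).const_mul _
    refine h1.congr fun n => ?_
    rw [sum_div]
    refine sum_congr rfl fun A _ => ?_
    ring
  have hval : 1 / 2 / ((d : ℝ) - 1) ^ 2 ≤ V (primesTo w) * (∑ A ∈ S, (-1 : ℝ) ^ #A *
      ((∏ p ∈ A, gp d p) / ((d : ℝ) - 1) ^ 2)) := by
    have h1 := singular_ge d w hd2
    have h2 : V (primesTo w) * (∑ A ∈ S, (-1 : ℝ) ^ #A *
      ((∏ p ∈ A, gp d p) / ((d : ℝ) - 1) ^ 2)) =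
      (V (primesTo w) * ∑ A ∈ S, (-1 : ℝ) ^ #A * ∏ p ∈ A, gp d p) / ((d : ℝ) - 1) ^ 2 := by
      rw [mul_div_assoc, sum_div]
      congr 1
      refine sum_congr rfl fun A _ => ?_
      ring
    rw [h2]
    gcongr
  have hev1 := hlim.eventually_const_le (show 48 / 100 / ((d : ℝ) - 1) ^ 2 < _ from
    lt_of_lt_of_le (div_lt_div_of_pos_right (by norm_num) (by positivity)) hval)
  filter_upwards [hev1, eventually_ge_atTop 2] with n h1 hn
  rw [Cnt3_ind n w (PP d b n) (PQ d b' n) (filter_subset _ _) (filter_subset _ _)]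
  have hN0 : (0 : ℝ) < ((4 * n ^ 32 : ℕ) : ℝ) := by positivity
  rw [← mul_div_assoc, le_div_iff₀ (by positivity)] at h1
  exact h1

lemma Cnt3_kT_eq (n W : ℕ) (P Q : Finset ℕ) :
    Cnt3 n P Q (kT n W) = Real.log ((2 * n ^ 32 : ℕ) : ℝ) * Cnt3 n P Q vI -
      ((W : ℝ) / W.totient) * Cnt3 n P Q (ind W) := by
  unfold Cnt3
  simp_rw [mul_sum, ← sum_sub_distrib]
  refine sum_congr rfl fun t _ => sum_congr rfl fun p _ =>
    sum_congr rfl fun q _ => ?_
  unfold kT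
  split_ifs <;> ring

/-- **Ternary theorem.** -/
theorem Cnt3_ge (d b b' : ℕ) (hd : d.Prime) (hd2 : d ≠ 2) (hb : b.Coprime d)
    (hb' : b'.Coprime d) (hbb : ¬ b ≡ b' [MOD d]) :
    ∀ᶠ n : ℕ in atTop, 1 / (3 * ((d : ℝ) - 1) ^ 2) * ((4 * n ^ 32 : ℕ) : ℝ) ^ 2 ≤
      Real.log ((2 * n ^ 32 : ℕ) : ℝ) * Cnt3 n (PP d b n) (PQ d b' n) vI := by
  have hd1 : (0 : ℝ) < (d : ℝ) - 1 := by
    have : (2 : ℝ) ≤ d := by exact_mod_cast hd.two_le
    linarith
  obtain ⟨w, hw, h1⟩ := Cnt3_kT_small (1 / (10 * ((d : ℝ) - 1) ^ 2)) (by positivity)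
  filter_upwards [h1, main_term3 d b b' w hd hd2 hb hb' hbb, eventually_ge_atTop 1] with n h2 h3 hn
  have h4 := h2 (PP d b n) (PQ d b' n) (good_PP d b n hn) (good_PQ d b' n hn) (filter_subset _ _)
    (filter_subset _ _)
  have h5 := Cnt3_kT_eq n w.factorial (PP d b n) (PQ d b' n)
  rw [factorial_ratio w] at h5
  have h6 := (abs_le.1 h4).1
  have h7 : 48 / 100 / ((d : ℝ) - 1) ^ 2 * ((4 * n ^ 32 : ℕ) : ℝ) ^ 2 =
      (48 / 100) * (((4 * n ^ 32 : ℕ) : ℝ) ^ 2 / ((d : ℝ) - 1) ^ 2) := by ring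
  have h8 : 1 / (3 * ((d : ℝ) - 1) ^ 2) * ((4 * n ^ 32 : ℕ) : ℝ) ^ 2 =
      (1 / 3) * (((4 * n ^ 32 : ℕ) : ℝ) ^ 2 / ((d : ℝ) - 1) ^ 2) := by
    field_simp
  have h9 : 1 / (10 * ((d : ℝ) - 1) ^ 2) * (4 * (n : ℝ) ^ 32) ^ 2 =
      (1 / 10) * (((4 * n ^ 32 : ℕ) : ℝ) ^ 2 / ((d : ℝ) - 1) ^ 2) := by
    push_cast
    field_simp
  rw [h7] at h3
  rw [h9] at h6
  rw [h8]
  have h10 : 0 ≤ ((4 * n ^ 32 : ℕ) : ℝ) ^ 2 / ((d : ℝ) - 1) ^ 2 := by positivity
  linarith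

end LSieve
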