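import Pool.Agent.LibVinogradov.Level

/-!
# Rough numbers: upper bound for their number, and the decomposition of primes
-/

namespace LSieve

open Finset

/-- Sieve upper bound for integers in an interval without small prime factors. -/
theorem rough_count (P : Finset ℕ) (M A H : ℕ) (hMH : M ^ 2 < H) (hP : P ⊆ Ico A (A + H))
    (hr : ∀ n ∈ P, ∀ p : ℕ, p.Prime → p ≤ M → ¬ p ∣ n) :
    #P * Real.log M ≤ 18 * H := by
  have hH : 0 < H := by omega
  have h1 := sifted_large_sieve_nat ({()} : Finset Unit) (fun _ => 0) (fun _ => 0) H 1 M 1 0 ∅ hH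
    (fun _ _ => by simp) (fun _ _ => by simp) (fun _ _ p hp hpd => by
      simp only [addOrderOf_zero] at hpd
      exact absurd (Nat.dvd_one.1 hpd) hp.one_lt.ne')
    (fun _ _ => by simp) (by
      have h2 : ((M : ℝ)) ^ 2 < H := by exact_mod_cast hMH
      have h3 : (0 : ℝ) < H := by exact_mod_cast hH
      push_cast
      rw [one_mul, mul_zero, add_zero, mul_one_div, div_lt_one h3]
      exact h2)
    (fun _ _ => by
      refine (card_le_card (filter_subset _ _)).trans ?_
      simp)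
    A P hP (fun _ => 1) (by
      intro p hp hpM _
      refine ⟨0, fun n hn h0 => ?_⟩
      have h2 : (p : ℤ) ∣ n := Int.modEq_zero_iff_dvd.1 h0
      exact hr n hn p hp hpM (by exact_mod_cast h2))
  have h2 : ∑ i ∈ ({()} : Finset Unit), ‖nsum P (fun _ => 1) ((0 : UnitAddCircle) + 0)‖ ^ 2 =
      (#P : ℝ) ^ 2 := by
    rw [sum_singleton]
    unfold nsum
    simp
  rw [h2] at h1
  have h3 : ∑ n ∈ P, (fun _ : ℕ => (1 : ℝ)) n ^ 2 = #P := by simp
  rw [h3] at h1
  have h4 := log_le_G ∅ M (by simp)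
  have h5 : V ∅ = 1 := by simp [V]
  rw [h5, mul_one] at h4
  rcases P.eq_empty_or_nonempty with rfl | hne
  · simp
  · have hc : (0 : ℝ) < #P := by exact_mod_cast card_pos.2 hne
    have h6 : G ∅ M * #P ≤ 9 * H := by
      have : G ∅ M * #P * #P ≤ 9 * H * #P := by
        push_cast at h1
        nlinarith
      exact le_of_mul_le_mul_right this hc
    calc (#P : ℝ) * Real.log M ≤ #P * (2 * G ∅ M) := by gcongr
      _ = 2 * (G ∅ M * #P) := by ring
      _ ≤ 2 * (9 * H) := by gcongr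
      _ = _ := by ring

/-- Primes in `(2^(2^J), R]`. -/
def PR (J R : ℕ) : Finset ℕ := {p ∈ Ioc (2 ^ (2 ^ J)) R | p.Prime}

lemma mem_PR {J R p : ℕ} : p ∈ PR J R ↔ (2 ^ (2 ^ J) < p ∧ p ≤ R) ∧ p.Prime := by
  unfold PR; rw [mem_filter, mem_Ioc]

/-- Number of prime divisors in `PR J R`. -/
def kk (J R n : ℕ) : ℕ := #{p ∈ PR J R | p ∣ n}

/-- Coefficients of the bilinear form. -/
noncomputable def cI (J R m : ℕ) : ℝ := roughI J m / (1 + kk J R m)

lemma cI_nonneg (J R m : ℕ) : 0 ≤ cI J R m := by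
  unfold cI; exact div_nonneg (roughI_nonneg _ _) (by positivity)

lemma cI_le_one (J R m : ℕ) : cI J R m ≤ 1 := by
  unfold cI
  rw [div_le_one (by positivity)]
  have := roughI_le_one J m
  have : (0 : ℝ) ≤ kk J R m := Nat.cast_nonneg _
  linarith

/-- Indicator of the primes. -/
noncomputable def vI (n : ℕ) : ℝ := if n.Prime then 1 else 0

lemma roughI_mul (J R p m : ℕ) (hp : p ∈ PR J R) : roughI J (p * m) = roughI J m := by
  rw [mem_PR] at hp
  rw [roughI_eq, roughI_eq]
  have : (∀ q ∈ PJ J, ¬ q ∣ p * m) ↔ ∀ q ∈ PJ J, ¬ q ∣ m := by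
    refine forall₂_congr fun q hq => ?_
    rw [mem_PJ] at hq
    rw [hq.2.dvd_mul, Nat.prime_dvd_prime_iff_eq hq.2 hp.2]
    constructor
    · intro h h1; exact h (Or.inr h1)
    · rintro h (h1 | h1)
      · omega
      · exact h h1
  simp only [this]

lemma kk_mul (J R p m : ℕ) (hp : p ∈ PR J R) (hpm : ¬ p ∣ m) : kk J R (p * m) = kk J R m + 1 := by
  unfold kk
  have : {q ∈ PR J R | q ∣ p * m} = insert p {q ∈ PR J R | q ∣ m} := by
    ext q
    rw [mem_filter, mem_insert, mem_filter]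
    constructor
    · rintro ⟨hq, hd⟩
      rw [(mem_PR.1 hq).2.dvd_mul] at hd
      rcases hd with h | h
      · left; exact (Nat.prime_dvd_prime_iff_eq (mem_PR.1 hq).2 (mem_PR.1 hp).2).1 h
      · right; exact ⟨hq, h⟩
    · rintro (rfl | ⟨hq, h⟩)
      · exact ⟨hp, dvd_mul_right _ _⟩
      · exact ⟨hq, h.mul_left _⟩
  rw [this, card_insert_of_notMem]
  rw [mem_filter]
  rintro ⟨_, h⟩
  exact hpm h

lemma kk_pos (J R p m : ℕ) (hp : p ∈ PR J R) : 1 ≤ kk J R (p * m) := by
  unfold kk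
  exact card_pos.2 ⟨p, mem_filter.2 ⟨hp, dvd_mul_right _ _⟩⟩

lemma coeff_diff (J R p m : ℕ) (hp : p ∈ PR J R) :
    |roughI J (p * m) / kk J R (p * m) - cI J R m| ≤ if p ∣ m then 1 else 0 := by
  split_ifs with h
  · have h1 : 0 ≤ roughI J (p * m) / kk J R (p * m) := div_nonneg (roughI_nonneg _ _)
      (Nat.cast_nonneg _)
    have h2 : roughI J (p * m) / kk J R (p * m) ≤ 1 := by
      have := kk_pos J R p m hp
      rw [div_le_one (by positivity)]
      have : (1 : ℝ) ≤ kk J R (p * m) := by exact_mod_cast this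
      linarith [roughI_le_one J (p * m)]
    have h3 := cI_nonneg J R m
    have h4 := cI_le_one J R m
    rw [abs_le]; constructor <;> linarith
  · rw [kk_mul J R p m hp h, roughI_mul J R p m hp]
    unfold cI
    push_cast
    rw [add_comm (kk J R m : ℝ) 1, sub_self, abs_zero]

/-- Pointwise decomposition of the primes. -/
lemma decomp_point (J R n : ℕ) (hR : 2 ^ (2 ^ J) ≤ R) (hn : R < n) (hn2 : n < (R + 1) ^ 2) :
    roughI J n = vI n + ∑ p ∈ PR J R, if p ∣ n then roughI J n / kk J R n else 0 := by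
  rw [← sum_filter, sum_const, nsmul_eq_mul]
  change roughI J n = vI n + (kk J R n : ℝ) * (roughI J n / kk J R n)
  by_cases hp : n.Prime
  · have h1 : roughI J n = 1 := by
      rw [roughI_eq, if_pos]
      intro p hpJ hpn
      rw [mem_PJ] at hpJ
      have := (Nat.prime_dvd_prime_iff_eq hpJ.2 hp).1 hpn
      omega
    have h2 : kk J R n = 0 := by
      unfold kk
      rw [card_eq_zero, filter_eq_empty_iff]
      intro p hpR hpn
      rw [mem_PR] at hpR
      have := (Nat.prime_dvd_prime_iff_eq hpR.2 hp).1 hpn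
      omega
    rw [h1, h2]
    unfold vI
    rw [if_pos hp]
    simp
  · unfold vI
    rw [if_neg hp, zero_add]
    by_cases hr : ∀ p ∈ PJ J, ¬ p ∣ n
    · have h2 : kk J R n ≠ 0 := by
        unfold kk
        apply Finset.card_ne_zero_of_mem (a := n.minFac)
        have hn1 : n ≠ 1 := by
          have : 1 ≤ R := le_trans Nat.one_le_two_pow hR
          omega
        have hmp := Nat.minFac_prime hn1
        have hmd := Nat.minFac_dvd n
        rw [mem_filter, mem_PR]
        refine ⟨⟨⟨?_, ?_⟩, hmp⟩, hmd⟩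
        · by_contra h
          exact hr _ (mem_PJ.2 ⟨not_lt.1 h, hmp⟩) hmd
        · have h3 : n.minFac ^ 2 ≤ n := Nat.minFac_sq_le_self (by omega) hp
          have h4 : n.minFac ^ 2 < (R + 1) ^ 2 := lt_of_le_of_lt h3 hn2
          have := lt_of_pow_lt_pow_left₀ 2 (by omega) h4
          omega
      have h2' : (kk J R n : ℝ) ≠ 0 := by exact_mod_cast h2
      field_simp
    · rw [roughI_eq, if_neg hr]; simp

/-- The `m` with `T < p m ≤ X`. -/
def Mset (T X p : ℕ) : Finset ℕ := {m ∈ Ioc 0 X | T < p * m ∧ p * m ≤ X}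

theorem decomp (J R T X : ℕ) (hR : 2 ^ (2 ^ J) ≤ R) (hRT : R ≤ T) (hX : X < (R + 1) ^ 2)
    (θ : UnitAddCircle) :
    ‖nsum (Ioc T X) vI θ‖ ≤ ‖nsum (Ioc T X) (roughI J) θ‖ +
      ∑ p ∈ PR J R, ‖nsum (Mset T X p) (cI J R) (p • θ)‖ + X / (2 : ℝ) ^ (2 ^ J) := by
  classical
  -- expansion
  have h1 : nsum (Ioc T X) (roughI J) θ = nsum (Ioc T X) vI θ +
      ∑ p ∈ PR J R, ∑ m ∈ Mset T X p,
        ((roughI J (p * m) / kk J R (p * m) : ℝ) : ℂ) * e (m • (p • θ)) := by
    have h2 : nsum (Ioc T X) (roughI J) θ = ∑ n ∈ Ioc T X, ((vI n : ℂ) * e (n • θ) +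
        ∑ p ∈ PR J R, if p ∣ n then ((roughI J n / kk J R n : ℝ) : ℂ) * e (n • θ) else 0) := by
      unfold nsum
      refine sum_congr rfl fun n hn => ?_
      rw [mem_Ioc] at hn
      have := decomp_point J R n hR (by omega) (by omega)
      conv_lhs => rw [this]
      rw [Complex.ofReal_add, add_mul, Complex.ofReal_sum, sum_mul]
      congr 1
      refine sum_congr rfl fun p _ => ?_
      split_ifs <;> simp
    rw [h2, sum_add_distrib, sum_comm]
    congr 1
    refine sum_congr rfl fun p hp => ?_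
    have hp0 : 0 < p := (mem_PR.1 hp).2.pos
    rw [← sum_filter]
    symm
    refine sum_nbij' (fun m => p * m) (fun n => n / p) ?_ ?_ ?_ ?_ ?_
    · intro m hm
      unfold Mset at hm
      rw [mem_filter, mem_Ioc] at hm
      rw [mem_filter, mem_Ioc]
      exact ⟨⟨hm.2.1, hm.2.2⟩, dvd_mul_right _ _⟩
    · intro n hn
      rw [mem_filter, mem_Ioc] at hn
      obtain ⟨⟨hn1, hn2⟩, k, rfl⟩ := hn
      unfold Mset
      rw [Nat.mul_div_cancel_left _ hp0, mem_filter, mem_Ioc]
      refine ⟨⟨?_, ?_⟩, hn1, hn2⟩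
      · rcases Nat.eq_zero_or_pos k with h | h
        · rw [h, mul_zero] at hn1; omega
        · exact h
      · exact le_trans (Nat.le_mul_of_pos_left _ hp0) hn2
    · intro m _; exact Nat.mul_div_cancel_left _ hp0
    · intro n hn
      rw [mem_filter] at hn
      exact Nat.mul_div_cancel' hn.2
    · intro m _
      rw [← mul_smul, mul_comm m p]
  -- compare coefficients
  have h3 : ∑ p ∈ PR J R, ∑ m ∈ Mset T X p,
        ((roughI J (p * m) / kk J R (p * m) : ℝ) : ℂ) * e (m • (p • θ)) =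
      ∑ p ∈ PR J R, nsum (Mset T X p) (cI J R) (p • θ) +
      ∑ p ∈ PR J R, ∑ m ∈ Mset T X p,
        ((roughI J (p * m) / kk J R (p * m) - cI J R m : ℝ) : ℂ) * e (m • (p • θ)) := by
    rw [← sum_add_distrib]
    refine sum_congr rfl fun p _ => ?_
    unfold nsum
    rw [← sum_add_distrib]
    refine sum_congr rfl fun m _ => ?_
    push_cast
    ring
  have h4 : ‖∑ p ∈ PR J R, ∑ m ∈ Mset T X p,
        ((roughI J (p * m) / kk J R (p * m) - cI J R m : ℝ) : ℂ) * e (m • (p • θ))‖ ≤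
      X / (2 : ℝ) ^ (2 ^ J) := by
    calc ‖∑ p ∈ PR J R, ∑ m ∈ Mset T X p,
        ((roughI J (p * m) / kk J R (p * m) - cI J R m : ℝ) : ℂ) * e (m • (p • θ))‖
        ≤ ∑ p ∈ PR J R, ∑ m ∈ Mset T X p, (if p ∣ m then (1 : ℝ) else 0) := by
          refine (norm_sum_le _ _).trans (sum_le_sum fun p hp => ?_)
          refine (norm_sum_le _ _).trans (sum_le_sum fun m _ => ?_)
          rw [norm_mul, norm_e, mul_one, Complex.norm_real, Real.norm_eq_abs]
          exact coeff_diff J R p m hp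
      _ ≤ ∑ p ∈ PR J R, (X : ℝ) * ((p : ℝ) ^ 2)⁻¹ := by
          refine sum_le_sum fun p hp => ?_
          have hp0 : 0 < p := (mem_PR.1 hp).2.pos
          have hp0' : (0 : ℝ) < p := by exact_mod_cast hp0
          rw [sum_boole]
          have h5 : #{m ∈ Mset T X p | p ∣ m} ≤ X / p ^ 2 := by
            rw [← Nat.Ioc_filter_dvd_card_eq_div X (p ^ 2)]
            refine card_le_card_of_injOn (fun m => p * m) ?_ ?_
            · intro m hm
              rw [mem_coe, mem_filter] at hm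
              obtain ⟨hm1, k, rfl⟩ := hm
              unfold Mset at hm1
              rw [mem_filter, mem_Ioc] at hm1
              rw [mem_coe, mem_filter, mem_Ioc]
              refine ⟨⟨lt_of_le_of_lt (Nat.zero_le _) hm1.2.1, hm1.2.2⟩, ?_⟩
              exact ⟨k, by ring⟩
            · intro a _ b _ hab
              exact Nat.eq_of_mul_eq_mul_left hp0 hab
          calc ((#{m ∈ Mset T X p | p ∣ m} : ℕ) : ℝ) ≤ ((X / p ^ 2 : ℕ) : ℝ) := by exact_mod_cast h5
            _ ≤ (X : ℝ) / ((p ^ 2 : ℕ) : ℝ) := Nat.cast_div_le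
            _ = _ := by push_cast; rw [div_eq_mul_inv]
      _ = X * ∑ p ∈ PR J R, ((p : ℝ) ^ 2)⁻¹ := by rw [mul_sum]
      _ ≤ X * ((2 : ℝ) ^ (2 ^ J))⁻¹ := by
          apply mul_le_mul_of_nonneg_left _ (Nat.cast_nonneg _)
          have h5 := sum_Ioc_inv_sq_le_sub (α := ℝ) (k := 2 ^ (2 ^ J)) (n := R) (by positivity) hR
          calc ∑ p ∈ PR J R, ((p : ℝ) ^ 2)⁻¹ ≤ ∑ p ∈ Ioc (2 ^ (2 ^ J)) R, ((p : ℝ) ^ 2)⁻¹ :=
                sum_le_sum_of_subset_of_nonneg (filter_subset _ _) fun p _ _ => by positivity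
            _ ≤ _ := h5
            _ ≤ _ := by
                push_cast
                have : (0 : ℝ) ≤ (R : ℝ)⁻¹ := by positivity
                linarith
      _ = _ := by rw [div_eq_mul_inv]
  have h5 : nsum (Ioc T X) vI θ = nsum (Ioc T X) (roughI J) θ -
      ∑ p ∈ PR J R, nsum (Mset T X p) (cI J R) (p • θ) -
      ∑ p ∈ PR J R, ∑ m ∈ Mset T X p,
        ((roughI J (p * m) / kk J R (p * m) - cI J R m : ℝ) : ℂ) * e (m • (p • θ)) := by
    rw [h1, h3]; ring
  rw [h5]
  refine (norm_sub_le _ _).trans (add_le_add ((norm_sub_le _ _).trans ?_) h4)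
  gcongr
  exact norm_sum_le _ _

end LSieve
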