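import Pool.Agent.LibVinogradov.Weights

/-!
# Densities of the Brun-Hooley weights
-/

namespace LSieve

open Finset

lemma V_PJ_succ (j : ℕ) : V (PJ (j + 1)) = V (PJ j) * V (Bk j) := by
  unfold V
  rw [PJ_succ, prod_union (PJ_disj j)]

lemma V_chain (i k : ℕ) (hi : 1 ≤ i) :
    V (primesTo (2 ^ (i + k))) ≤ Real.exp (4 * k / i) * V (primesTo (2 ^ i)) := by
  have hi' : (0 : ℝ) < i := by exact_mod_cast hi
  induction k with
  | zero => simp
  | succ k ih =>
    have h1 := V_double (i + k) (by omega)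
    have h2 : Real.exp (4 / ((i + k : ℕ) : ℝ)) ≤ Real.exp (4 / i) := by
      apply Real.exp_le_exp.2
      apply div_le_div_of_nonneg_left (by norm_num) hi'
      push_cast
      have : (0 : ℝ) ≤ k := Nat.cast_nonneg k
      linarith
    have h3 : 0 ≤ V (primesTo (2 ^ (i + k))) := (V_pos (fun p hp => (mem_primesTo.1 hp).2)).le
    have h4 : 0 ≤ V (primesTo (2 ^ i)) := (V_pos (fun p hp => (mem_primesTo.1 hp).2)).le
    calc V (primesTo (2 ^ (i + (k + 1)))) ≤ _ := h1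
      _ ≤ Real.exp (4 / i) * (Real.exp (4 * k / i) * V (primesTo (2 ^ i))) := by
          apply mul_le_mul h2 ih h3 (Real.exp_pos _).le
      _ = _ := by
          rw [← mul_assoc, ← Real.exp_add]
          congr 2
          push_cast
          ring

lemma V_Bk_le (j : ℕ) : V (Bk j) ≤ Real.exp 4 := by
  have h1 := V_chain (2 ^ j) (2 ^ j) Nat.one_le_two_pow
  have h2 : 2 ^ j + 2 ^ j = 2 ^ (j + 1) := by rw [pow_succ]; ring
  rw [h2] at h1
  have h3 : (4 : ℝ) * ((2 ^ j : ℕ) : ℝ) / ((2 ^ j : ℕ) : ℝ) = 4 := by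
    have : (((2 ^ j : ℕ) : ℝ)) ≠ 0 := by positivity
    field_simp
  rw [h3] at h1
  have h4 := V_PJ_succ j
  have h5 : 0 < V (PJ j) := V_pos (fun p hp => PJ_prime hp)
  have h6 : V (PJ j) * V (Bk j) ≤ V (PJ j) * Real.exp 4 := by
    rw [← h4, mul_comm (V (PJ j))]; exact h1
  exact le_of_mul_le_mul_left h6 h5

lemma V_inv (B : Finset ℕ) (hB : ∀ p ∈ B, p.Prime) :
    ∏ p ∈ B, (1 - (p : ℝ)⁻¹) = (V B)⁻¹ := by
  unfold V
  rw [← prod_inv_distrib]
  refine prod_congr rfl fun p hp => ?_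
  have hp2 : (2 : ℝ) ≤ p := by exact_mod_cast (hB p hp).two_le
  have : (p : ℝ) - 1 ≠ 0 := by linarith
  have : (p : ℝ) ≠ 0 := by linarith
  field_simp

lemma prod_one_add_le (B : Finset ℕ) (hB : ∀ p ∈ B, p.Prime) :
    ∏ p ∈ B, (1 + (p : ℝ)⁻¹) ≤ V B := by
  unfold V
  refine prod_le_prod (fun p _ => by positivity) fun p hp => ?_
  have hp2 : (2 : ℝ) ≤ p := by exact_mod_cast (hB p hp).two_le
  have h1 : (0 : ℝ) < (p : ℝ) - 1 := by linarith
  have h2 : (0 : ℝ) < (p : ℝ) := by linarith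
  rw [le_div_iff₀ h1]
  have : (1 + (p : ℝ)⁻¹) * ((p : ℝ) - 1) = p - (p : ℝ)⁻¹ := by field_simp; ring
  rw [this]
  have : 0 < (p : ℝ)⁻¹ := by positivity
  linarith

lemma prod_16_le (j : ℕ) : ∏ p ∈ Bk j, (1 + 16 * (p : ℝ)⁻¹) ≤ Real.exp 64 := by
  have h1 : ∏ p ∈ Bk j, (1 + 16 * (p : ℝ)⁻¹) ≤ ∏ p ∈ Bk j, (1 + (p : ℝ)⁻¹) ^ 16 := by
    refine prod_le_prod (fun p _ => by positivity) fun p _ => ?_
    have := one_add_mul_le_pow (a := (p : ℝ)⁻¹) (by
      have : (0 : ℝ) ≤ (p : ℝ)⁻¹ := by positivity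
      linarith) 16
    push_cast at this
    exact this
  rw [prod_pow] at h1
  refine h1.trans ?_
  have h2 := (prod_one_add_le (Bk j) (fun p hp => Bk_prime hp)).trans (V_Bk_le j)
  calc (∏ p ∈ Bk j, (1 + (p : ℝ)⁻¹)) ^ 16 ≤ (Real.exp 4) ^ 16 :=
        pow_le_pow_left₀ (prod_nonneg fun p _ => by positivity) h2 16
    _ = Real.exp 64 := by rw [← Real.exp_nat_mul]; norm_num

/-- The reciprocal function. -/
noncomputable def xi (p : ℕ) : ℝ := (p : ℝ)⁻¹

lemma xi_nonneg (p : ℕ) : 0 ≤ xi p := by unfold xi; positivity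

lemma V_Bk_pos (j : ℕ) : 0 < V (Bk j) := V_pos (fun p hp => Bk_prime hp)

lemma exp_mul_Vinv (j : ℕ) : 1 ≤ Real.exp 4 * (V (Bk j))⁻¹ := by
  rw [← div_eq_mul_inv, le_div_iff₀ (V_Bk_pos j), one_mul]
  exact V_Bk_le j

lemma TB_ce_le (j m : ℕ) :
    TB (ce m) (Bk j) xi 1 ≤ (V (Bk j))⁻¹ * (Real.exp 68 * (16 ^ m)⁻¹) := by
  have h1 := TB_rankin (Bk j) xi (fun p _ => xi_nonneg p) m 16 (by norm_num)
  have h2 := prod_16_le j
  have h3 := exp_mul_Vinv j
  have h4 : (0 : ℝ) < (16 ^ m)⁻¹ := by positivity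
  calc TB (ce m) (Bk j) xi 1 ≤ (16 ^ m)⁻¹ * ∏ p ∈ Bk j, (1 + 16 * xi p) := h1
    _ ≤ (16 ^ m)⁻¹ * Real.exp 64 := mul_le_mul_of_nonneg_left h2 h4.le
    _ ≤ (16 ^ m)⁻¹ * Real.exp 64 * (Real.exp 4 * (V (Bk j))⁻¹) :=
        le_mul_of_one_le_right (by positivity) h3
    _ = _ := by
        rw [show (68 : ℝ) = 64 + 4 by norm_num, Real.exp_add]; ring

lemma TB_cs_ge (j m : ℕ) (hm : Even m) : (V (Bk j))⁻¹ ≤ TB (cs m) (Bk j) xi 1 := by
  have h1 := (bonferroni (Bk j) xi (fun p _ => xi_nonneg p) (fun p hp => by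
    unfold xi
    have : (1 : ℝ) ≤ p := by exact_mod_cast (Bk_prime hp).one_le
    exact inv_le_one_of_one_le₀ this) m).1
  rw [hm.neg_one_pow, one_mul] at h1
  have h2 := V_inv (Bk j) (fun p hp => Bk_prime hp)
  unfold xi at h1 ⊢
  rw [h2] at h1
  linarith

lemma TB_cs_nonneg (j m : ℕ) (hm : Even m) : 0 ≤ TB (cs m) (Bk j) xi 1 :=
  (inv_pos.2 (V_Bk_pos j)).le.trans (TB_cs_ge j m hm)

lemma TB_cs_le (j m : ℕ) (hm : Even m) :
    TB (cs m) (Bk j) xi 1 ≤ (V (Bk j))⁻¹ * (1 + Real.exp 68 * (16 ^ (m + 1))⁻¹) := by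
  have h1 := (bonferroni (Bk j) xi (fun p _ => xi_nonneg p) (fun p hp => by
    unfold xi
    have : (1 : ℝ) ≤ p := by exact_mod_cast (Bk_prime hp).one_le
    exact inv_le_one_of_one_le₀ this) m).2
  rw [hm.neg_one_pow, one_mul] at h1
  have h2 := V_inv (Bk j) (fun p hp => Bk_prime hp)
  have h3 := TB_ce_le j (m + 1)
  have h4 : ∏ p ∈ Bk j, (1 - xi p) = (V (Bk j))⁻¹ := h2
  rw [h4] at h1
  linarith

/-- Truncation levels. -/
def mlev (b J j : ℕ) : ℕ := 2 * (b + (J - 1 - j))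

lemma mlev_even (b J j : ℕ) : Even (mlev b J j) := even_two_mul _

/-- The upper bound weights. -/
noncomputable def lam (b J : ℕ) (A : Finset ℕ) : ℝ := lamc (fun j => cs (mlev b J j)) J A

/-- The weights of the error function. -/
noncomputable def lamE (b J i : ℕ) (A : Finset ℕ) : ℝ :=
  lamc (fun j => if j = i then ce (mlev b J j + 1) else cs (mlev b J j)) J A

/-- Relative errors. -/
noncomputable def eps (b J j : ℕ) : ℝ := Real.exp 68 * (16 ^ (mlev b J j + 1))⁻¹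

lemma eps_nonneg (b J j : ℕ) : 0 ≤ eps b J j := by unfold eps; positivity

lemma sum_eps (b J : ℕ) : ∑ j ∈ range J, eps b J j ≤ Real.exp 68 * (256 ^ b)⁻¹ := by
  unfold eps
  rw [← mul_sum]
  apply mul_le_mul_of_nonneg_left _ (Real.exp_pos _).le
  have h1 : ∑ j ∈ range J, ((16 : ℝ) ^ (mlev b J j + 1))⁻¹ =
      ∑ j ∈ range J, (256 ^ b)⁻¹ * (1 / 16 * (1 / 256 : ℝ) ^ j) := by
    rw [← sum_range_reflect]
    refine sum_congr rfl fun j hj => ?_
    rw [mem_range] at hj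
    unfold mlev
    have : J - 1 - (J - 1 - j) = j := by omega
    rw [this, pow_succ, pow_mul, pow_add]
    norm_num
    rw [one_div (256 : ℝ), inv_pow]
    ring
  rw [h1, ← mul_sum, ← mul_sum]
  have h2 : ∑ j ∈ range J, (1 / 256 : ℝ) ^ j ≤ 256 / 255 := by
    have := geom_sum_Ico_le_of_lt_one (x := (1 / 256 : ℝ)) (m := 0) (n := J) (by norm_num)
      (by norm_num)
    rw [← range_eq_Ico] at this
    refine this.trans (by norm_num)
  calc ((256 : ℝ) ^ b)⁻¹ * (1 / 16 * ∑ j ∈ range J, (1 / 256 : ℝ) ^ j)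
      ≤ (256 ^ b)⁻¹ * (1 / 16 * (256 / 255)) := by gcongr
    _ ≤ (256 ^ b)⁻¹ * 1 := by gcongr; norm_num
    _ = _ := mul_one _

/-- The constant `exp (exp 68)`. -/
noncomputable def Kd : ℝ := Real.exp (Real.exp 68)

lemma prod_eps (b J : ℕ) : ∏ j ∈ range J, (1 + eps b J j) ≤ Kd := by
  calc ∏ j ∈ range J, (1 + eps b J j) ≤ ∏ j ∈ range J, Real.exp (eps b J j) := by
        refine prod_le_prod (fun j _ => by linarith [eps_nonneg b J j]) fun j _ => ?_
        have := Real.add_one_le_exp (eps b J j)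
        linarith
    _ = Real.exp (∑ j ∈ range J, eps b J j) := (Real.exp_sum _ _).symm
    _ ≤ Kd := by
        unfold Kd
        apply Real.exp_le_exp.2
        refine (sum_eps b J).trans ?_
        have h1 : ((256 : ℝ) ^ b)⁻¹ ≤ 1 := inv_le_one_of_one_le₀ (one_le_pow₀ (by norm_num))
        calc Real.exp 68 * (256 ^ b)⁻¹ ≤ Real.exp 68 * 1 :=
              mul_le_mul_of_nonneg_left h1 (Real.exp_pos _).le
          _ = _ := mul_one _

lemma prod_V_range (J : ℕ) : (V (PJ 0))⁻¹ * ∏ j ∈ range J, (V (Bk j))⁻¹ = (V (PJ J))⁻¹ := by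
  induction J with
  | zero => simp
  | succ J ih => rw [prod_range_succ, ← mul_assoc, ih, V_PJ_succ, mul_inv]

lemma prod_f_range (f : ℕ → ℝ) (J : ℕ) :
    (∏ p ∈ PJ 0, f p) * ∏ j ∈ range J, ∏ p ∈ Bk j, f p = ∏ p ∈ PJ J, f p := by
  induction J with
  | zero => simp
  | succ J ih => rw [prod_range_succ, ← mul_assoc, ih, PJ_succ, prod_union (PJ_disj J)]

lemma TB_congr_y (c : ℕ → ℝ) (B : Finset ℕ) (x y y' : ℕ → ℝ) (h : ∀ p ∈ B, y p = y' p) :
    TB c B x y = TB c B x y' := by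
  unfold TB
  refine sum_congr rfl fun A _ => ?_
  congr 2
  exact prod_congr rfl fun p hp => h p (mem_sdiff.1 hp).1

/-- The indicator of the complement of the prime factors of `q`. -/
noncomputable def yq (q p : ℕ) : ℝ := if p ∈ q.primeFactors then 0 else 1

/-- Local bound. -/
noncomputable def fq (q p : ℕ) : ℝ := if p ∈ q.primeFactors then Real.exp 8 * (p : ℝ)⁻¹ else 1

lemma fq_nonneg (q p : ℕ) : 0 ≤ fq q p := by unfold fq; split_ifs <;> positivity

lemma block_bound (b J j q : ℕ) : |TB (cs (mlev b J j)) (Bk j) xi (yq q)| ≤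
    (∏ p ∈ Bk j, fq q p) * ((V (Bk j))⁻¹ * (1 + eps b J j)) := by
  have hV := inv_pos.2 (V_Bk_pos j)
  have he := eps_nonneg b J j
  by_cases h : ∃ p ∈ Bk j, p ∈ q.primeFactors
  · obtain ⟨p0, hp0, hp0q⟩ := h
    have h1 := TB_abs_le (cs (mlev b J j)) (cs_abs _) (Bk j) xi (yq q) (fun p _ => xi_nonneg p)
      (fun p _ => by unfold yq; split_ifs <;> norm_num)
    refine h1.trans ?_
    -- compare with `∏ fq * V`
    set g : ℕ → ℝ := fun p => if p ∈ q.primeFactors then (p : ℝ)⁻¹ else (p : ℝ) / ((p : ℝ) - 1)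
      with hg
    have h2 : ∏ p ∈ Bk j, (xi p + yq q p) ≤ ∏ p ∈ Bk j, g p := by
      refine prod_le_prod (fun p _ => ?_) fun p hp => ?_
      · have := xi_nonneg p
        unfold yq; split_ifs <;> linarith
      · rw [hg]
        unfold yq xi
        simp only
        split_ifs with h3
        · simp
        · have h4 := Bk_prime hp
          have hp2 : (2 : ℝ) ≤ p := by exact_mod_cast h4.two_le
          have h5 : (0 : ℝ) < (p : ℝ) - 1 := by linarith
          have h6 : (0 : ℝ) < (p : ℝ) := by linarith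
          rw [le_div_iff₀ h5]
          have : ((p : ℝ)⁻¹ + 1) * ((p : ℝ) - 1) = p - (p : ℝ)⁻¹ := by field_simp; ring
          rw [this]
          have : 0 < (p : ℝ)⁻¹ := by positivity
          linarith
    have h3 : ∏ p ∈ Bk j, g p ≤ (∏ p ∈ Bk j, fq q p) * (Real.exp 8)⁻¹ * V (Bk j) := by
      rw [← prod_sdiff (show {p ∈ Bk j | p ∈ q.primeFactors} ⊆ Bk j from filter_subset _ _),
        ← prod_sdiff (s₁ := {p ∈ Bk j | p ∈ q.primeFactors}) (s₂ := Bk j) (f := fq q)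
          (filter_subset _ _)]
      set D1 := Bk j \ {p ∈ Bk j | p ∈ q.primeFactors} with hD1
      set D2 := {p ∈ Bk j | p ∈ q.primeFactors} with hD2
      have e1 : ∏ p ∈ D1, fq q p = 1 := by
        apply prod_eq_one
        intro p hp
        rw [hD1, mem_sdiff, mem_filter] at hp
        unfold fq
        rw [if_neg (fun h => hp.2 ⟨hp.1, h⟩)]
      have e2 : ∏ p ∈ D1, g p = V D1 := by
        unfold V
        refine prod_congr rfl fun p hp => ?_
        rw [hD1, mem_sdiff, mem_filter] at hp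
        rw [hg]
        simp only
        rw [if_neg (fun h => hp.2 ⟨hp.1, h⟩)]
      have e3 : V D1 ≤ V (Bk j) := V_mono sdiff_subset (fun p hp => Bk_prime hp)
      have e4 : ∏ p ∈ D2, fq q p = (Real.exp 8) ^ #D2 * ∏ p ∈ D2, (p : ℝ)⁻¹ := by
        rw [← prod_const, ← prod_mul_distrib]
        refine prod_congr rfl fun p hp => ?_
        rw [hD2, mem_filter] at hp
        unfold fq
        rw [if_pos hp.2]
      have e5 : ∏ p ∈ D2, g p = ∏ p ∈ D2, (p : ℝ)⁻¹ := by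
        refine prod_congr rfl fun p hp => ?_
        rw [hD2, mem_filter] at hp
        rw [hg]
        simp only
        rw [if_pos hp.2]
      have e6 : 0 ≤ ∏ p ∈ D2, (p : ℝ)⁻¹ := prod_nonneg fun p _ => by positivity
      have e7 : 1 ≤ (Real.exp 8) ^ #D2 * (Real.exp 8)⁻¹ := by
        have : 0 < #D2 := card_pos.2 ⟨p0, by rw [hD2, mem_filter]; exact ⟨hp0, hp0q⟩⟩
        obtain ⟨k, hk⟩ := Nat.exists_eq_succ_of_ne_zero this.ne'
        rw [hk, Nat.succ_eq_add_one, pow_succ, mul_assoc, mul_inv_cancel₀ (Real.exp_pos _).ne',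
          mul_one]
        exact one_le_pow₀ (Real.one_le_exp (by norm_num))
      have e8 := V_Bk_pos j
      rw [e1, e2, e4, e5, one_mul]
      calc V D1 * ∏ p ∈ D2, (p : ℝ)⁻¹ ≤ V (Bk j) * ∏ p ∈ D2, (p : ℝ)⁻¹ := by gcongr
        _ = 1 * (∏ p ∈ D2, (p : ℝ)⁻¹) * V (Bk j) := by ring
        _ ≤ ((Real.exp 8) ^ #D2 * (Real.exp 8)⁻¹) * (∏ p ∈ D2, (p : ℝ)⁻¹) * V (Bk j) := by
            gcongr
        _ = _ := by ring
    refine h2.trans (h3.trans ?_)
    have h4 : 0 ≤ ∏ p ∈ Bk j, fq q p := prod_nonneg fun p _ => fq_nonneg q p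
    rw [mul_assoc]
    apply mul_le_mul_of_nonneg_left _ h4
    have h5 : (Real.exp 8)⁻¹ * V (Bk j) ≤ (V (Bk j))⁻¹ := by
      rw [inv_mul_le_iff₀ (Real.exp_pos _), ← div_eq_mul_inv, le_div_iff₀ (V_Bk_pos j)]
      have h6 := V_Bk_le j
      calc V (Bk j) * V (Bk j) ≤ Real.exp 4 * Real.exp 4 := by
            apply mul_le_mul h6 h6 (V_Bk_pos j).le (Real.exp_pos _).le
        _ = Real.exp 8 := by rw [← Real.exp_add]; norm_num
    calc (Real.exp 8)⁻¹ * V (Bk j) ≤ (V (Bk j))⁻¹ * 1 := by rw [mul_one]; exact h5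
      _ ≤ _ := by gcongr; linarith
  · push Not at h
    have h1 : ∏ p ∈ Bk j, fq q p = 1 := prod_eq_one fun p hp => by
      unfold fq; rw [if_neg (h p hp)]
    rw [h1, one_mul, TB_congr_y _ _ _ (yq q) 1 (fun p hp => by
      unfold yq; rw [if_neg (h p hp)]; rfl)]
    rw [abs_of_nonneg (TB_cs_nonneg j _ (mlev_even b J j))]
    exact TB_cs_le j _ (mlev_even b J j)

lemma base_bound (q : ℕ) : |∏ p ∈ PJ 0, (yq q p - xi p)| ≤ (∏ p ∈ PJ 0, fq q p) * (V (PJ 0))⁻¹ := by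
  rw [← V_inv _ (fun p hp => PJ_prime hp), ← prod_mul_distrib, abs_prod]
  refine prod_le_prod (fun p _ => abs_nonneg _) fun p hp => ?_
  have hp2 : (2 : ℝ) ≤ p := by exact_mod_cast (PJ_prime hp).two_le
  have h1 : (p : ℝ)⁻¹ ≤ 1 / 2 := by
    rw [one_div]; exact inv_anti₀ (by norm_num) hp2
  have h0 : 0 < (p : ℝ)⁻¹ := by positivity
  unfold yq xi fq
  split_ifs with h
  · rw [zero_sub, abs_neg, abs_of_pos h0]
    have h2 : 9 ≤ Real.exp 8 := by
      have := Real.add_one_le_exp (8 : ℝ); linarith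
    have h3 : 1 ≤ Real.exp 8 * (1 - (p : ℝ)⁻¹) := by nlinarith
    calc (p : ℝ)⁻¹ = 1 * (p : ℝ)⁻¹ := (one_mul _).symm
      _ ≤ Real.exp 8 * (1 - (p : ℝ)⁻¹) * (p : ℝ)⁻¹ := by gcongr
      _ = _ := by ring
  · rw [one_mul, abs_of_nonneg (by linarith)]

lemma dvd_eA_iff {A : Finset ℕ} (hA : ∀ p ∈ A, p.Prime) {q : ℕ} (hq : Squarefree q) :
    q ∣ eA A ↔ q.primeFactors ⊆ A := by
  constructor
  · intro h p hp
    rw [Nat.mem_primeFactors] at hp
    have h1 : p ∣ eA A := hp.2.1.trans h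
    unfold eA at h1
    rw [Prime.dvd_finsetProd_iff hp.1.prime] at h1
    obtain ⟨r, hr, hpr⟩ := h1
    rwa [(Nat.prime_dvd_prime_iff_eq hp.1 (hA r hr)).1 hpr]
  · intro h
    rw [← Nat.prod_primeFactors_of_squarefree hq]
    exact prod_dvd_prod_of_subset _ _ _ h

lemma eA_squarefree {A : Finset ℕ} (hA : ∀ p ∈ A, p.Prime) : Squarefree (eA A) := by
  unfold eA
  induction A using Finset.induction_on with
  | empty => simp
  | insert a s ha ih =>
    rw [prod_insert ha, Nat.squarefree_mul_iff]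
    refine ⟨?_, (hA a (mem_insert_self _ _)).prime.squarefree,
      ih (fun p hp => hA p (mem_insert_of_mem hp))⟩
    apply Nat.Coprime.prod_right
    intro p hp
    rw [Nat.coprime_primes (hA a (mem_insert_self _ _)) (hA p (mem_insert_of_mem hp))]
    rintro rfl
    exact ha hp

theorem W_bound (b J q : ℕ) (hq : 0 < q) :
    |∑ A ∈ (PJ J).powerset, lam b J A * (if q ∣ eA A then ((eA A : ℕ) : ℝ)⁻¹ else 0)| ≤
      Kd * (Real.exp 8) ^ #q.primeFactors / q * (V (PJ J))⁻¹ := by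
  have hVpos : 0 < (V (PJ J))⁻¹ := inv_pos.2 (V_pos (fun p hp => PJ_prime hp))
  have hKd : 0 < Kd := Real.exp_pos _
  have hq' : (0 : ℝ) < q := by exact_mod_cast hq
  have hAp : ∀ A ∈ (PJ J).powerset, ∀ p ∈ A, p.Prime := fun A hA p hp =>
    PJ_prime (mem_powerset.1 hA hp)
  by_cases hcase : Squarefree q ∧ q.primeFactors ⊆ PJ J
  · obtain ⟨hsq, hsub⟩ := hcase
    have h1 : ∑ A ∈ (PJ J).powerset, lam b J A * (if q ∣ eA A then ((eA A : ℕ) : ℝ)⁻¹ else 0) =
        (∏ p ∈ PJ 0, (yq q p - xi p)) *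
          ∏ j ∈ range J, TB (cs (mlev b J j)) (Bk j) xi (yq q) := by
      rw [← lam_sum (fun j => cs (mlev b J j)) J xi (yq q)]
      refine sum_congr rfl fun A hA => ?_
      unfold lam
      congr 1
      have hiff := dvd_eA_iff (hAp A hA) hsq
      split_ifs with h
      · rw [hiff] at h
        have e1 : ∏ p ∈ PJ J \ A, yq q p = 1 := prod_eq_one fun p hp => by
          unfold yq
          rw [if_neg]
          intro h2
          exact (mem_sdiff.1 hp).2 (h h2)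
        rw [e1, mul_one]
        unfold eA xi
        rw [Nat.cast_prod, prod_inv_distrib]
      · rw [hiff] at h
        obtain ⟨p, hp, hpA⟩ := not_subset.1 h
        have e1 : ∏ p ∈ PJ J \ A, yq q p = 0 := by
          apply prod_eq_zero (mem_sdiff.2 ⟨hsub hp, hpA⟩)
          unfold yq
          rw [if_pos hp]
        rw [e1, mul_zero]
    rw [h1, abs_mul, abs_prod (range J)]
    have h2 : ∏ j ∈ range J, |TB (cs (mlev b J j)) (Bk j) xi (yq q)| ≤
        ∏ j ∈ range J, ((∏ p ∈ Bk j, fq q p) * ((V (Bk j))⁻¹ * (1 + eps b J j))) :=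
      prod_le_prod (fun j _ => abs_nonneg _) fun j _ => block_bound b J j q
    rw [prod_mul_distrib, prod_mul_distrib] at h2
    have h3 := base_bound q
    have h4 : 0 ≤ ∏ j ∈ range J, |TB (cs (mlev b J j)) (Bk j) xi (yq q)| :=
      prod_nonneg fun j _ => abs_nonneg _
    have h5 : 0 ≤ (∏ p ∈ PJ 0, fq q p) * (V (PJ 0))⁻¹ := (abs_nonneg _).trans h3
    refine (mul_le_mul h3 h2 h4 h5).trans ?_
    have h6 : (∏ p ∈ PJ 0, fq q p) * (V (PJ 0))⁻¹ *
        ((∏ j ∈ range J, ∏ p ∈ Bk j, fq q p) *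
          ((∏ j ∈ range J, (V (Bk j))⁻¹) * ∏ j ∈ range J, (1 + eps b J j))) =
        ((∏ p ∈ PJ 0, fq q p) * ∏ j ∈ range J, ∏ p ∈ Bk j, fq q p) *
        ((V (PJ 0))⁻¹ * ∏ j ∈ range J, (V (Bk j))⁻¹) * ∏ j ∈ range J, (1 + eps b J j) := by
      ring
    rw [h6, prod_f_range, prod_V_range]
    have h7 : ∏ p ∈ PJ J, fq q p = (Real.exp 8) ^ #q.primeFactors / q := by
      rw [← prod_sdiff hsub]
      have e1 : ∏ p ∈ PJ J \ q.primeFactors, fq q p = 1 := prod_eq_one fun p hp => by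
        unfold fq; rw [if_neg (mem_sdiff.1 hp).2]
      have e2 : ∏ p ∈ q.primeFactors, fq q p = ∏ p ∈ q.primeFactors, (Real.exp 8 * (p : ℝ)⁻¹) :=
        prod_congr rfl fun p hp => by unfold fq; rw [if_pos hp]
      rw [e1, e2, one_mul, prod_mul_distrib, prod_const, prod_inv_distrib, ← Nat.cast_prod,
        Nat.prod_primeFactors_of_squarefree hsq, div_eq_mul_inv]
    rw [h7]
    have h8 := prod_eps b J
    calc (Real.exp 8) ^ #q.primeFactors / q * (V (PJ J))⁻¹ * ∏ j ∈ range J, (1 + eps b J j)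
        ≤ (Real.exp 8) ^ #q.primeFactors / q * (V (PJ J))⁻¹ * Kd := by gcongr
      _ = _ := by ring
  · have h1 : ∑ A ∈ (PJ J).powerset, lam b J A * (if q ∣ eA A then ((eA A : ℕ) : ℝ)⁻¹ else 0) = 0 := by
      apply sum_eq_zero
      intro A hA
      rw [if_neg, mul_zero]
      intro hd
      apply hcase
      have h2 := (eA_squarefree (hAp A hA)).squarefree_of_dvd hd
      exact ⟨h2, ((dvd_eA_iff (hAp A hA) h2).1 hd).trans (mem_powerset.1 hA)⟩
    rw [h1, abs_zero]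
    positivity

/-- Density of the error functions. -/
theorem E_bound (b J i : ℕ) (hi : i < J) :
    ∑ A ∈ (PJ J).powerset, lamE b J i A * ((eA A : ℕ) : ℝ)⁻¹ ≤
      Kd * eps b J i * (V (PJ J))⁻¹ := by
  have h1 : ∑ A ∈ (PJ J).powerset, lamE b J i A * ((eA A : ℕ) : ℝ)⁻¹ =
      (∏ p ∈ PJ 0, ((1 : ℕ → ℝ) p - xi p)) *
        ∏ j ∈ range J, TB (if j = i then ce (mlev b J j + 1) else cs (mlev b J j)) (Bk j) xi 1 := by
    rw [← lam_sum (fun j => if j = i then ce (mlev b J j + 1) else cs (mlev b J j)) J xi 1]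
    refine sum_congr rfl fun A _ => ?_
    unfold lamE
    congr 1
    simp only [Pi.one_apply, prod_const_one, mul_one]
    unfold eA xi
    rw [Nat.cast_prod, prod_inv_distrib]
  rw [h1]
  have h2 : ∏ p ∈ PJ 0, ((1 : ℕ → ℝ) p - xi p) = (V (PJ 0))⁻¹ := V_inv _ (fun p hp => PJ_prime hp)
  rw [h2]
  have h3 : ∏ j ∈ range J, TB (if j = i then ce (mlev b J j + 1) else cs (mlev b J j)) (Bk j) xi 1 ≤
      ∏ j ∈ range J, ((V (Bk j))⁻¹ * (if j = i then eps b J j else (1 + eps b J j))) := by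
    refine prod_le_prod (fun j _ => ?_) fun j _ => ?_
    · split_ifs with h
      · unfold TB
        refine sum_nonneg fun A _ => mul_nonneg (ce_nonneg _ _) (mul_nonneg ?_ ?_)
        · exact prod_nonneg fun p _ => xi_nonneg p
        · exact prod_nonneg fun p _ => by simp
      · exact TB_cs_nonneg j _ (mlev_even b J j)
    · split_ifs with h
      · exact TB_ce_le j _
      · exact TB_cs_le j _ (mlev_even b J j)
  rw [prod_mul_distrib] at h3
  have h4 : ∏ j ∈ range J, (if j = i then eps b J j else (1 + eps b J j)) ≤ eps b J i * Kd := by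
    have hi' : i ∈ range J := mem_range.2 hi
    rw [← mul_prod_erase _ _ hi', if_pos rfl]
    apply mul_le_mul_of_nonneg_left _ (eps_nonneg b J i)
    refine le_trans ?_ (prod_eps b J)
    rw [← mul_prod_erase (range J) (fun j => 1 + eps b J j) hi']
    have h5 : ∏ j ∈ (range J).erase i, (if j = i then eps b J j else (1 + eps b J j)) =
        ∏ j ∈ (range J).erase i, (1 + eps b J j) := by
      refine prod_congr rfl fun j hj => ?_
      rw [if_neg (mem_erase.1 hj).1]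
    rw [h5]
    have h6 : 0 ≤ ∏ j ∈ (range J).erase i, (1 + eps b J j) :=
      prod_nonneg fun j _ => by linarith [eps_nonneg b J j]
    have := eps_nonneg b J i
    nlinarith
  have hV0 : 0 < (V (PJ 0))⁻¹ := inv_pos.2 (V_pos (fun p hp => PJ_prime hp))
  have hVb : 0 ≤ ∏ j ∈ range J, (V (Bk j))⁻¹ := prod_nonneg fun j _ => (inv_pos.2 (V_Bk_pos j)).le
  calc (V (PJ 0))⁻¹ * ∏ j ∈ range J, TB (if j = i then ce (mlev b J j + 1) else
        cs (mlev b J j)) (Bk j) xi 1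
      ≤ (V (PJ 0))⁻¹ * ((∏ j ∈ range J, (V (Bk j))⁻¹) *
        ∏ j ∈ range J, (if j = i then eps b J j else (1 + eps b J j))) := by gcongr
    _ ≤ (V (PJ 0))⁻¹ * ((∏ j ∈ range J, (V (Bk j))⁻¹) * (eps b J i * Kd)) := by gcongr
    _ = ((V (PJ 0))⁻¹ * ∏ j ∈ range J, (V (Bk j))⁻¹) * (eps b J i * Kd) := by ring
    _ = _ := by rw [prod_V_range]; ring

/-- `V` of the primes up to `2^(2^J)` is at least a constant times the logarithm. -/
lemma V_PJ_ge (J : ℕ) : 2 ^ J * Real.log 2 ≤ 2 * V (PJ J) := by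
  have h1 := log_le_G (PJ J) (2 ^ (2 ^ J)) (fun p hp => PJ_prime hp)
  have h2 : G (PJ J) (2 ^ (2 ^ J)) = 1 := by
    unfold G
    have : sieveSet (PJ J) (2 ^ (2 ^ J)) = {1} := by
      ext m
      rw [mem_sieveSet, mem_singleton]
      constructor
      · rintro ⟨⟨hm1, hm2⟩, -, hm⟩
        by_contra hne
        obtain ⟨p, hp, hpm⟩ := Nat.exists_prime_and_dvd hne
        exact hm p (mem_PJ.2 ⟨(Nat.le_of_dvd (by omega) hpm).trans hm2, hp⟩) hpm
      · rintro rfl
        refine ⟨⟨le_rfl, Nat.one_le_two_pow⟩, squarefree_one, fun p hp hp1 => ?_⟩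
        exact (PJ_prime hp).one_lt.ne' (Nat.dvd_one.1 hp1)
    rw [this]; simp
  rw [h2, mul_one] at h1
  push_cast at h1
  rw [Real.log_pow] at h1
  push_cast at h1
  exact h1

end LSieve
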