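import Pool.Agent.LibVinogradov.IndSum

/-!
# The error term in the ternary problem `q - p = 2 t`
-/

namespace LSieve

open Finset Filter Topology

/-- The weight `log T` on primes minus its periodic model. -/
noncomputable def kT (n W : ℕ) (t : ℕ) : ℝ :=
  Real.log ((2 * n ^ 32 : ℕ) : ℝ) * vI t - ((W : ℝ) / W.totient) * ind W t

lemma nsum_kT (n W : ℕ) (s : Finset ℕ) (x : UnitAddCircle) :
    nsum s (kT n W) x = (Real.log ((2 * n ^ 32 : ℕ) : ℝ) : ℂ) * nsum s vI x -
      (((W : ℝ) / W.totient : ℝ) : ℂ) * nsum s (ind W) x := by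
  unfold nsum kT
  rw [mul_sum, mul_sum, ← sum_sub_distrib]
  refine sum_congr rfl fun t _ => ?_
  push_cast
  ring

lemma norm_nsum_kT_le (n w : ℕ) (s : Finset ℕ) (x : UnitAddCircle) :
    ‖nsum s (kT n w.factorial) x‖ ≤ Real.log ((2 * n ^ 32 : ℕ) : ℝ) * ‖nsum s vI x‖ +
      V (primesTo w) * ‖nsum s (ind w.factorial) x‖ := by
  rw [nsum_kT, factorial_ratio]
  refine (norm_sub_le _ _).trans ?_
  rw [norm_mul, norm_mul, Complex.norm_real, Complex.norm_real,
    Real.norm_of_nonneg (Real.log_natCast_nonneg _),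
    Real.norm_of_nonneg (V_pos (fun p hp => (mem_primesTo.1 hp).2)).le]

/-- Comparison of the two weights. -/
lemma kT_kw (n w : ℕ) (hn : 2 ≤ n) (x : UnitAddCircle) :
    Real.log ((2 * n ^ 32 : ℕ) : ℝ) *
      ‖nsum (Ioc (2 * n ^ 32) (6 * (2 * n ^ 32))) (kT n w) x‖ ≤
      Real.log ((2 * n ^ 32 : ℕ) : ℝ) *
      ‖nsum (Ioc (2 * n ^ 32) (6 * (2 * n ^ 32))) (kw w) x‖ + 36 * n ^ 32 := by
  set T := 2 * n ^ 32 with hT
  have hT0 : 0 < T := by positivity
  have hT0' : (0 : ℝ) < T := by exact_mod_cast hT0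
  have hlogT : 0 ≤ Real.log T := Real.log_natCast_nonneg _
  have h1 : nsum (Ioc T (6 * T)) (kT n w) x = nsum (Ioc T (6 * T)) (kw w) x +
      nsum (Ioc T (6 * T)) (fun t => (Real.log T - Real.log t) * vI t) x := by
    unfold nsum
    rw [← sum_add_distrib]
    refine sum_congr rfl fun t _ => ?_
    rw [← add_mul, ← Complex.ofReal_add]
    congr 2
    unfold kT kw ind
    rw [← hT]
    by_cases ht : t.Prime
    · have hv : vI t = 1 := by unfold vI; rw [if_pos ht]
      simp only [hv, if_pos ht]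
      split_ifs <;> ring
    · have hv : vI t = 0 := by unfold vI; rw [if_neg ht]
      simp only [hv, if_neg ht]
      split_ifs <;> ring
  have h2 : Real.log T * ‖nsum (Ioc T (6 * T)) (fun t => (Real.log T - Real.log t) * vI t) x‖ ≤
      36 * n ^ 32 := by
    have h3 : ‖nsum (Ioc T (6 * T)) (fun t => (Real.log T - Real.log t) * vI t) x‖ ≤
        ∑ t ∈ Ioc T (6 * T), 2 * vI t := by
      unfold nsum
      refine (norm_sum_le _ _).trans (sum_le_sum fun t ht => ?_)
      rw [mem_Ioc] at ht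
      have ht0 : (0 : ℝ) < t := by
        have : 0 < t := by omega
        exact_mod_cast this
      rw [norm_mul, norm_e, mul_one, Complex.norm_real, Real.norm_eq_abs, abs_mul]
      have hv : 0 ≤ vI t := by unfold vI; split_ifs <;> norm_num
      rw [abs_of_nonneg hv]
      apply mul_le_mul_of_nonneg_right _ hv
      have h4 : Real.log T ≤ Real.log t := Real.log_le_log hT0' (by exact_mod_cast ht.1.le)
      have h5 : Real.log t ≤ Real.log 6 + Real.log T := by
        rw [← Real.log_mul (by norm_num) hT0'.ne']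
        apply Real.log_le_log ht0
        exact_mod_cast ht.2
      have h6 : Real.log 6 ≤ 2 := by
        rw [Real.log_le_iff_le_exp (by norm_num)]
        have := Real.exp_one_gt_d9
        have h7 : Real.exp 2 = Real.exp 1 * Real.exp 1 := by rw [← Real.exp_add]; norm_num
        rw [h7]
        nlinarith
      rw [abs_le]
      constructor <;> linarith
    have h4 : Real.log T * ∑ t ∈ Ioc T (6 * T), 2 * vI t ≤
        2 * ∑ p ∈ primesTo (6 * T), Real.log p := by
      rw [mul_sum]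
      have h5 : ∑ t ∈ Ioc T (6 * T), Real.log T * (2 * vI t) ≤
          ∑ t ∈ Ioc T (6 * T), 2 * (if t.Prime then Real.log t else 0) := by
        refine sum_le_sum fun t ht => ?_
        rw [mem_Ioc] at ht
        unfold vI
        split_ifs
        · have h4 : Real.log T ≤ Real.log t := Real.log_le_log hT0' (by exact_mod_cast ht.1.le)
          linarith
        · simp
      refine h5.trans ?_
      rw [← mul_sum, ← sum_filter]
      apply mul_le_mul_of_nonneg_left _ (by norm_num)
      apply sum_le_sum_of_subset_of_nonneg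
      · intro t ht
        rw [mem_filter, mem_Ioc] at ht
        exact mem_primesTo.2 ⟨ht.1.2, ht.2⟩
      · intro t _ _
        exact Real.log_natCast_nonneg t
    calc Real.log T * ‖nsum (Ioc T (6 * T)) (fun t => (Real.log T - Real.log t) * vI t) x‖
        ≤ Real.log T * ∑ t ∈ Ioc T (6 * T), 2 * vI t := by gcongr
      _ ≤ 2 * ∑ p ∈ primesTo (6 * T), Real.log p := h4
      _ ≤ 2 * (Real.log 4 * ((6 * T : ℕ) : ℝ)) := by
          have := sum_log_primesTo_le (6 * T)
          linarith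
      _ ≤ 2 * (3 / 2 * ((6 * T : ℕ) : ℝ)) := by
          have := log_four_le
          gcongr
      _ = _ := by rw [hT]; push_cast; ring
  rw [h1]
  calc _ ≤ Real.log T * (‖nsum (Ioc T (6 * T)) (kw w) x‖ +
        ‖nsum (Ioc T (6 * T)) (fun t => (Real.log T - Real.log t) * vI t) x‖) := by
        gcongr
        exact norm_add_le _ _
    _ ≤ _ := by linarith

lemma halve (x : UnitAddCircle) : ∃ y : UnitAddCircle, 2 • y = x ∧ ‖y‖ ≤ ‖x‖ := by
  obtain ⟨t, ht, htn⟩ := exists_rep x
  refine ⟨((t / 2 : ℝ) : UnitAddCircle), ?_, ?_⟩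
  · rw [← AddCircle.coe_nsmul, ← ht]
    congr 1
    rw [nsmul_eq_mul]
    push_cast
    ring
  · refine (norm_coe_le _).trans ?_
    rw [← htn, abs_div, abs_two]
    have := abs_nonneg t
    linarith

lemma dirichlet2 (θ : UnitAddCircle) (Y : ℕ) (hY : 0 < Y) : ∃ α β α' β' : UnitAddCircle,
    θ = α + β ∧ 2 • θ = α' + β' ∧ 0 < addOrderOf α' ∧ addOrderOf α' ≤ Y ∧
      ‖β'‖ ≤ 1 / (addOrderOf α' * ((Y : ℝ) + 1)) ∧ 0 < addOrderOf α ∧
      addOrderOf α ≤ 2 * addOrderOf α' ∧ ‖β‖ ≤ ‖β'‖ := by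
  obtain ⟨α', β', h1, h2, h3, h4⟩ := dirichlet (2 • θ) Y hY
  obtain ⟨y, hy, hyn⟩ := halve β'
  have h5 : 2 • (θ - y) = α' := by rw [smul_sub, h1, hy]; abel
  have h6 : (2 * addOrderOf α') • (θ - y) = 0 := by
    rw [mul_comm, mul_smul, h5]
    exact addOrderOf_nsmul_eq_zero α'
  have h7 : addOrderOf (θ - y) ∣ 2 * addOrderOf α' := addOrderOf_dvd_iff_nsmul_eq_zero.2 h6
  refine ⟨θ - y, y, α', β', by abel, h1, h2, h3, h4, ?_, Nat.le_of_dvd (by omega) h7, hyn⟩
  exact Nat.pos_of_dvd_of_pos h7 (by omega)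

end LSieve
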