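import Pool.Agent.LibVinogradov.Params

/-!
# Auxiliary parameters
-/

namespace LSieve

open Finset Filter Topology

/-- The parameter `μ`. -/
lemma exists_mu (T X K q : ℕ) (hX : X = 6 * T) (hT : 0 < T) (hK : 1 ≤ K) (hq : 0 < q)
    (β : UnitAddCircle) : ∃ μ : ℝ, 0 < μ ∧ μ ≤ 1 ∧ (μ = 1 ∨ 2 * K ≤ X * ‖β‖ * μ) ∧
      μ / q ≤ 3 * K / (q * (1 + T * ‖β‖)) ∧ (2 * K) / (2 * K + X * ‖β‖) ≤ μ := by
  have hK' : (1 : ℝ) ≤ K := by exact_mod_cast hK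
  have hq' : (0 : ℝ) < q := by exact_mod_cast hq
  have hT' : (0 : ℝ) < T := by exact_mod_cast hT
  have hXT : (X : ℝ) = 6 * T := by rw [hX]; push_cast; ring
  have hβ0 := norm_nonneg β
  rcases le_or_gt (X * ‖β‖) (2 * K) with h | h
  · refine ⟨1, one_pos, le_rfl, Or.inl rfl, ?_, ?_⟩
    · rw [div_le_div_iff₀ hq' (by positivity)]
      rw [hXT] at h
      nlinarith
    · rw [div_le_one (by positivity)]
      have : 0 ≤ X * ‖β‖ := by positivity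
      linarith
  · have hpos : 0 < X * ‖β‖ := by linarith
    refine ⟨2 * K / (X * ‖β‖), by positivity, ?_, Or.inr ?_, ?_, ?_⟩
    · rw [div_le_one hpos]; exact h.le
    · rw [mul_div_cancel₀ _ hpos.ne']
    · rw [div_div, div_le_div_iff₀ (by positivity) (by positivity)]
      rw [hXT] at h ⊢
      have e1 : 1 + T * ‖β‖ ≤ 9 * (T * ‖β‖) := by nlinarith
      calc 2 * (K : ℝ) * (q * (1 + T * ‖β‖)) ≤ 2 * K * (q * (9 * (T * ‖β‖))) := by gcongr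
        _ = _ := by ring
    · apply div_le_div_of_nonneg_left (by positivity) hpos
      linarith

lemma log_Mp (l b : ℕ) : Real.log (Mp l b) = 2 ^ (Jp l b - 2) * Real.log 2 := by
  unfold Mp
  push_cast
  rw [Real.log_pow]
  push_cast
  ring

lemma pow4_bounds (j : ℕ) : ((2 ^ (j / 4) : ℕ) : ℝ) ≤ (6 / 5) ^ j ∧
    1 / ((2 ^ (j / 4) : ℕ) : ℝ) ≤ 2 * (6 / 7) ^ j := by
  have h1 : 4 * (j / 4) ≤ j := Nat.mul_div_le j 4
  have h2 : j ≤ 4 * (j / 4) + 3 := by omega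
  constructor
  · apply le_of_pow_le_pow_left₀ (n := 4) (by norm_num) (by positivity)
    push_cast
    rw [← pow_mul, ← pow_mul, mul_comm j 4, pow_mul (6 / 5 : ℝ) 4 j]
    calc (2 : ℝ) ^ (j / 4 * 4) ≤ 2 ^ j := pow_le_pow_right₀ (by norm_num) (by omega)
      _ ≤ _ := pow_le_pow_left₀ (by norm_num) (by norm_num) j
  · apply le_of_pow_le_pow_left₀ (n := 4) (by norm_num) (by positivity)
    push_cast
    rw [div_pow, mul_pow, ← pow_mul, ← pow_mul, mul_comm j 4, pow_mul (6 / 7 : ℝ) 4 j, one_pow,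
      div_le_iff₀ (by positivity)]
    have e1 : (1 / 2 : ℝ) ^ j ≤ ((6 / 7) ^ 4) ^ j := pow_le_pow_left₀ (by norm_num) (by norm_num) j
    have e2 : (2 : ℝ) ^ j ≤ 2 ^ (j / 4 * 4 + 3) := pow_le_pow_right₀ (by norm_num) (by omega)
    have e3 : (1 / 2 : ℝ) ^ j * 2 ^ j = 1 := by rw [← mul_pow]; norm_num
    calc (1 : ℝ) = (1 / 2 : ℝ) ^ j * 2 ^ j := e3.symm
      _ ≤ ((6 / 7) ^ 4) ^ j * 2 ^ (j / 4 * 4 + 3) := by gcongr
      _ ≤ 2 ^ 4 * ((6 / 7) ^ 4) ^ j * 2 ^ (j / 4 * 4) := by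
          rw [pow_add]
          have : 0 < ((6 / 7 : ℝ) ^ 4) ^ j * 2 ^ (j / 4 * 4) := by positivity
          nlinarith

lemma exists_poly_bound : ∃ C : ℝ, 1 ≤ C ∧ ∀ j : ℕ, (4 * (j : ℝ) + 7) ^ 2 * (6 / 7) ^ j ≤
    C * (7 / 8) ^ j := by
  have h1 : Tendsto (fun j : ℕ => (j : ℝ) ^ 2 * (48 / 49 : ℝ) ^ j) atTop (𝓝 0) :=
    tendsto_pow_const_mul_const_pow_of_lt_one 2 (by norm_num) (by norm_num)
  obtain ⟨B, hB⟩ := h1.bddAbove_range
  refine ⟨max 1 (121 * (B + 1)), le_max_left _ _, fun j => ?_⟩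
  have h2 : (j : ℝ) ^ 2 * (48 / 49 : ℝ) ^ j ≤ B := hB ⟨j, rfl⟩
  have h3 : (4 * (j : ℝ) + 7) ^ 2 ≤ 121 * ((j : ℝ) ^ 2 + 1) := by
    have : (0 : ℝ) ≤ j := Nat.cast_nonneg j
    rcases Nat.eq_zero_or_pos j with h0 | h0
    · rw [h0]; norm_num
    · have : (1 : ℝ) ≤ j := by exact_mod_cast h0
      nlinarith
  have h4 : (48 / 49 : ℝ) ^ j ≤ 1 := pow_le_one₀ (by norm_num) (by norm_num)
  have h5 : (6 / 7 : ℝ) ^ j = (48 / 49) ^ j * (7 / 8) ^ j := by rw [← mul_pow]; norm_num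
  rw [h5]
  have h6 : (0 : ℝ) < (7 / 8) ^ j := by positivity
  have h7 : (0 : ℝ) < (48 / 49) ^ j := by positivity
  calc (4 * (j : ℝ) + 7) ^ 2 * ((48 / 49) ^ j * (7 / 8) ^ j)
      ≤ 121 * ((j : ℝ) ^ 2 + 1) * ((48 / 49) ^ j * (7 / 8) ^ j) := by gcongr
    _ = 121 * ((j : ℝ) ^ 2 * (48 / 49) ^ j + (48 / 49) ^ j) * (7 / 8) ^ j := by ring
    _ ≤ 121 * (B + 1) * (7 / 8) ^ j := by gcongr
    _ ≤ _ := by gcongr; exact le_max_right _ _

/-- Growth conditions. -/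
lemma growth : ∀ᶠ n : ℕ in atTop, 64 ≤ Nat.log 2 n ∧ (Nat.log 2 n) ^ 200 ≤ n := by
  have h1 : Tendsto (fun l : ℕ => (l : ℝ) ^ 200 / (2 : ℝ) ^ l) atTop (𝓝 0) :=
    tendsto_pow_const_div_const_pow_of_one_lt 200 (by norm_num)
  have h2 := h1.eventually_lt_const (show (0 : ℝ) < 1 by norm_num)
  have hlog : Tendsto (fun n : ℕ => Nat.log 2 n) atTop atTop :=
    tendsto_atTop.2 (fun m => eventually_atTop.2
      ⟨2 ^ m, fun n hn => Nat.le_log_of_pow_le (by norm_num) hn⟩)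
  filter_upwards [hlog.eventually h2, hlog.eventually_ge_atTop 64, eventually_ge_atTop 1]
    with n hn hl hn1
  refine ⟨hl, ?_⟩
  rw [div_lt_one (by positivity)] at hn
  have h3 : (Nat.log 2 n) ^ 200 < 2 ^ (Nat.log 2 n) := by exact_mod_cast hn
  exact h3.le.trans (Nat.pow_log_le_self 2 (by omega))

end LSieve
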