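import Pool.Agent.LibVinogradov.SupRough
import Pool.Agent.LibVinogradov.SupAux

/-!
# Moderate denominators
-/

namespace LSieve

open Finset Filter Topology

/-- Moderate arcs: no logarithmic loss. -/
theorem sup_moderate : ∃ C : ℝ, 0 < C ∧ ∀ᶠ n : ℕ in atTop, ∀ (α β : UnitAddCircle) (q j : ℕ),
    addOrderOf α = q → 0 < q → q ≤ n ^ 16 → ‖β‖ ≤ 1 / (q * (((n ^ 16 : ℕ) : ℝ) + 1)) →
    12 ≤ j → 2 ^ j ≤ (Nat.log 2 n) ^ 20 →
    (2 : ℝ) ^ j ≤ q * (1 + ((2 * n ^ 32 : ℕ) : ℝ) * ‖β‖) →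
    q * (1 + ((2 * n ^ 32 : ℕ) : ℝ) * ‖β‖) < (2 : ℝ) ^ (j + 1) →
    (Nat.log 2 n) * ‖nsum (Ioc (2 * n ^ 32) (6 * (2 * n ^ 32))) vI (α + β)‖ ≤
      C * n ^ 32 * (7 / 8) ^ j := by
  obtain ⟨Cr, hCr1, hCr⟩ := rough_part
  obtain ⟨Cv, hCv1, hCv⟩ := V_bound
  obtain ⟨Cp, hCp1, hCp⟩ := exists_poly_bound
  set Cst : ℝ := 4 * Cr * Cp + 100 + 102 * (13488 * Cv + 9072 + 5184) * Cp + 12 with hCst
  have hCst0 : 0 < Cst := by positivity
  refine ⟨Cst, hCst0, ?_⟩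
  filter_upwards [hCr, params, growth, eventually_ge_atTop 8] with n hn1 hn2 hn3 hn8 α β q j hq hq0
    hqn hβ hj12 hjl hS1 hS2
  obtain ⟨p1, p2, p3, p4, p5, p6, p7⟩ := hn2 j hjl
  obtain ⟨hl64, hl200⟩ := hn3
  set l := Nat.log 2 n with hl
  set J := Jp l j with hJ
  set M := Mp l j with hM
  set T := 2 * n ^ 32 with hT
  set X := 6 * T with hX
  set R := 4 * n ^ 16 with hR
  set K := 2 ^ (j / 4) with hK
  have hl' : (64 : ℝ) ≤ l := by exact_mod_cast hl64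
  have hn' : (8 : ℝ) ≤ n := by exact_mod_cast hn8
  have hq' : (1 : ℝ) ≤ q := by exact_mod_cast hq0
  have hTpos : 0 < T := by positivity
  have hTX : T ≤ X := by omega
  have hβ0 := norm_nonneg β
  have hTR : (T : ℝ) = 2 * (n : ℝ) ^ 32 := by rw [hT]; push_cast; ring
  have hXR : (X : ℝ) = 12 * (n : ℝ) ^ 32 := by rw [hX]; push_cast; rw [hTR]; ring
  have hRR : (R : ℝ) = 4 * (n : ℝ) ^ 16 := by rw [hR]; push_cast; ring
  have hK1 : 8 ≤ K := by
    calc 8 = 2 ^ 3 := by norm_num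
      _ ≤ _ := Nat.pow_le_pow_right (by norm_num) (by omega)
  have hK1' : (8 : ℝ) ≤ K := by exact_mod_cast hK1
  obtain ⟨hKup, hKlow⟩ := pow4_bounds j
  set S : ℝ := q * (1 + T * ‖β‖) with hS
  have hSpos : 0 < S := by positivity
  -- sizes
  have hlpow : ∀ k : ℕ, k ≤ 200 → (l : ℝ) ^ k ≤ n := by
    intro k hk
    calc (l : ℝ) ^ k ≤ (l : ℝ) ^ 200 := pow_le_pow_right₀ (by linarith) hk
      _ ≤ n := by exact_mod_cast hl200
  have hjl' : (2 : ℝ) ^ j ≤ (l : ℝ) ^ 20 := by exact_mod_cast hjl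
  have hSl : S ≤ 2 * (l : ℝ) ^ 20 := by
    rw [pow_succ] at hS2; linarith
  have hTβ0 : 0 ≤ (T : ℝ) * ‖β‖ := by positivity
  have hqS : (q : ℝ) ≤ S := by
    rw [hS]
    exact le_mul_of_one_le_right (by linarith) (by linarith)
  have hTβ : (T : ℝ) * ‖β‖ ≤ S := by
    rw [hS]
    calc (T : ℝ) * ‖β‖ ≤ 1 * (1 + (T : ℝ) * ‖β‖) := by linarith
      _ ≤ q * (1 + (T : ℝ) * ‖β‖) := mul_le_mul_of_nonneg_right hq' (by linarith)
  have hKl : (K : ℝ) ≤ (l : ℝ) ^ 20 := by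
    refine le_trans ?_ hjl'
    rw [hK]; push_cast
    exact pow_le_pow_right₀ (by norm_num) (Nat.div_le_self _ _)
  have hMl : (l : ℝ) ^ 100 ≤ M := by exact_mod_cast p5
  have hM1 : 1 ≤ M := le_trans (Nat.one_le_pow _ _ (by omega)) p5
  have hM4 : (M : ℝ) ^ 4 ≤ (n : ℝ) ^ 2 := by exact_mod_cast p6
  have hM2 : (M : ℝ) ^ 2 ≤ n := by
    apply le_of_pow_le_pow_left₀ (n := 2) (by norm_num) (by positivity)
    calc ((M : ℝ) ^ 2) ^ 2 = (M : ℝ) ^ 4 := by ring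
      _ ≤ _ := hM4
  have hM2' : M ^ 2 ≤ n := by exact_mod_cast hM2
  have hZ : ((2 : ℝ) ^ (2 ^ J)) = (M : ℝ) ^ 4 := by exact_mod_cast p4
  -- `μ`
  obtain ⟨μ, hμ0, hμ1, hμ, hμq, hμlow⟩ := exists_mu T X K q rfl hTpos (by omega) hq0 β
  have hBH : BH α β q (n ^ 16) J R T X K μ := by
    refine ⟨hq, hq0, hqn, hβ, by omega, ?_, ?_, hμ0, hμ1, hμ⟩
    · rw [hX, hT, hR]
      calc 2 * n ^ 16 * (4 * n ^ 16) = 8 * n ^ 32 := by ring
        _ ≤ _ := by omega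
    · rw [hR]
      calc 2 * (4 * n ^ 16) = 8 * n ^ 16 := by ring
        _ ≤ K * (n ^ 16 + 1) := Nat.mul_le_mul hK1 (by omega)
  -- the parameter `w`
  set w : ℝ := 2 * Cv * (5 / 6) ^ j with hw
  have hw0 : 0 ≤ w := by positivity
  have hφ : (0 : ℝ) < q.totient := by exact_mod_cast Nat.totient_pos.2 hq0
  have hqj : q ≤ 2 ^ (j + 1) := by
    have : (q : ℝ) < 2 ^ (j + 1) := lt_of_le_of_lt hqS hS2
    have h2 : ((q : ℕ) : ℝ) < ((2 ^ (j + 1) : ℕ) : ℝ) := by push_cast; exact this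
    exact (by exact_mod_cast h2 : q < 2 ^ (j + 1)).le
  have hratio : (q : ℝ) / q.totient ≤ Cv * (17 / 16) ^ (j + 1) :=
    (ratio_le_V hq0 hqj).trans (hCv (j + 1))
  have hww : μ * q / (q.totient : ℝ) ^ 2 ≤ w ^ 2 := by
    have e1 : μ * q / (q.totient : ℝ) ^ 2 = (μ / q) * (q / q.totient) ^ 2 := by
      field_simp
    have e2 : μ / q ≤ 3 * K / 2 ^ j := by
      refine hμq.trans ?_
      apply div_le_div_of_nonneg_left (by positivity) (by positivity) hS1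
    rw [e1]
    calc μ / q * ((q : ℝ) / q.totient) ^ 2
        ≤ (3 * K / 2 ^ j) * (Cv * (17 / 16) ^ (j + 1)) ^ 2 := by gcongr
      _ ≤ (3 * (6 / 5) ^ j / 2 ^ j) * (Cv * (17 / 16) ^ (j + 1)) ^ 2 := by gcongr
      _ = 3 * (289 / 256) * Cv ^ 2 * ((6 / 5) * (1 / 2) * (289 / 256)) ^ j := by
          rw [mul_pow, mul_pow, mul_pow, pow_succ, div_pow (1 : ℝ) 2 j, one_pow,
            show (289 / 256 : ℝ) = (17 / 16) ^ 2 by norm_num, ← pow_mul, ← pow_mul,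
            mul_comm 2 j]
          ring
      _ ≤ 4 * Cv ^ 2 * ((5 / 6) ^ 2) ^ j := by
          have e3 : ((6 / 5) * (1 / 2) * (289 / 256) : ℝ) ^ j ≤ ((5 / 6) ^ 2) ^ j :=
            pow_le_pow_left₀ (by norm_num) (by norm_num) j
          have e4 : (0 : ℝ) ≤ ((6 / 5) * (1 / 2) * (289 / 256)) ^ j := by positivity
          have e5 : 0 ≤ Cv ^ 2 := sq_nonneg _
          calc 3 * (289 / 256) * Cv ^ 2 * ((6 / 5) * (1 / 2) * (289 / 256) : ℝ) ^ j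
              ≤ 4 * Cv ^ 2 * ((6 / 5) * (1 / 2) * (289 / 256)) ^ j := by
                gcongr; norm_num
            _ ≤ _ := by gcongr
      _ = w ^ 2 := by
          rw [hw, mul_pow, mul_pow, ← pow_mul, ← pow_mul, mul_comm 2 j]; ring
  -- the bilinear part
  have hI : R ≤ 2 ^ (16 * l + 18) * K := by
    have e1 : n < 2 ^ (l + 1) := Nat.lt_pow_succ_log_self (by norm_num) n
    calc R = 4 * n ^ 16 := hR
      _ ≤ 4 * (2 ^ (l + 1)) ^ 16 := by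
          apply Nat.mul_le_mul_left
          exact Nat.pow_le_pow_left e1.le 16
      _ = 2 ^ (16 * l + 18) * 1 := by
          rw [← pow_mul, mul_one, show (4 : ℕ) = 2 ^ 2 by norm_num, ← pow_add]; ring_nf
      _ ≤ _ := Nat.mul_le_mul_left _ (by omega)
  have hKM : (12 : ℝ) * l ^ 40 * 8 ≤ (M : ℝ) ^ 2 := by
    calc (12 : ℝ) * l ^ 40 * 8 ≤ l ^ 2 * l ^ 40 * l := by
          have : (12 : ℝ) ≤ l ^ 2 :=
            le_trans (by linarith) (le_self_pow₀ (by linarith : (1 : ℝ) ≤ l) (by norm_num))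
          have h8 : (8 : ℝ) ≤ l := by linarith
          gcongr
      _ = (l : ℝ) ^ 43 := by ring
      _ ≤ (l : ℝ) ^ 100 := pow_le_pow_right₀ (by linarith) (by norm_num)
      _ ≤ M := hMl
      _ ≤ (M : ℝ) ^ 2 := le_self_pow₀ (by exact_mod_cast hM1) (by norm_num)
  have hMR0 : (1 : ℝ) ≤ M := by exact_mod_cast hM1
  have hMD : (M : ℝ) ^ 2 * q + 1 ≤ μ * (2 : ℝ) ^ (2 ^ J) / (2 * K) := by
    rw [hZ]
    have e1 : (M : ℝ) ^ 2 * q + 1 ≤ 2 * (M : ℝ) ^ 2 * S := by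
      have : (1 : ℝ) ≤ (M : ℝ) ^ 2 * S := by
        exact one_le_mul_of_one_le_of_one_le (one_le_pow₀ hMR0) (hq'.trans hqS)
      have : (M : ℝ) ^ 2 * q ≤ (M : ℝ) ^ 2 * S := by gcongr
      linarith
    refine e1.trans ?_
    rw [le_div_iff₀ (by positivity)]
    have e2 : 2 * (K : ℝ) ≤ μ * (2 * K + X * ‖β‖) := by
      rw [div_le_iff₀ (by positivity)] at hμlow; exact hμlow
    have e3 : (X : ℝ) * ‖β‖ ≤ 6 * S := by
      have : (X : ℝ) = 6 * T := by rw [hX]; push_cast; ring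
      rw [this]; linarith
    have e4 : 2 * (K : ℝ) + X * ‖β‖ ≤ 2 * l ^ 20 + 12 * l ^ 20 := by linarith
    have hl20 : (0 : ℝ) < l ^ 20 := by positivity
    have e5 : 2 * (K : ℝ) ≤ μ * (2 * (l : ℝ) ^ 20 + 12 * (l : ℝ) ^ 20) :=
      e2.trans (mul_le_mul_of_nonneg_left e4 hμ0.le)
    have e6 : 2 * (M : ℝ) ^ 2 * S ≤ 2 * (M : ℝ) ^ 2 * (2 * (l : ℝ) ^ 20) :=
      mul_le_mul_of_nonneg_left hSl (by positivity)
    calc 2 * (M : ℝ) ^ 2 * S * (2 * K) ≤ 2 * (M : ℝ) ^ 2 * (2 * (l : ℝ) ^ 20) *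
          (μ * (2 * (l : ℝ) ^ 20 + 12 * (l : ℝ) ^ 20)) :=
          mul_le_mul e6 e5 (by positivity) (by positivity)
      _ = μ * ((M : ℝ) ^ 2 * (56 * (l : ℝ) ^ 40)) := by ring
      _ ≤ μ * ((M : ℝ) ^ 2 * (12 * (l : ℝ) ^ 40 * 8)) := by
          have : (56 : ℝ) * (l : ℝ) ^ 40 ≤ 12 * (l : ℝ) ^ 40 * 8 := by
            have : (0 : ℝ) < (l : ℝ) ^ 40 := by positivity
            linarith
          gcongr
      _ ≤ μ * ((M : ℝ) ^ 2 * (M : ℝ) ^ 2) := by gcongr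
      _ = _ := by ring
  have hB := bilin_BT hBH (16 * l + 18) M
    (by
      have : (K : ℝ) ≤ (2 : ℝ) ^ (2 ^ J) := by
        rw [hZ]
        calc (K : ℝ) ≤ l ^ 20 := hKl
          _ ≤ (l : ℝ) ^ 100 := pow_le_pow_right₀ (by linarith) (by norm_num)
          _ ≤ M := hMl
          _ ≤ (M : ℝ) ^ 4 := le_self_pow₀ hMR0 (by norm_num)
      exact_mod_cast this)
    hI hTX hM1
    (by
      rw [p4]
      exact Nat.le_self_pow (by norm_num) M)
    hMD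
    (by
      rw [hR, hX, hT]
      have : n ≤ n ^ 16 := Nat.le_self_pow (by norm_num) n
      have h16 : 1 ≤ n ^ 16 := Nat.one_le_pow _ _ (by omega)
      calc (M ^ 2 + 1) * (4 * n ^ 16) ≤ (n ^ 16 + n ^ 16) * (4 * n ^ 16) :=
            Nat.mul_le_mul_right _ (Nat.add_le_add (hM2'.trans this) h16)
        _ = 8 * n ^ 32 := by ring
        _ ≤ _ := by omega)
    (by
      rw [hR, hT]
      have hKn : K ≤ n := by
        have : (K : ℝ) ≤ n := hKl.trans (hlpow 20 (by norm_num))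
        exact_mod_cast this
      calc M ^ 2 * (4 * n ^ 16 * K) ≤ n * (4 * n ^ 16 * n) := by gcongr
        _ = 4 * n ^ 18 := by ring
        _ ≤ n ^ 14 * n ^ 18 := by
            apply Nat.mul_le_mul_right
            calc 4 ≤ n ^ 1 := by rw [pow_one]; omega
              _ ≤ n ^ 14 := Nat.pow_le_pow_right (by omega) (by norm_num)
        _ = n ^ 32 := by ring
        _ ≤ _ := by omega)
    (by
      have e1 : (R : ℝ) * ‖β‖ ≤ 4 * (l : ℝ) ^ 20 / (n : ℝ) ^ 16 := by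
        rw [le_div_iff₀ (by positivity), hRR]
        have : (T : ℝ) * ‖β‖ ≤ 2 * (l : ℝ) ^ 20 := hTβ.trans hSl
        rw [hTR] at this
        calc 4 * (n : ℝ) ^ 16 * ‖β‖ * (n : ℝ) ^ 16 = 2 * (2 * (n : ℝ) ^ 32 * ‖β‖) := by ring
          _ ≤ 2 * (2 * (l : ℝ) ^ 20) := by linarith
          _ = _ := by ring
      have e2 : (q : ℝ) ≤ 2 * (l : ℝ) ^ 20 := hqS.trans hSl
      have e3 : (0 : ℝ) < (n : ℝ) ^ 16 := by positivity
      push_cast
      calc ((q : ℝ) * M) ^ 2 * (1 / (2 * (n : ℝ) ^ 16) + 2 * (R * ‖β‖))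
          ≤ ((2 * (l : ℝ) ^ 20) * M) ^ 2 *
            (1 / (2 * (n : ℝ) ^ 16) + 2 * (4 * (l : ℝ) ^ 20 / (n : ℝ) ^ 16)) := by
            gcongr
        _ = (4 * (l : ℝ) ^ 40 * (M : ℝ) ^ 2) * (1 / 2 + 8 * (l : ℝ) ^ 20) / (n : ℝ) ^ 16 := by
            field_simp; ring
        _ ≤ (4 * (l : ℝ) ^ 40 * n) * (9 * (l : ℝ) ^ 20) / (n : ℝ) ^ 16 := by
            have : (1 : ℝ) ≤ (l : ℝ) ^ 20 := one_le_pow₀ (by linarith)
            have h9 : (1 : ℝ) / 2 + 8 * (l : ℝ) ^ 20 ≤ 9 * (l : ℝ) ^ 20 := by linarith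
            gcongr
        _ = 36 * (l : ℝ) ^ 60 * n / (n : ℝ) ^ 16 := by ring
        _ ≤ (l : ℝ) ^ 2 * (l : ℝ) ^ 60 * n / (n : ℝ) ^ 16 := by
            have : (36 : ℝ) ≤ (l : ℝ) ^ 2 :=
              le_trans (by linarith) (le_self_pow₀ (by linarith : (1 : ℝ) ≤ l) (by norm_num))
            gcongr
        _ = (l : ℝ) ^ 62 * n / (n : ℝ) ^ 16 := by ring
        _ ≤ (n : ℝ) * n / (n : ℝ) ^ 16 := by
            have := hlpow 62 (by norm_num)
            gcongr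
        _ < 1 := by
            rw [div_lt_one e3]
            calc (n : ℝ) * n = (n : ℝ) ^ 2 := by ring
              _ < (n : ℝ) ^ 16 := pow_lt_pow_right₀ (by linarith) (by norm_num))
    w hw0 hww
  set Bs := ∑ p ∈ PR J R, ‖nsum (Mset T X p) (cI J R) (p • (α + β))‖ with hBs
  have hBs0 : 0 ≤ Bs := sum_nonneg fun _ _ => norm_nonneg _
  have hjp : (0 : ℝ) < 4 * (j : ℝ) + 7 := by positivity
  have h78pos : (0 : ℝ) < (7 / 8) ^ j := by positivity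
  have h67pos : (0 : ℝ) < (6 / 7) ^ j := by positivity
  have hn16 : (n : ℝ) ^ 16 ≤ (n : ℝ) ^ 32 * (6 / 7) ^ j := by
    have e1 : (1 / 2 : ℝ) ^ j ≤ (6 / 7) ^ j := pow_le_pow_left₀ (by norm_num) (by norm_num) j
    have e2 : 1 ≤ (n : ℝ) ^ 16 * (6 / 7) ^ j := by
      calc (1 : ℝ) = (1 / 2 : ℝ) ^ j * 2 ^ j := by rw [← mul_pow]; norm_num
        _ ≤ (6 / 7) ^ j * n := by
            gcongr
            exact hjl'.trans (hlpow 20 (by norm_num))
        _ ≤ (6 / 7) ^ j * (n : ℝ) ^ 16 := by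
            gcongr
            exact le_self_pow₀ (by linarith) (by norm_num)
        _ = _ := by ring
    calc (n : ℝ) ^ 16 = (n : ℝ) ^ 16 * 1 := by ring
      _ ≤ (n : ℝ) ^ 16 * ((n : ℝ) ^ 16 * (6 / 7) ^ j) := by gcongr
      _ = _ := by ring
  have hbil : l * Bs ≤ 102 * (13488 * Cv + 9072 + 5184) * Cp * n ^ 32 * (7 / 8) ^ j := by
    -- lower bound for log M
    have e1 : (l : ℝ) / (2 * (4 * j + 7)) ≤ Real.log M := by
      rw [hM, log_Mp, div_le_iff₀ (by positivity)]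
      have e2 : (l : ℝ) ≤ 2 ^ (J - 2) * (4 * j + 7) := by exact_mod_cast p3
      have e3 : (1 : ℝ) / 2 ≤ Real.log 2 := by
        have := Real.log_two_gt_d9; linarith
      calc (l : ℝ) ≤ 2 ^ (J - 2) * (4 * j + 7) := e2
        _ = 2 ^ (J - 2) * (1 / 2) * (2 * (4 * j + 7)) := by ring
        _ ≤ 2 ^ (J - 2) * Real.log 2 * (2 * (4 * j + 7)) := by gcongr
    have e2 : ((l : ℝ) / (2 * (4 * j + 7))) ^ 2 * Bs ≤
        (16 * l + 18) * (562 * (12 * n ^ 32) * w + 324 * ((14 * n ^ 32) * (2 * (6 / 7) ^ j) +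
          16 * n ^ 16)) := by
      calc ((l : ℝ) / (2 * (4 * j + 7))) ^ 2 * Bs ≤ Real.log M ^ 2 * Bs := by gcongr
        _ ≤ _ := hB
        _ = (16 * l + 18) * (562 * (12 * n ^ 32) * w + 324 * ((14 * n ^ 32) * (1 / K) +
          16 * n ^ 16)) := by
            rw [hXR, hTR, hRR]; push_cast; ring
        _ ≤ _ := by gcongr
    have e3 : w ≤ 2 * Cv * (6 / 7) ^ j := by
      rw [hw]
      have : (5 / 6 : ℝ) ^ j ≤ (6 / 7) ^ j := pow_le_pow_left₀ (by norm_num) (by norm_num) j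
      gcongr
    have e4 : (16 * (l : ℝ) + 18) ≤ 17 * l := by linarith
    have e5 : ((l : ℝ) / (2 * (4 * j + 7))) ^ 2 * Bs ≤
        17 * l * ((13488 * Cv + 9072 + 5184) * n ^ 32 * (6 / 7) ^ j) := by
      refine e2.trans ?_
      calc (16 * (l : ℝ) + 18) * (562 * (12 * n ^ 32) * w + 324 * ((14 * n ^ 32) * (2 * (6 / 7) ^ j) +
          16 * n ^ 16))
          ≤ 17 * l * (562 * (12 * n ^ 32) * (2 * Cv * (6 / 7) ^ j) +
            324 * ((14 * n ^ 32) * (2 * (6 / 7) ^ j) + 16 * (n ^ 32 * (6 / 7) ^ j))) := by gcongr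
        _ = 17 * l * ((13488 * Cv + 9072 + 5184) * n ^ 32 * (6 / 7) ^ j) := by ring
    have e6 : l * Bs ≤ 68 * (4 * j + 7) ^ 2 * ((13488 * Cv + 9072 + 5184) * n ^ 32 * (6 / 7) ^ j) := by
      have h0 : (0 : ℝ) < l := by linarith
      have e7 : ((l : ℝ) / (2 * (4 * j + 7))) ^ 2 * Bs = l * (l * Bs) / (4 * (4 * j + 7) ^ 2) := by
        field_simp
        ring
      rw [e7, div_le_iff₀ (by positivity)] at e5
      have e8 : (l : ℝ) * (l * Bs) ≤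
          l * (68 * (4 * j + 7) ^ 2 * ((13488 * Cv + 9072 + 5184) * n ^ 32 * (6 / 7) ^ j)) := by
        refine e5.trans (le_of_eq ?_); ring
      exact le_of_mul_le_mul_left e8 h0
    refine e6.trans ?_
    have e7 := hCp j
    calc 68 * (4 * (j : ℝ) + 7) ^ 2 * ((13488 * Cv + 9072 + 5184) * n ^ 32 * (6 / 7) ^ j)
        = 68 * (13488 * Cv + 9072 + 5184) * n ^ 32 * ((4 * (j : ℝ) + 7) ^ 2 * (6 / 7) ^ j) := by
          ring
      _ ≤ 68 * (13488 * Cv + 9072 + 5184) * n ^ 32 * (Cp * (7 / 8) ^ j) := by gcongr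
      _ ≤ 102 * (13488 * Cv + 9072 + 5184) * n ^ 32 * (Cp * (7 / 8) ^ j) := by
          gcongr; norm_num
      _ = _ := by ring
  -- the rough part
  have hrough := hn1 j hjl α β q hq hq0 hqn hβ (2 ^ j) ((3 / 5) ^ j) (by positivity) (by positivity)
    (by
      rw [← pow_mul, ← pow_mul, mul_comm j 4, mul_comm j 3, pow_mul, pow_mul, ← mul_pow]
      exact one_le_pow₀ (by norm_num)) hS1
  have hVle : (l : ℝ) * (V (PJ J))⁻¹ ≤ 4 * j + 7 := by
    have hVpos : 0 < V (PJ J) := V_pos (fun p hp => PJ_prime hp)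
    rw [← div_eq_mul_inv, div_le_iff₀ hVpos]
    have e1 := V_PJ_ge J
    have e2 : (l : ℝ) ≤ 2 ^ (J - 2) * (4 * j + 7) := by exact_mod_cast p3
    have e3 : (1 : ℝ) / 2 ≤ Real.log 2 := by
      have := Real.log_two_gt_d9; linarith
    have e4 : (2 : ℝ) ^ J = 2 ^ (J - 2) * 4 := by
      rw [show (4 : ℝ) = 2 ^ 2 by norm_num, ← pow_add]; congr 1; omega
    have e5 : (2 : ℝ) ^ (J - 2) ≤ V (PJ J) := by
      rw [e4] at e1
      have e6 : (2 : ℝ) ^ (J - 2) * (1 / 2) ≤ 2 ^ (J - 2) * Real.log 2 :=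
        mul_le_mul_of_nonneg_left e3 (by positivity)
      linarith
    calc (l : ℝ) ≤ 2 ^ (J - 2) * (4 * j + 7) := e2
      _ ≤ V (PJ J) * (4 * j + 7) := by gcongr
      _ = _ := by ring
  have hrough2 : l * ‖nsum (Ioc T X) (roughI J) (α + β)‖ ≤
      (4 * Cr * Cp + 100) * n ^ 32 * (7 / 8) ^ j := by
    have hVpos : 0 < (V (PJ J))⁻¹ := inv_pos.2 (V_pos (fun p hp => PJ_prime hp))
    have e1 : (3 / 5 : ℝ) ^ j ≤ (6 / 7) ^ j := pow_le_pow_left₀ (by norm_num) (by norm_num) j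
    have e2 : ((256 : ℝ) ^ j)⁻¹ ≤ (6 / 7) ^ j := by
      rw [← inv_pow]; exact pow_le_pow_left₀ (by norm_num) (by norm_num) j
    have e3 : (l : ℝ) * n ^ 24 ≤ n ^ 32 * (7 / 8) ^ j := by
      have f1 : (1 / 2 : ℝ) ^ j ≤ (7 / 8) ^ j := pow_le_pow_left₀ (by norm_num) (by norm_num) j
      have f2 : 1 ≤ (n : ℝ) * (7 / 8) ^ j := by
        calc (1 : ℝ) = (1 / 2 : ℝ) ^ j * 2 ^ j := by rw [← mul_pow]; norm_num
          _ ≤ (7 / 8) ^ j * n := by
              gcongr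
              exact hjl'.trans (hlpow 20 (by norm_num))
          _ = _ := by ring
      have f3 : (l : ℝ) ≤ n := by
        have := hlpow 1 (by norm_num); simpa using this
      have f4 : (0 : ℝ) < (n : ℝ) * (n : ℝ) ^ 24 := by positivity
      calc (l : ℝ) * (n : ℝ) ^ 24 ≤ (n : ℝ) * (n : ℝ) ^ 24 := by gcongr
        _ ≤ (n : ℝ) * (n : ℝ) ^ 24 * ((n : ℝ) * (7 / 8) ^ j) := le_mul_of_one_le_right f4.le f2
        _ = (n : ℝ) ^ 26 * (7 / 8) ^ j := by ring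
        _ ≤ _ := by
            have : (n : ℝ) ^ 26 ≤ (n : ℝ) ^ 32 := pow_le_pow_right₀ (by linarith) (by norm_num)
            gcongr
    calc l * ‖nsum (Ioc T X) (roughI J) (α + β)‖
        ≤ l * (Cr * (V (PJ J))⁻¹ * n ^ 32 * ((3 / 5) ^ j + (256 ^ j)⁻¹) + 100 * n ^ 24) := by
          gcongr
      _ = (l * (V (PJ J))⁻¹) * (Cr * n ^ 32 * ((3 / 5) ^ j + (256 ^ j)⁻¹)) +
          100 * (l * n ^ 24) := by ring
      _ ≤ (4 * j + 7) * (Cr * n ^ 32 * ((6 / 7) ^ j + (6 / 7) ^ j)) +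
          100 * (n ^ 32 * (7 / 8) ^ j) := by gcongr
      _ = 2 * Cr * n ^ 32 * ((4 * j + 7) * (6 / 7) ^ j) + 100 * (n ^ 32 * (7 / 8) ^ j) := by ring
      _ ≤ 2 * Cr * n ^ 32 * (Cp * (7 / 8) ^ j) + 100 * (n ^ 32 * (7 / 8) ^ j) := by
          have : (4 * (j : ℝ) + 7) * (6 / 7) ^ j ≤ Cp * (7 / 8) ^ j := by
            refine le_trans ?_ (hCp j)
            have h0 : (0 : ℝ) ≤ j := Nat.cast_nonneg j
            have h9 : 4 * (j : ℝ) + 7 ≤ (4 * (j : ℝ) + 7) ^ 2 :=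
              le_self_pow₀ (by linarith) (by norm_num)
            exact mul_le_mul_of_nonneg_right h9 h67pos.le
          gcongr
      _ ≤ _ := by
          have : 0 ≤ 2 * Cr * n ^ 32 * (Cp * (7 / 8) ^ j) := by positivity
          linarith
  -- the last term
  have hlast : (l : ℝ) * (X / (2 : ℝ) ^ (2 ^ J)) ≤ 12 * n ^ 32 * (7 / 8) ^ j := by
    rw [hXR, hZ]
    have f1 : (1 / 2 : ℝ) ^ j ≤ (7 / 8) ^ j := pow_le_pow_left₀ (by norm_num) (by norm_num) j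
    have e1 : (l : ℝ) * 2 ^ j ≤ (M : ℝ) ^ 4 := by
      calc (l : ℝ) * 2 ^ j ≤ l * l ^ 20 := by gcongr
        _ = (l : ℝ) ^ 21 := by ring
        _ ≤ (l : ℝ) ^ 100 := pow_le_pow_right₀ (by linarith) (by norm_num)
        _ ≤ M := hMl
        _ ≤ (M : ℝ) ^ 4 := le_self_pow₀ hMR0 (by norm_num)
    have e2 : (0 : ℝ) < (M : ℝ) ^ 4 := by positivity
    calc (l : ℝ) * (12 * (n : ℝ) ^ 32 / (M : ℝ) ^ 4) = 12 * (n : ℝ) ^ 32 * (l / (M : ℝ) ^ 4) := by
          ring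
      _ ≤ 12 * (n : ℝ) ^ 32 * (1 / 2) ^ j := by
          have : (l : ℝ) / (M : ℝ) ^ 4 ≤ (1 / 2) ^ j := by
            rw [div_le_iff₀ e2, div_pow, one_pow, div_mul_eq_mul_div, one_mul,
              le_div_iff₀ (by positivity)]
            exact e1
          gcongr
      _ ≤ _ := by gcongr
  have hdec := decomp J R T X
    (by
      rw [p4, hR]
      calc M ^ 4 ≤ n ^ 2 := p6
        _ ≤ n ^ 16 := Nat.pow_le_pow_right (by omega) (by norm_num)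
        _ ≤ _ := by omega)
    (by
      rw [hR, hT]
      calc 4 * n ^ 16 ≤ n ^ 16 * n ^ 16 := by
            apply Nat.mul_le_mul_right
            calc 4 ≤ n ^ 1 := by rw [pow_one]; omega
              _ ≤ n ^ 16 := Nat.pow_le_pow_right (by omega) (by norm_num)
        _ = n ^ 32 := by ring
        _ ≤ _ := by omega)
    (by
      rw [hX, hT, hR]
      calc 6 * (2 * n ^ 32) < 16 * n ^ 32 := by
            have : 0 < n ^ 32 := by positivity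
            omega
        _ = (4 * n ^ 16) ^ 2 := by ring
        _ ≤ _ := Nat.pow_le_pow_left (by omega) 2) (α + β)
  calc l * ‖nsum (Ioc T X) vI (α + β)‖
      ≤ l * (‖nsum (Ioc T X) (roughI J) (α + β)‖ + Bs + X / (2 : ℝ) ^ (2 ^ J)) := by gcongr
    _ = l * ‖nsum (Ioc T X) (roughI J) (α + β)‖ + l * Bs + l * (X / (2 : ℝ) ^ (2 ^ J)) := by ring
    _ ≤ (4 * Cr * Cp + 100) * n ^ 32 * (7 / 8) ^ j +
        102 * (13488 * Cv + 9072 + 5184) * Cp * n ^ 32 * (7 / 8) ^ j +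
        12 * n ^ 32 * (7 / 8) ^ j := by gcongr
    _ = _ := by rw [hCst]; ring

end LSieve
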