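import Pool.Agent.LibVinogradov.SupRough
import Pool.Agent.LibVinogradov.SupAux

/-!
# Minor arcs
-/

namespace LSieve

open Finset Filter Topology

/-- Minor arcs: saving of a power of the logarithm. -/
theorem sup_large : ∃ C : ℝ, 0 < C ∧ ∀ᶠ n : ℕ in atTop, ∀ (α β : UnitAddCircle) (q : ℕ),
    addOrderOf α = q → 0 < q → q ≤ n ^ 16 → ‖β‖ ≤ 1 / (q * (((n ^ 16 : ℕ) : ℝ) + 1)) →
    ((Nat.log 2 n : ℕ) : ℝ) ^ 20 ≤ q * (1 + ((2 * n ^ 32 : ℕ) : ℝ) * ‖β‖) →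
    ((Nat.log 2 n : ℕ) : ℝ) ^ 3 *
      ‖nsum (Ioc (2 * n ^ 32) (6 * (2 * n ^ 32))) vI (α + β)‖ ≤ C * n ^ 32 := by
  obtain ⟨Cr, hCr1, hCr⟩ := rough_part
  refine ⟨2 * Cr + 100 + 7854 + 12, by positivity, ?_⟩
  filter_upwards [hCr, params, growth, eventually_ge_atTop 8] with n hn1 hn2 hn3 hn8 α β q hq hq0
    hqn hβ hS1
  obtain ⟨hl64, hl200⟩ := hn3
  set l := Nat.log 2 n with hl
  set b := Nat.log 2 l + 1 with hb
  have hl' : (64 : ℝ) ≤ l := by exact_mod_cast hl64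
  have hlb : l < 2 ^ b := Nat.lt_pow_succ_log_self (by norm_num) l
  have hb2 : 2 ^ b ≤ 2 * l := by
    rw [hb, pow_succ, mul_comm]
    exact Nat.mul_le_mul_left _ (Nat.pow_log_le_self 2 (by omega))
  have hbl : 2 ^ b ≤ l ^ 20 := by
    refine hb2.trans ?_
    calc 2 * l ≤ l * l := Nat.mul_le_mul_right _ (by omega)
      _ = l ^ 2 := by ring
      _ ≤ l ^ 20 := Nat.pow_le_pow_right (by omega) (by norm_num)
  obtain ⟨p1, p2, p3, p4, p5, p6, p7⟩ := hn2 b hbl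
  set J := Jp l b with hJ
  set M := Mp l b with hM
  set T := 2 * n ^ 32 with hT
  set X := 6 * T with hX
  set R := 4 * n ^ 16 with hR
  set K := 2 ^ (4 * b) with hK
  have hn' : (8 : ℝ) ≤ n := by exact_mod_cast hn8
  have hq' : (1 : ℝ) ≤ q := by exact_mod_cast hq0
  have hTpos : 0 < T := by positivity
  have hTX : T ≤ X := by omega
  have hβ0 := norm_nonneg β
  have hTR : (T : ℝ) = 2 * (n : ℝ) ^ 32 := by rw [hT]; push_cast; ring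
  have hXR : (X : ℝ) = 12 * (n : ℝ) ^ 32 := by rw [hX]; push_cast; rw [hTR]; ring
  have hRR : (R : ℝ) = 4 * (n : ℝ) ^ 16 := by rw [hR]; push_cast; ring
  have hKpow : K = (2 ^ b) ^ 4 := by rw [hK, ← pow_mul]; ring_nf
  have hKge : (l : ℝ) ^ 4 ≤ K := by
    have : l ^ 4 ≤ K := by rw [hKpow]; exact Nat.pow_le_pow_left hlb.le 4
    exact_mod_cast this
  have hKle : (K : ℝ) ≤ 16 * (l : ℝ) ^ 4 := by
    have : K ≤ (2 * l) ^ 4 := by rw [hKpow]; exact Nat.pow_le_pow_left hb2 4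
    have h2 : (K : ℝ) ≤ (((2 * l) ^ 4 : ℕ) : ℝ) := by exact_mod_cast this
    push_cast at h2
    calc (K : ℝ) ≤ (2 * (l : ℝ)) ^ 4 := h2
      _ = _ := by ring
  have hK8 : 8 ≤ K := by
    rw [hK]
    calc 8 = 2 ^ 3 := by norm_num
      _ ≤ _ := Nat.pow_le_pow_right (by norm_num) (by omega)
  have hl0 : (0 : ℝ) < l := by linarith
  have hlpow : ∀ k : ℕ, k ≤ 200 → (l : ℝ) ^ k ≤ n := by
    intro k hk
    calc (l : ℝ) ^ k ≤ (l : ℝ) ^ 200 := pow_le_pow_right₀ (by linarith) hk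
      _ ≤ n := by exact_mod_cast hl200
  have hMl : (l : ℝ) ^ 100 ≤ M := by exact_mod_cast p5
  have hM1 : 1 ≤ M := le_trans (Nat.one_le_pow _ _ (by omega)) p5
  have hMR0 : (1 : ℝ) ≤ M := by exact_mod_cast hM1
  have hZ : ((2 : ℝ) ^ (2 ^ J)) = (M : ℝ) ^ 4 := by exact_mod_cast p4
  have hM4 : (l : ℝ) ^ 100 ≤ (M : ℝ) ^ 4 := hMl.trans (le_self_pow₀ hMR0 (by norm_num))
  obtain ⟨μ, hμ0, hμ1, hμ, hμq, hμlow⟩ := exists_mu T X K q rfl hTpos (by omega) hq0 β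
  have hBH : BH α β q (n ^ 16) J R T X K μ := by
    refine ⟨hq, hq0, hqn, hβ, by omega, ?_, ?_, hμ0, hμ1, hμ⟩
    · rw [hX, hT, hR]
      calc 2 * n ^ 16 * (4 * n ^ 16) = 8 * n ^ 32 := by ring
        _ ≤ _ := by omega
    · rw [hR]
      calc 2 * (4 * n ^ 16) = 8 * n ^ 16 := by ring
        _ ≤ K * (n ^ 16 + 1) := Nat.mul_le_mul hK8 (by omega)
  have hw : 2 * μ / q + 2 * K / (2 : ℝ) ^ (2 ^ J) ≤ (12 / (l : ℝ) ^ 8) ^ 2 := by
    have e1 : 2 * μ / q ≤ 96 / (l : ℝ) ^ 16 := by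
      calc 2 * μ / q = 2 * (μ / q) := by ring
        _ ≤ 2 * (3 * K / (q * (1 + T * ‖β‖))) := by gcongr
        _ ≤ 2 * (3 * (16 * (l : ℝ) ^ 4) / (l : ℝ) ^ 20) := by gcongr
        _ = _ := by field_simp; ring
    have e2 : 2 * K / (2 : ℝ) ^ (2 ^ J) ≤ 32 / (l : ℝ) ^ 16 := by
      rw [hZ]
      calc 2 * (K : ℝ) / (M : ℝ) ^ 4 ≤ 2 * (16 * (l : ℝ) ^ 4) / (l : ℝ) ^ 100 := by gcongr
        _ ≤ 2 * (16 * (l : ℝ) ^ 4) / (l : ℝ) ^ 20 := by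
            have : (l : ℝ) ^ 20 ≤ (l : ℝ) ^ 100 := pow_le_pow_right₀ (by linarith) (by norm_num)
            gcongr
        _ = _ := by field_simp; norm_num
    have e3 : (12 / (l : ℝ) ^ 8) ^ 2 = 144 / (l : ℝ) ^ 16 := by rw [div_pow, ← pow_mul]; norm_num
    rw [e3]
    calc 2 * μ / q + 2 * K / (2 : ℝ) ^ (2 ^ J) ≤ 96 / (l : ℝ) ^ 16 + 32 / (l : ℝ) ^ 16 :=
          add_le_add e1 e2
      _ = 128 / (l : ℝ) ^ 16 := by rw [← add_div]; norm_num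
      _ ≤ _ := by gcongr; norm_num
  have hI : R ≤ 2 ^ (16 * l + 18) * K := by
    have e1 : n < 2 ^ (l + 1) := Nat.lt_pow_succ_log_self (by norm_num) n
    calc R = 4 * n ^ 16 := hR
      _ ≤ 4 * (2 ^ (l + 1)) ^ 16 := by
          apply Nat.mul_le_mul_left
          exact Nat.pow_le_pow_left e1.le 16
      _ = 2 ^ (16 * l + 18) * 1 := by
          rw [← pow_mul, mul_one, show (4 : ℕ) = 2 ^ 2 by norm_num, ← pow_add]; ring_nf
      _ ≤ _ := Nat.mul_le_mul_left _ (by omega)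
  have hB := bilin_int hBH (16 * l + 18)
    (by
      have e2 : (K : ℝ) ≤ (2 : ℝ) ^ (2 ^ J) := by
        rw [hZ]
        calc (K : ℝ) ≤ 16 * (l : ℝ) ^ 4 := hKle
          _ ≤ (l : ℝ) * (l : ℝ) ^ 4 := by
              have : (16 : ℝ) ≤ l := by linarith
              gcongr
          _ = (l : ℝ) ^ 5 := by ring
          _ ≤ (l : ℝ) ^ 100 := pow_le_pow_right₀ (by linarith) (by norm_num)
          _ ≤ (M : ℝ) ^ 4 := hM4
      exact_mod_cast e2)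
    hI (12 / (l : ℝ) ^ 8) (by positivity) hw
  set Bs := ∑ p ∈ PR J R, ‖nsum (Mset T X p) (cI J R) (p • (α + β))‖ with hBs
  have hBs0 : 0 ≤ Bs := sum_nonneg fun _ _ => norm_nonneg _
  have hbil : (l : ℝ) ^ 3 * Bs ≤ 7854 * (n : ℝ) ^ 32 := by
    have e1 : Bs ≤ 17 * l * (432 * (n : ℝ) ^ 32 / (l : ℝ) ^ 8 + 14 * (n : ℝ) ^ 32 / (l : ℝ) ^ 4 +
        16 * (n : ℝ) ^ 16) := by
      refine hB.trans ?_
      push_cast
      calc (16 * (l : ℝ) + 18) * (3 * X * (12 / (l : ℝ) ^ 8) + (T + X) / K + 4 * R)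
          ≤ 17 * l * (3 * X * (12 / (l : ℝ) ^ 8) + (T + X) / (l : ℝ) ^ 4 + 4 * R) := by
            have : (16 * (l : ℝ) + 18) ≤ 17 * l := by linarith
            gcongr
        _ = _ := by rw [hXR, hTR, hRR]; ring
    have e2 : (l : ℝ) ^ 4 ≤ (n : ℝ) ^ 16 := by
      calc (l : ℝ) ^ 4 ≤ n := hlpow 4 (by norm_num)
        _ ≤ (n : ℝ) ^ 16 := le_self_pow₀ (by linarith) (by norm_num)
    have e3 : 1 / (l : ℝ) ^ 4 ≤ 1 := by
      rw [div_le_one (by positivity)]; exact one_le_pow₀ (by linarith)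
    calc (l : ℝ) ^ 3 * Bs ≤ (l : ℝ) ^ 3 * (17 * l * (432 * (n : ℝ) ^ 32 / (l : ℝ) ^ 8 +
        14 * (n : ℝ) ^ 32 / (l : ℝ) ^ 4 + 16 * (n : ℝ) ^ 16)) := by gcongr
      _ = 17 * (432 * (n : ℝ) ^ 32 * (1 / (l : ℝ) ^ 4) + 14 * (n : ℝ) ^ 32 +
          16 * ((n : ℝ) ^ 16 * (l : ℝ) ^ 4)) := by field_simp
      _ ≤ 17 * (432 * (n : ℝ) ^ 32 * 1 + 14 * (n : ℝ) ^ 32 +
          16 * ((n : ℝ) ^ 16 * (n : ℝ) ^ 16)) := by gcongr
      _ = _ := by ring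
  have hrough := hn1 b hbl α β q hq hq0 hqn hβ ((l : ℝ) ^ 20) (1 / (l : ℝ) ^ 15) (by positivity)
    (by positivity) (by
      rw [div_pow, one_pow, ← pow_mul, ← pow_mul, div_mul_eq_mul_div, one_mul,
        le_div_iff₀ (by positivity)]
      norm_num) hS1
  have hrough2 : (l : ℝ) ^ 3 * ‖nsum (Ioc T X) (roughI J) (α + β)‖ ≤
      (2 * Cr + 100) * (n : ℝ) ^ 32 := by
    have hVpos : 0 < (V (PJ J))⁻¹ := inv_pos.2 (V_pos (fun p hp => PJ_prime hp))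
    have hV1 : (V (PJ J))⁻¹ ≤ 1 := inv_le_one_of_one_le₀ (one_le_V (fun p hp => PJ_prime hp))
    have e1 : (l : ℝ) ^ 3 * (1 / (l : ℝ) ^ 15) ≤ 1 := by
      rw [mul_one_div, div_le_one (by positivity)]
      exact pow_le_pow_right₀ (by linarith) (by norm_num)
    have e2 : (l : ℝ) ^ 3 * ((256 : ℝ) ^ b)⁻¹ ≤ 1 := by
      rw [← div_eq_mul_inv, div_le_one (by positivity)]
      have : ((l : ℝ)) ≤ 2 ^ b := by exact_mod_cast hlb.le
      calc (l : ℝ) ^ 3 ≤ (2 ^ b) ^ 3 := by gcongr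
        _ = 8 ^ b := by rw [← pow_mul, mul_comm, pow_mul]; norm_num
        _ ≤ _ := pow_le_pow_left₀ (by norm_num) (by norm_num) b
    have e3 : (l : ℝ) ^ 3 * (n : ℝ) ^ 24 ≤ (n : ℝ) ^ 32 := by
      calc (l : ℝ) ^ 3 * (n : ℝ) ^ 24 ≤ n * (n : ℝ) ^ 24 := by
            have := hlpow 3 (by norm_num)
            gcongr
        _ = (n : ℝ) ^ 25 := by ring
        _ ≤ _ := pow_le_pow_right₀ (by linarith) (by norm_num)
    calc (l : ℝ) ^ 3 * ‖nsum (Ioc T X) (roughI J) (α + β)‖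
        ≤ (l : ℝ) ^ 3 * (Cr * (V (PJ J))⁻¹ * n ^ 32 * (1 / (l : ℝ) ^ 15 + (256 ^ b)⁻¹) +
          100 * n ^ 24) := by gcongr
      _ = Cr * (V (PJ J))⁻¹ * n ^ 32 * ((l : ℝ) ^ 3 * (1 / (l : ℝ) ^ 15) +
          (l : ℝ) ^ 3 * (256 ^ b)⁻¹) + 100 * ((l : ℝ) ^ 3 * n ^ 24) := by ring
      _ ≤ Cr * 1 * n ^ 32 * (1 + 1) + 100 * n ^ 32 := by gcongr
      _ = _ := by ring
  have hlast : (l : ℝ) ^ 3 * (X / (2 : ℝ) ^ (2 ^ J)) ≤ 12 * (n : ℝ) ^ 32 := by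
    rw [hXR, hZ]
    have e2 : (0 : ℝ) < (M : ℝ) ^ 4 := by positivity
    have e1 : (l : ℝ) ^ 3 / (M : ℝ) ^ 4 ≤ 1 := by
      rw [div_le_one e2]
      exact (pow_le_pow_right₀ (by linarith) (by norm_num)).trans hM4
    calc (l : ℝ) ^ 3 * (12 * (n : ℝ) ^ 32 / (M : ℝ) ^ 4) =
        12 * (n : ℝ) ^ 32 * ((l : ℝ) ^ 3 / (M : ℝ) ^ 4) := by ring
      _ ≤ 12 * (n : ℝ) ^ 32 * 1 := by gcongr
      _ = _ := by ring
  have hdec := decomp J R T X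
    (by
      rw [p4, hR]
      calc M ^ 4 ≤ n ^ 2 := p6
        _ ≤ n ^ 16 := Nat.pow_le_pow_right (by omega) (by norm_num)
        _ ≤ _ := by omega)
    (by
      rw [hR, hT]
      calc 4 * n ^ 16 ≤ n ^ 16 * n ^ 16 := by
            apply Nat.mul_le_mul_right
            calc 4 ≤ n ^ 1 := by rw [pow_one]; omega
              _ ≤ n ^ 16 := Nat.pow_le_pow_right (by omega) (by norm_num)
        _ = n ^ 32 := by ring
        _ ≤ _ := by omega)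
    (by
      rw [hX, hT, hR]
      calc 6 * (2 * n ^ 32) < 16 * n ^ 32 := by
            have : 0 < n ^ 32 := by positivity
            omega
        _ = (4 * n ^ 16) ^ 2 := by ring
        _ ≤ _ := Nat.pow_le_pow_left (by omega) 2) (α + β)
  calc (l : ℝ) ^ 3 * ‖nsum (Ioc T X) vI (α + β)‖
      ≤ (l : ℝ) ^ 3 * (‖nsum (Ioc T X) (roughI J) (α + β)‖ + Bs + X / (2 : ℝ) ^ (2 ^ J)) := by
        gcongr
    _ = (l : ℝ) ^ 3 * ‖nsum (Ioc T X) (roughI J) (α + β)‖ + (l : ℝ) ^ 3 * Bs +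
        (l : ℝ) ^ 3 * (X / (2 : ℝ) ^ (2 ^ J)) := by ring
    _ ≤ (2 * Cr + 100) * (n : ℝ) ^ 32 + 7854 * (n : ℝ) ^ 32 + 12 * (n : ℝ) ^ 32 := by gcongr
    _ = _ := by ring

end LSieve
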