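import Pool.Agent.LibVinogradov.Error3
import Pool.Agent.LibVinogradov.SupBound
import Pool.Agent.LibVinogradov.SupLarge

/-!
# The total error in the ternary problem is small
-/

namespace LSieve

open Finset Filter Topology

lemma log_n_le (n : ℕ) (hn : 1 ≤ n) : Real.log n ≤ (Nat.log 2 n : ℝ) + 1 := by
  have h1 : n < 2 ^ (Nat.log 2 n + 1) := Nat.lt_pow_succ_log_self (by norm_num) n
  have h2 : Real.log n ≤ Real.log ((2 ^ (Nat.log 2 n + 1) : ℕ) : ℝ) :=
    Real.log_le_log (by exact_mod_cast hn) (by exact_mod_cast h1.le)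
  refine h2.trans ?_
  push_cast
  rw [Real.log_pow]
  push_cast
  have h3 := Real.log_two_lt_d9
  have h4 : (0 : ℝ) ≤ (Nat.log 2 n : ℝ) + 1 := by positivity
  nlinarith

lemma ratio_sqrt (C : ℝ) (hC1 : 1 ≤ C) (hC : ∀ J : ℕ, V (primesTo (2 ^ J)) ≤ C * (17 / 16) ^ J)
    (q : ℕ) (hq0 : 0 < q) (s : ℝ) (hs : 0 < s) (hqs : (q : ℝ) ≤ s ^ 2) :
    (q : ℝ) / q.totient ≤ 2 * C * s := by
  set k := Nat.log 2 q with hk
  have h1 : q ≤ 2 ^ (k + 1) := (Nat.lt_pow_succ_log_self (by norm_num) q).le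
  have h2 : 2 ^ k ≤ q := Nat.pow_log_le_self 2 hq0.ne'
  have h3 : ((17 / 16 : ℝ) ^ k) ^ 2 ≤ s ^ 2 := by
    calc ((17 / 16 : ℝ) ^ k) ^ 2 = ((17 / 16) ^ 2) ^ k := by rw [← pow_mul, ← pow_mul, mul_comm]
      _ ≤ 2 ^ k := pow_le_pow_left₀ (by norm_num) (by norm_num) k
      _ ≤ q := by exact_mod_cast h2
      _ ≤ s ^ 2 := hqs
  have h4 : (17 / 16 : ℝ) ^ k ≤ s := le_of_sq_le_sq h3 hs.le
  calc (q : ℝ) / q.totient ≤ V (primesTo (2 ^ (k + 1))) := ratio_le_V hq0 h1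
    _ ≤ C * (17 / 16) ^ (k + 1) := hC _
    _ = C * (17 / 16) * (17 / 16) ^ k := by ring
    _ ≤ C * 2 * s := by gcongr; norm_num
    _ = _ := by ring

theorem error_bound3 (δ : ℝ) (hδ : 0 < δ) : ∃ w : ℕ, 1 ≤ w ∧ ∀ᶠ n : ℕ in atTop,
    ∀ P P' : Finset ℕ, Good n P → Good n P' →
    ∑ r ∈ range (8 * (4 * n ^ 32)), ‖FS P (pt (8 * (4 * n ^ 32)) r)‖ *
      ‖FS P' (pt (8 * (4 * n ^ 32)) r)‖ *
      ‖nsum (Ioc (2 * n ^ 32) (6 * (2 * n ^ 32))) (kT n w.factorial)
        (2 • pt (8 * (4 * n ^ 32)) r)‖ ≤ δ * (4 * (n : ℝ) ^ 32) ^ 3 := by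
  obtain ⟨C, hC1, hC⟩ := V_bound
  obtain ⟨Cm, hCm0, hCm⟩ := sup_moderate
  obtain ⟨Cl, hCl0, hCl⟩ := sup_large
  have hC0 : 0 < C := by linarith
  set CB : ℝ := 66 * Cm + 40 * C + 1 with hCB
  have hCB0 : 0 < CB := by positivity
  set Cst : ℝ := 7000 * C * (289 / 256) * CB / (1 - 119 / 128) with hCst
  have hCst0 : 0 < Cst := by
    rw [hCst]
    have : (0 : ℝ) < 1 - 119 / 128 := by norm_num
    positivity
  obtain ⟨j1, hj1⟩ : ∃ j : ℕ, Cst * (119 / 128 : ℝ) ^ j ≤ δ := by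
    have h1 : Tendsto (fun j : ℕ => Cst * (119 / 128 : ℝ) ^ j) atTop (𝓝 (Cst * 0)) :=
      (tendsto_pow_atTop_nhds_zero_of_lt_one (by norm_num) (by norm_num)).const_mul Cst
    rw [mul_zero] at h1
    exact (h1.eventually_le_const hδ).exists
  set j0 := max 12 j1 with hj0def
  have hj12 : 12 ≤ j0 := le_max_left _ _
  have hj0 : Cst * (119 / 128 : ℝ) ^ j0 ≤ δ :=
    (mul_le_mul_of_nonneg_left (pow_le_pow_of_le_one (by norm_num) (by norm_num)
      (le_max_right _ _)) hCst0.le).trans hj1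
  clear_value j0
  set w : ℕ := 2 ^ j0 with hw
  have hw1 : 1 ≤ w := Nat.one_le_two_pow
  refine ⟨w, hw1, ?_⟩
  set W := w.factorial with hWdef
  have hW : 0 < W := Nat.factorial_pos w
  set Vw : ℝ := V (primesTo w) with hVw
  have hVwW : (W : ℝ) / W.totient = Vw := factorial_ratio w
  have hVw1 : 1 ≤ Vw := one_le_V (fun p hp => (mem_primesTo.1 hp).2)
  have hVw0 : 0 < Vw := by linarith
  set V1 : ℝ := V (primesTo (2 ^ (j0 + 1))) with hV1
  have hV11 : 1 ≤ V1 := one_le_V (fun p hp => (mem_primesTo.1 hp).2)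
  have hV10 : 0 < V1 := by linarith
  set ε : ℝ := δ / (28000 * V1) with hε
  have hε0 : 0 < ε := by positivity
  set L0 : ℝ := (66 * Cl + 40 * C + 72 * (Vw * 2 ^ w)) * 60000 / δ + 37 * (Vw * 2 ^ w) with hL0
  have hTt : Tendsto (fun n : ℕ => 2 * n ^ 32) atTop atTop :=
    (tendsto_pow_atTop (α := ℕ) (show (32 : ℕ) ≠ 0 by norm_num)).const_mul_atTop' (by norm_num)
  have hsm := hTt.eventually (small_arc W hW (2 ^ j0) ε (by positivity) hε0)
  have hlgT : ∀ᶠ n : ℕ in atTop, 18 / ε ≤ Real.log ((2 * n ^ 32 : ℕ) : ℝ) :=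
    (Real.tendsto_log_atTop.comp (tendsto_natCast_atTop_atTop.comp hTt)).eventually_ge_atTop _
  have hlogt : Tendsto (fun n : ℕ => Nat.log 2 n) atTop atTop :=
    tendsto_atTop.2 (fun m => eventually_atTop.2
      ⟨2 ^ m, fun n hn => Nat.le_log_of_pow_le (by norm_num) hn⟩)
  have hlL : ∀ᶠ n : ℕ in atTop, L0 ≤ (Nat.log 2 n : ℝ) :=
    (tendsto_natCast_atTop_atTop.comp hlogt).eventually_ge_atTop _
  filter_upwards [hsm, hlgT, hlL, hCm, hCl, growth, eventually_ge_atTop 8,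
    eventually_ge_atTop (2 * W)] with n hsmn hlogTn hlLn hmn hln hgr hn8 hnW P P' hP hP'
  obtain ⟨hl64, hl200⟩ := hgr
  set l := Nat.log 2 n with hl
  set T := 2 * n ^ 32 with hT
  set M0 := 8 * (4 * n ^ 32) with hM0
  have hn : 2 ≤ n := by omega
  have hn8' : (8 : ℝ) ≤ n := by exact_mod_cast hn8
  have hn0 : (0 : ℝ) < n := by linarith
  have hl' : (64 : ℝ) ≤ l := by exact_mod_cast hl64
  have hl0 : (0 : ℝ) < l := by linarith
  have hn32 : (0 : ℝ) < (n : ℝ) ^ 32 := by positivity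
  have hTpos : 0 < T := by positivity
  have hTR : (T : ℝ) = 2 * (n : ℝ) ^ 32 := by rw [hT]; push_cast; ring
  have hTR0 : (0 : ℝ) < T := by exact_mod_cast hTpos
  have hlogn : Real.log n ≤ 2 * l := by
    have := log_n_le n (by omega)
    linarith
  have hlogn0 : 0 ≤ Real.log n := Real.log_natCast_nonneg n
  have hlogT0 : 0 ≤ Real.log (T : ℝ) := Real.log_natCast_nonneg T
  have hlogTle : Real.log (T : ℝ) ≤ 66 * l := by
    have h1 := log_bound n hn 2 1 32 (by norm_num) (by norm_num)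
    rw [← hT] at h1
    push_cast at h1
    linarith
  have hlpow : ∀ k : ℕ, k ≤ 200 → (l : ℝ) ^ k ≤ n := by
    intro k hk
    calc (l : ℝ) ^ k ≤ (l : ℝ) ^ 200 := pow_le_pow_right₀ (by linarith) hk
      _ ≤ n := by exact_mod_cast hl200
  choose α β α' β' hx hx2 hq0 hqY hβ hα0 hαq hββ using
    fun r : ℕ => dirichlet2 (pt M0 r) (n ^ 16) (by positivity)
  set a : ℕ → ℝ := fun r => ‖FS P (pt M0 r)‖ * ‖FS P' (pt M0 r)‖ with ha
  set h : ℕ → ℝ := fun r => ‖nsum (Ioc T (6 * T)) (kT n W) (2 • pt M0 r)‖ with hh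
  have ha0 : ∀ r, 0 ≤ a r := fun r => by rw [ha]; positivity
  change ∑ r ∈ range M0, a r * h r ≤ _
  set q : ℕ → ℕ := fun r => addOrderOf (α' r) with hq
  set S : ℕ → ℝ := fun r => (q r : ℝ) * (1 + (T : ℝ) * ‖β' r‖) with hS
  have hq1 : ∀ r, (1 : ℝ) ≤ q r := fun r => by exact_mod_cast hq0 r
  have hTβ0 : ∀ r, 0 ≤ (T : ℝ) * ‖β' r‖ := fun r => by positivity
  have hSq : ∀ r, (q r : ℝ) ≤ S r := by
    intro r
    exact le_mul_of_one_le_right (Nat.cast_nonneg _) (le_add_of_nonneg_right (hTβ0 r))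
  have hSβ : ∀ r, (T : ℝ) * ‖β' r‖ ≤ S r := by
    intro r
    exact (le_add_of_nonneg_left zero_le_one).trans
      (le_mul_of_one_le_left (add_nonneg zero_le_one (hTβ0 r)) (hq1 r))
  have hS0 : ∀ r, 0 < S r := fun r => by linarith [hq1 r, hSq r]
  -- the bound for `h`
  have hle : ∀ r, h r ≤ Real.log T * ‖nsum (Ioc T (6 * T)) vI (α' r + β' r)‖ +
      (10 * T * ((q r : ℝ) / (q r).totient) / S r +
        Vw * 2 ^ w * (q r + 1 + 35 * (T * ‖β' r‖))) := by
    intro r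
    rw [hh]
    simp only
    rw [hx2 r]
    refine (norm_nsum_kT_le n w _ _).trans (add_le_add le_rfl ?_)
    refine ind_expSum w T (q r) rfl (hq0 r) ?_
    have h1 : (1 : ℝ) ≤ q r := hq1 r
    have h2 : (2 * W : ℝ) ≤ ((n ^ 16 : ℕ) : ℝ) + 1 := by
      have : 2 * W ≤ n ^ 16 := hnW.trans (Nat.le_self_pow (by norm_num) n)
      have h3 : ((2 * W : ℕ) : ℝ) ≤ ((n ^ 16 : ℕ) : ℝ) := by exact_mod_cast this
      push_cast at h3 ⊢
      linarith
    calc (W : ℝ) * ‖β' r‖ ≤ W * (1 / (q r * (((n ^ 16 : ℕ) : ℝ) + 1))) := by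
          gcongr
          exact hβ r
      _ ≤ 1 / (2 * q r) := by
          rw [mul_one_div, div_le_div_iff₀ (by positivity) (by positivity)]
          calc (W : ℝ) * (2 * q r) = q r * (2 * W) := by ring
            _ ≤ q r * (((n ^ 16 : ℕ) : ℝ) + 1) := mul_le_mul_of_nonneg_left h2 (by positivity)
            _ = _ := by ring
  -- the mean value bound
  have hfg : ∀ (s : Finset ℕ) (Q : ℕ), s ⊆ range M0 → (∀ r ∈ s, S r < (l : ℝ) ^ 20) →
      (∀ r ∈ s, 2 * q r ≤ Q) →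
      ∑ r ∈ s, a r ≤ 7000 * V (primesTo Q) * (4 * n ^ 32) ^ 2 := by
    intro s Q hs hsS hsQ
    refine fg_major n hn P P' hP hP' s hs α β (fun r _ => hx r) Q (fun r _ => hα0 r)
      (fun r hr => (hαq r).trans (hsQ r hr)) ?_ ?_
    · intro r hr
      have h1 := hsS r hr
      have h2 : (q r : ℝ) < (l : ℝ) ^ 20 := lt_of_le_of_lt (hSq r) h1
      have h3 : q r < l ^ 20 := by exact_mod_cast h2
      have h4 : l ^ 20 ≤ n := le_trans (Nat.pow_le_pow_right (by omega) (by norm_num)) hl200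
      calc addOrderOf (α r) ≤ 2 * q r := hαq r
        _ ≤ n * n := Nat.mul_le_mul hn (by omega)
        _ = n ^ 2 := by ring
    · intro r hr
      refine (hββ r).trans ?_
      have h1 := (hSβ r).trans (hsS r hr).le
      have h2 := hlpow 20 (by norm_num)
      rw [le_div_iff₀ (by positivity)]
      have h3 : 2 * (n : ℝ) ^ 32 * ‖β' r‖ ≤ n := by
        rw [← hTR]; linarith
      have h4 : (n : ℝ) ^ 25 ≤ (n : ℝ) ^ 32 := pow_le_pow_right₀ (by linarith) (by norm_num)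
      have h5 := norm_nonneg (β' r)
      have h6 : n * (‖β' r‖ * (n : ℝ) ^ 24) ≤ n * 1 := by
        calc n * (‖β' r‖ * (n : ℝ) ^ 24) = (n : ℝ) ^ 25 * ‖β' r‖ := by ring
          _ ≤ (n : ℝ) ^ 32 * ‖β' r‖ := by gcongr
          _ ≤ 2 * (n : ℝ) ^ 32 * ‖β' r‖ := by
              apply mul_le_mul_of_nonneg_right _ h5
              linarith
          _ ≤ n * 1 := by rw [mul_one]; exact h3
      exact le_of_mul_le_mul_left h6 hn0
  -- decomposition
  set Mi := {r ∈ range M0 | (l : ℝ) ^ 20 ≤ S r} with hMi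
  set Re := {r ∈ range M0 | ¬ (l : ℝ) ^ 20 ≤ S r} with hRe
  have hsplit1 : ∑ r ∈ range M0, a r * h r = ∑ r ∈ Mi, a r * h r + ∑ r ∈ Re, a r * h r :=
    (sum_filter_add_sum_filter_not _ _ _).symm
  set Mid := {r ∈ Re | (2 : ℝ) ^ j0 ≤ S r} with hMid
  set Sml := {r ∈ Re | ¬ (2 : ℝ) ^ j0 ≤ S r} with hSml
  have hsplit2 : ∑ r ∈ Re, a r * h r = ∑ r ∈ Mid, a r * h r + ∑ r ∈ Sml, a r * h r :=
    (sum_filter_add_sum_filter_not _ _ _).symm
  -- Part 1
  have hpart1 : ∑ r ∈ Mi, a r * h r ≤ δ / 4 * (4 * (n : ℝ) ^ 32) ^ 3 := by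
    set X : ℝ := δ * n ^ 32 / (60000 * l) with hX
    have hX0 : 0 ≤ X := by positivity
    have h1 : ∑ r ∈ Mi, a r ≤ 30000 * (2 * l) * (4 * n ^ 32) ^ 2 := by
      refine le_trans (le_trans ?_ (fg_all n hn P P' hP hP')) (by gcongr)
      exact sum_le_sum_of_subset_of_nonneg (filter_subset _ _) fun r _ _ => ha0 r
    have h2 : ∀ r ∈ Mi, h r ≤ X := by
      intro r hr
      rw [hMi, mem_filter] at hr
      have hSr := hr.2
      refine (hle r).trans ?_
      have e0 := hln (α' r) (β' r) (q r) rfl (hq0 r) (hqY r) (hβ r) hSr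
      set Z := ‖nsum (Ioc T (6 * T)) vI (α' r + β' r)‖ with hZ
      have hZ0 : 0 ≤ Z := norm_nonneg _
      have e1 : Real.log T * Z ≤ 66 * Cl * n ^ 32 / (l : ℝ) ^ 2 := by
        rw [le_div_iff₀ (by positivity)]
        calc Real.log T * Z * (l : ℝ) ^ 2 ≤ 66 * l * Z * (l : ℝ) ^ 2 := by gcongr
          _ = 66 * ((l : ℝ) ^ 3 * Z) := by ring
          _ ≤ 66 * (Cl * n ^ 32) := by gcongr
          _ = _ := by ring
      have hs0 : 0 < Real.sqrt (S r) := Real.sqrt_pos.2 (hS0 r)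
      have hsS : Real.sqrt (S r) ^ 2 = S r := Real.sq_sqrt (hS0 r).le
      have hs10 : (l : ℝ) ^ 10 ≤ Real.sqrt (S r) := by
        apply Real.le_sqrt_of_sq_le
        calc ((l : ℝ) ^ 10) ^ 2 = (l : ℝ) ^ 20 := by ring
          _ ≤ S r := hSr
      have e2 : 10 * T * ((q r : ℝ) / (q r).totient) / S r ≤ 40 * C * n ^ 32 / (l : ℝ) ^ 2 := by
        have e3 := ratio_sqrt C hC1 hC (q r) (hq0 r) (Real.sqrt (S r)) hs0
          (by rw [hsS]; exact hSq r)
        calc 10 * T * ((q r : ℝ) / (q r).totient) / S r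
            ≤ 10 * T * (2 * C * Real.sqrt (S r)) / S r := by
              have := hS0 r
              gcongr
          _ = 10 * T * (2 * C * Real.sqrt (S r)) / Real.sqrt (S r) ^ 2 := by rw [hsS]
          _ = 20 * T * C / Real.sqrt (S r) := by field_simp; norm_num
          _ ≤ 20 * T * C / (l : ℝ) ^ 10 := by gcongr
          _ ≤ 20 * T * C / (l : ℝ) ^ 2 := by
              have : (l : ℝ) ^ 2 ≤ (l : ℝ) ^ 10 := pow_le_pow_right₀ (by linarith) (by norm_num)
              gcongr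
          _ = _ := by rw [hTR]; ring
      have e3 : Vw * 2 ^ w * (q r + 1 + 35 * (T * ‖β' r‖)) ≤
          72 * (Vw * 2 ^ w) * n ^ 32 / (l : ℝ) ^ 2 := by
        have f1 : (q r : ℝ) ≤ (n : ℝ) ^ 16 := by exact_mod_cast hqY r
        have f2 : (T : ℝ) * ‖β' r‖ ≤ 2 * (n : ℝ) ^ 16 := by
          have g1 : ‖β' r‖ ≤ 1 / (n : ℝ) ^ 16 := by
            refine (hβ r).trans ?_
            apply one_div_le_one_div_of_le (by positivity)
            push_cast
            exact (le_add_of_nonneg_right zero_le_one).trans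
              (le_mul_of_one_le_left (by positivity) (hq1 r))
          calc (T : ℝ) * ‖β' r‖ ≤ T * (1 / (n : ℝ) ^ 16) := by gcongr
            _ = _ := by rw [hTR]; field_simp
        have f3 : (1 : ℝ) ≤ (n : ℝ) ^ 16 := one_le_pow₀ (by linarith)
        have f4 : (l : ℝ) ^ 2 * (n : ℝ) ^ 16 ≤ (n : ℝ) ^ 32 := by
          have g1 := hlpow 2 (by norm_num)
          calc (l : ℝ) ^ 2 * (n : ℝ) ^ 16 ≤ n * (n : ℝ) ^ 16 := by gcongr
            _ = (n : ℝ) ^ 17 := by ring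
            _ ≤ (n : ℝ) ^ 32 := pow_le_pow_right₀ (by linarith) (by norm_num)
        rw [le_div_iff₀ (by positivity)]
        have f5 : (q r + 1 + 35 * (T * ‖β' r‖)) ≤ 72 * (n : ℝ) ^ 16 := by linarith
        calc Vw * 2 ^ w * (q r + 1 + 35 * (T * ‖β' r‖)) * (l : ℝ) ^ 2
            ≤ Vw * 2 ^ w * (72 * (n : ℝ) ^ 16) * (l : ℝ) ^ 2 := by gcongr
          _ = 72 * (Vw * 2 ^ w) * ((l : ℝ) ^ 2 * (n : ℝ) ^ 16) := by ring
          _ ≤ _ := by gcongr
      have e4 : (66 * Cl + 40 * C + 72 * (Vw * 2 ^ w)) * 60000 ≤ δ * l := by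
        have g1 : (66 * Cl + 40 * C + 72 * (Vw * 2 ^ w)) * 60000 / δ ≤ l := by
          have : 0 ≤ 37 * (Vw * 2 ^ w) := by positivity
          linarith
        rw [div_le_iff₀ hδ] at g1
        linarith
      calc Real.log T * Z + (10 * T * ((q r : ℝ) / (q r).totient) / S r +
            Vw * 2 ^ w * (q r + 1 + 35 * (T * ‖β' r‖)))
          ≤ 66 * Cl * n ^ 32 / (l : ℝ) ^ 2 + (40 * C * n ^ 32 / (l : ℝ) ^ 2 +
            72 * (Vw * 2 ^ w) * n ^ 32 / (l : ℝ) ^ 2) := by gcongr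
        _ = ((66 * Cl + 40 * C + 72 * (Vw * 2 ^ w)) * 60000) * n ^ 32 /
            (60000 * (l : ℝ) ^ 2) := by field_simp; ring
        _ ≤ (δ * l) * n ^ 32 / (60000 * (l : ℝ) ^ 2) := by gcongr
        _ = X := by
            rw [hX, div_eq_div_iff (by positivity) (by positivity)]
            ring
    refine (part_le Mi a h _ X (fun r _ => ha0 r) h1 hX0 h2).trans (le_of_eq ?_)
    rw [hX]
    field_simp
    norm_num
  have hRemem : ∀ r ∈ Re, r ∈ range M0 ∧ S r < (l : ℝ) ^ 20 := by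
    intro r hr
    rw [hRe, mem_filter] at hr
    exact ⟨hr.1, not_le.1 hr.2⟩
  -- Part 2
  have hpart2 : ∑ r ∈ Mid, a r * h r ≤ δ / 4 * (4 * (n : ℝ) ^ 32) ^ 3 := by
    have hMidmem : ∀ r ∈ Mid, r ∈ range M0 ∧ S r < (l : ℝ) ^ 20 ∧ (2 : ℝ) ^ j0 ≤ S r := by
      intro r hr
      rw [hMid, mem_filter] at hr
      exact ⟨(hRemem r hr.1).1, (hRemem r hr.1).2, hr.2⟩
    have hmaps : ∀ r ∈ Mid, Nat.log 2 ⌊S r⌋₊ ∈ Ico j0 (l ^ 20 + 1) := by
      intro r hr
      obtain ⟨-, e1, e2⟩ := hMidmem r hr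
      rw [mem_Ico]
      constructor
      · apply Nat.le_log_of_pow_le (by norm_num)
        apply Nat.le_floor
        push_cast
        exact e2
      · have f1 : ⌊S r⌋₊ ≤ l ^ 20 := by
          apply Nat.floor_le_of_le
          push_cast
          exact e1.le
        have := Nat.log_le_self 2 ⌊S r⌋₊
        omega
    rw [← sum_fiberwise_of_maps_to hmaps]
    have hj : ∀ j ∈ Ico j0 (l ^ 20 + 1), ∑ r ∈ Mid with Nat.log 2 ⌊S r⌋₊ = j, a r * h r ≤
        7000 * C * (289 / 256) * CB * (n ^ 32 * (4 * n ^ 32) ^ 2) * (119 / 128) ^ j := by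
      intro j hjm
      have hjj0 : j0 ≤ j := (mem_Ico.1 hjm).1
      have hmem : ∀ r ∈ Mid.filter (fun r => Nat.log 2 ⌊S r⌋₊ = j),
          r ∈ range M0 ∧ S r < (l : ℝ) ^ 20 ∧ (2 : ℝ) ^ j ≤ S r ∧ S r < (2 : ℝ) ^ (j + 1) := by
        intro r hr
        rw [mem_filter] at hr
        obtain ⟨e1, e2, e3⟩ := hMidmem r hr.1
        have hS1 : (1 : ℝ) ≤ S r := (hq1 r).trans (hSq r)
        have f0 : 1 ≤ ⌊S r⌋₊ := Nat.le_floor (by simpa using hS1)
        refine ⟨e1, e2, ?_, ?_⟩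
        · have f1 : 2 ^ j ≤ ⌊S r⌋₊ := by
            rw [← hr.2]; exact Nat.pow_log_le_self 2 (by omega)
          have f2 : ((2 ^ j : ℕ) : ℝ) ≤ (⌊S r⌋₊ : ℝ) := by exact_mod_cast f1
          push_cast at f2
          exact f2.trans (Nat.floor_le (hS0 r).le)
        · have f1 : ⌊S r⌋₊ + 1 ≤ 2 ^ (j + 1) := by
            rw [← hr.2]; exact Nat.lt_pow_succ_log_self (by norm_num) _
          have f2 : ((⌊S r⌋₊ : ℝ) + 1) ≤ (2 : ℝ) ^ (j + 1) := by exact_mod_cast f1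
          exact lt_of_lt_of_le (Nat.lt_floor_add_one _) f2
      have hqlt : ∀ r ∈ Mid.filter (fun r => Nat.log 2 ⌊S r⌋₊ = j), q r < 2 ^ (j + 1) := by
        intro r hr
        have e1 := lt_of_le_of_lt (hSq r) (hmem r hr).2.2.2
        exact_mod_cast e1
      set X : ℝ := CB * n ^ 32 * (7 / 8) ^ j with hX
      have hX0 : 0 ≤ X := by positivity
      have h1 : ∑ r ∈ Mid with Nat.log 2 ⌊S r⌋₊ = j, a r ≤
          7000 * V (primesTo (2 ^ (j + 2))) * (4 * n ^ 32) ^ 2 := by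
        apply hfg
        · exact fun r hr => (hmem r hr).1
        · exact fun r hr => (hmem r hr).2.1
        · intro r hr
          have := hqlt r hr
          calc 2 * q r ≤ 2 * 2 ^ (j + 1) := by omega
            _ = 2 ^ (j + 2) := by ring
      have h2 : ∀ r ∈ Mid.filter (fun r => Nat.log 2 ⌊S r⌋₊ = j), h r ≤ X := by
        intro r hr
        obtain ⟨e1, e2, e3, e4⟩ := hmem r hr
        have hjl : 2 ^ j ≤ l ^ 20 := by
          have : (2 : ℝ) ^ j ≤ (l : ℝ) ^ 20 := e3.trans e2.le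
          exact_mod_cast this
        have e0 := hmn (α' r) (β' r) (q r) j rfl (hq0 r) (hqY r) (hβ r) (hj12.trans hjj0) hjl e3 e4
        refine (hle r).trans ?_
        set Z := ‖nsum (Ioc T (6 * T)) vI (α' r + β' r)‖ with hZ
        have hZ0 : 0 ≤ Z := norm_nonneg _
        have f1 : Real.log T * Z ≤ 66 * Cm * n ^ 32 * (7 / 8) ^ j := by
          calc Real.log T * Z ≤ 66 * l * Z := by gcongr
            _ = 66 * (l * Z) := by ring
            _ ≤ 66 * (Cm * n ^ 32 * (7 / 8) ^ j) := by gcongr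
            _ = _ := by ring
        have f2 : 10 * T * ((q r : ℝ) / (q r).totient) / S r ≤ 40 * C * n ^ 32 * (7 / 8) ^ j := by
          have g1 : (q r : ℝ) / (q r).totient ≤ C * (17 / 16) ^ (j + 1) :=
            (ratio_le_V (hq0 r) (hqlt r hr).le).trans (hC _)
          have hSr := hS0 r
          calc 10 * T * ((q r : ℝ) / (q r).totient) / S r
              ≤ 10 * T * (C * (17 / 16) ^ (j + 1)) / (2 : ℝ) ^ j := by gcongr
            _ = 20 * (17 / 16) * C * n ^ 32 * ((17 / 16) ^ j * (1 / 2) ^ j) := by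
                rw [hTR, one_div, inv_pow, pow_succ]
                field_simp
                ring
            _ = 20 * (17 / 16) * C * n ^ 32 * (17 / 32) ^ j := by
                rw [← mul_pow]; norm_num
            _ ≤ 40 * C * n ^ 32 * (7 / 8) ^ j := by
                have k1 : (17 / 32 : ℝ) ^ j ≤ (7 / 8) ^ j :=
                  pow_le_pow_left₀ (by norm_num) (by norm_num) j
                have k2 : 20 * (17 / 16) * C * (n : ℝ) ^ 32 ≤ 40 * C * n ^ 32 := by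
                  have : 0 < C * (n : ℝ) ^ 32 := by positivity
                  linarith
                exact mul_le_mul k2 k1 (by positivity) (by positivity)
        have f3 : Vw * 2 ^ w * (q r + 1 + 35 * (T * ‖β' r‖)) ≤ n ^ 32 * (7 / 8) ^ j := by
          have g1 : (q r : ℝ) ≤ (l : ℝ) ^ 20 := (hSq r).trans e2.le
          have g2 : (T : ℝ) * ‖β' r‖ ≤ (l : ℝ) ^ 20 := (hSβ r).trans e2.le
          have g3 : (1 : ℝ) ≤ (l : ℝ) ^ 20 := one_le_pow₀ (by linarith)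
          have g4 : 37 * (Vw * 2 ^ w) ≤ l := by
            have : 0 ≤ (66 * Cl + 40 * C + 72 * (Vw * 2 ^ w)) * 60000 / δ := by positivity
            linarith
          have g5 : (8 / 7 : ℝ) ^ j ≤ (l : ℝ) ^ 20 := by
            calc (8 / 7 : ℝ) ^ j ≤ 2 ^ j := pow_le_pow_left₀ (by norm_num) (by norm_num) j
              _ ≤ (l : ℝ) ^ 20 := by exact_mod_cast hjl
          have g6 : (8 / 7 : ℝ) ^ j * (7 / 8) ^ j = 1 := by rw [← mul_pow]; norm_num
          have g7 := hlpow 41 (by norm_num)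
          calc Vw * 2 ^ w * (q r + 1 + 35 * (T * ‖β' r‖))
              ≤ Vw * 2 ^ w * (37 * (l : ℝ) ^ 20) := by
                gcongr
                linarith
            _ = (37 * (Vw * 2 ^ w)) * (l : ℝ) ^ 20 * ((8 / 7 : ℝ) ^ j * (7 / 8) ^ j) := by
                rw [g6]; ring
            _ ≤ l * (l : ℝ) ^ 20 * ((l : ℝ) ^ 20 * (7 / 8) ^ j) := by gcongr
            _ = (l : ℝ) ^ 41 * (7 / 8) ^ j := by ring
            _ ≤ n * (7 / 8) ^ j := by gcongr
            _ ≤ n ^ 32 * (7 / 8) ^ j := by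
                gcongr
                exact le_self_pow₀ (by linarith) (by norm_num)
        calc Real.log T * Z + (10 * T * ((q r : ℝ) / (q r).totient) / S r +
            Vw * 2 ^ w * (q r + 1 + 35 * (T * ‖β' r‖)))
            ≤ 66 * Cm * n ^ 32 * (7 / 8) ^ j + (40 * C * n ^ 32 * (7 / 8) ^ j +
              n ^ 32 * (7 / 8) ^ j) := by gcongr
          _ = X := by rw [hX, hCB]; ring
      refine (part_le _ a h _ X (fun r _ => ha0 r) h1 hX0 h2).trans ?_
      have hVC := hC (j + 2)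
      rw [hX]
      calc 7000 * V (primesTo (2 ^ (j + 2))) * (4 * (n : ℝ) ^ 32) ^ 2 * (CB * n ^ 32 * (7 / 8) ^ j)
          ≤ 7000 * (C * (17 / 16) ^ (j + 2)) * (4 * (n : ℝ) ^ 32) ^ 2 *
            (CB * n ^ 32 * (7 / 8) ^ j) := by gcongr
        _ = 7000 * C * (289 / 256) * CB * (n ^ 32 * (4 * n ^ 32) ^ 2) *
            ((17 / 16) ^ j * (7 / 8) ^ j) := by ring
        _ = _ := by rw [← mul_pow]; norm_num
    refine (sum_le_sum hj).trans ?_
    rw [← mul_sum]
    have hgeo : ∑ j ∈ Ico j0 (l ^ 20 + 1), (119 / 128 : ℝ) ^ j ≤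
        (119 / 128) ^ j0 / (1 - 119 / 128) :=
      geom_sum_Ico_le_of_lt_one (by norm_num) (by norm_num)
    calc 7000 * C * (289 / 256) * CB * ((n : ℝ) ^ 32 * (4 * n ^ 32) ^ 2) *
          ∑ j ∈ Ico j0 (l ^ 20 + 1), (119 / 128 : ℝ) ^ j
        ≤ 7000 * C * (289 / 256) * CB * ((n : ℝ) ^ 32 * (4 * n ^ 32) ^ 2) *
          ((119 / 128) ^ j0 / (1 - 119 / 128)) := by gcongr
      _ = Cst * (119 / 128) ^ j0 * ((n : ℝ) ^ 32 * (4 * n ^ 32) ^ 2) := by rw [hCst]; ring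
      _ ≤ δ * ((n : ℝ) ^ 32 * (4 * n ^ 32) ^ 2) := by gcongr
      _ = _ := by ring
  -- Part 3
  have hpart3 : ∑ r ∈ Sml, a r * h r ≤ δ / 4 * (4 * (n : ℝ) ^ 32) ^ 3 := by
    have hmem : ∀ r ∈ Sml, r ∈ range M0 ∧ S r < (l : ℝ) ^ 20 ∧ S r < (2 : ℝ) ^ j0 := by
      intro r hr
      rw [hSml, mem_filter] at hr
      exact ⟨(hRemem r hr.1).1, (hRemem r hr.1).2, not_le.1 hr.2⟩
    have hqlt : ∀ r ∈ Sml, q r < 2 ^ j0 := by
      intro r hr
      have e1 := lt_of_le_of_lt (hSq r) (hmem r hr).2.2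
      exact_mod_cast e1
    have h1 : ∑ r ∈ Sml, a r ≤ 7000 * V1 * (4 * n ^ 32) ^ 2 := by
      apply hfg
      · exact fun r hr => (hmem r hr).1
      · exact fun r hr => (hmem r hr).2.1
      · intro r hr
        have := hqlt r hr
        calc 2 * q r ≤ 2 * 2 ^ j0 := by omega
          _ = 2 ^ (j0 + 1) := by ring
    have h2 : ∀ r ∈ Sml, h r ≤ 2 * ε * T := by
      intro r hr
      obtain ⟨e1, e2, e3⟩ := hmem r hr
      have f1 : W • α' r = 0 := by
        apply addOrderOf_dvd_iff_nsmul_eq_zero.1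
        exact Nat.dvd_factorial (hq0 r) (hqlt r hr).le
      have f2 : ‖β' r‖ ≤ (2 : ℝ) ^ j0 / T := by
        rw [le_div_iff₀ hTR0]
        have := hSβ r
        linarith
      have f3 := hsmn (α' r) (β' r) f1 f2
      have f4 := kT_kw n W hn (2 • pt M0 r)
      rw [← hT] at f4
      have f5 : h r = ‖nsum (Ioc T (6 * T)) (kT n W) (2 • pt M0 r)‖ := rfl
      rw [← f5, hx2 r] at f4
      have hlogpos : 0 < Real.log (T : ℝ) := by
        have : 0 < 18 / ε := by positivity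
        linarith
      have f6 : 36 * (n : ℝ) ^ 32 ≤ Real.log T * (ε * T) := by
        rw [div_le_iff₀ hε0] at hlogTn
        have : 36 * (n : ℝ) ^ 32 = 18 * T := by rw [hTR]; ring
        rw [this]
        calc 18 * (T : ℝ) ≤ (Real.log T * ε) * T := by gcongr
          _ = _ := by ring
      have f7 : Real.log T * h r ≤ Real.log T * (2 * ε * T) := by
        calc Real.log T * h r ≤ Real.log T * ‖nsum (Ioc T (6 * T)) (kw W) (α' r + β' r)‖ +
              36 * n ^ 32 := f4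
          _ ≤ Real.log T * (ε * T) + Real.log T * (ε * T) := by gcongr
          _ = _ := by ring
      exact le_of_mul_le_mul_left f7 hlogpos
    refine (part_le _ a h _ (2 * ε * T) (fun r _ => ha0 r) h1 (by positivity) h2).trans ?_
    rw [hε, hTR]
    apply le_of_eq
    field_simp
    ring
  rw [hsplit1, hsplit2]
  have hfin : 0 ≤ δ / 4 * (4 * (n : ℝ) ^ 32) ^ 3 := by positivity
  linarith

end LSieve
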