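import Pool.Agent.LibVinogradov.SupRough
import Pool.Agent.LibLargeSieve.MainTerm

/-!
# Exponential sums over integers coprime to `w!`
-/

namespace LSieve

open Finset Filter Topology

lemma ramanujan_ind (P : Finset ℕ) (hP : ∀ p ∈ P, p.Prime) (q : ℕ) (hq0 : 0 < q) :
    V P * |∑ A ∈ P.powerset, (-1 : ℝ) ^ #A * (if q ∣ eA A then ((eA A : ℕ) : ℝ)⁻¹ else 0)| ≤
      1 / q.totient := by
  classical
  have hφ : (0 : ℝ) < q.totient := by exact_mod_cast Nat.totient_pos.2 hq0
  by_cases h : ∃ A ∈ P.powerset, q ∣ eA A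
  · obtain ⟨A, hA, hqA⟩ := h
    rw [mem_powerset] at hA
    have hAp : ∀ p ∈ A, p.Prime := fun p hp => hP p (hA hp)
    have hsq : Squarefree q := (eA_squarefree hAp).squarefree_of_dvd hqA
    have hQA : q.primeFactors ⊆ A := by
      have := (dvd_eA_iff hAp hsq).1 hqA
      exact this
    have hQP : q.primeFactors ⊆ P := hQA.trans hA
    have h1 : ∑ A ∈ P.powerset, (-1 : ℝ) ^ #A * (if q ∣ eA A then ((eA A : ℕ) : ℝ)⁻¹ else 0) =
        ∏ p ∈ P, (-(p : ℝ)⁻¹ + (if p ∈ q.primeFactors then 0 else 1)) := by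
      rw [prod_add]
      refine sum_congr rfl fun B hB => ?_
      rw [mem_powerset] at hB
      have hBp : ∀ p ∈ B, p.Prime := fun p hp => hP p (hB hp)
      rw [prod_neg, mul_assoc]
      congr 1
      by_cases hd : q ∣ eA B
      · rw [if_pos hd]
        have h2 := (dvd_eA_iff hBp hsq).1 hd
        have h3 : ∏ p ∈ P \ B, (if p ∈ q.primeFactors then (0 : ℝ) else 1) = 1 := by
          apply prod_eq_one
          intro p hp
          have hp2 := (Finset.mem_sdiff.1 hp).2
          rw [if_neg (fun h4 => hp2 (h2 h4))]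
        rw [h3, mul_one, prod_inv_distrib]
        unfold eA
        push_cast
        rfl
      · rw [if_neg hd]
        have h2 : ¬ q.primeFactors ⊆ B := fun h3 => hd ((dvd_eA_iff hBp hsq).2 h3)
        obtain ⟨p, hp, hpB⟩ := not_subset.1 h2
        have h3 : ∏ p ∈ P \ B, (if p ∈ q.primeFactors then (0 : ℝ) else 1) = 0 := by
          apply prod_eq_zero (Finset.mem_sdiff.2 ⟨hQP hp, hpB⟩)
          rw [if_pos hp]
        rw [h3, mul_zero]
    rw [h1, abs_prod]
    unfold V
    rw [← prod_mul_distrib]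
    have h2 : ∏ p ∈ P, ((p : ℝ) / ((p : ℝ) - 1) *
        |-(p : ℝ)⁻¹ + (if p ∈ q.primeFactors then 0 else 1)|) =
        ∏ p ∈ P, (if p ∈ q.primeFactors then ((p : ℝ) - 1)⁻¹ else 1) := by
      refine prod_congr rfl fun p hp => ?_
      have hp2 : (2 : ℝ) ≤ p := by exact_mod_cast (hP p hp).two_le
      have h5 : (0 : ℝ) < (p : ℝ) - 1 := by linarith
      have h6 : (0 : ℝ) < (p : ℝ) := by linarith
      split_ifs with h7
      · rw [add_zero, abs_neg, abs_of_pos (by positivity)]
        field_simp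
      · have h8 : 0 ≤ -(p : ℝ)⁻¹ + 1 := by
          have : (p : ℝ)⁻¹ ≤ 1 := inv_le_one_of_one_le₀ (by linarith)
          linarith
        rw [abs_of_nonneg h8]
        field_simp
        ring
    rw [h2, prod_ite, prod_const_one, mul_one]
    have h3 : {p ∈ P | p ∈ q.primeFactors} = q.primeFactors := by
      ext p
      rw [mem_filter]
      exact ⟨fun h => h.2, fun h => ⟨hQP h, h⟩⟩
    rw [h3]
    have h4 := V_primeFactors q hq0
    have h5 : ∏ p ∈ q.primeFactors, ((p : ℝ) - 1)⁻¹ = V q.primeFactors / q := by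
      have h6 : (q : ℝ) = ∏ p ∈ q.primeFactors, (p : ℝ) := by
        conv_lhs => rw [← Nat.prod_primeFactors_of_squarefree hsq]
        push_cast
        rfl
      rw [h6]
      unfold V
      rw [← prod_div_distrib]
      have h7 : q.primeFactors = q.primeFactors := rfl
      refine prod_congr rfl fun p hp => ?_
      have hp2 : (2 : ℝ) ≤ p := by exact_mod_cast (Nat.prime_of_mem_primeFactors hp).two_le
      have h5 : (0 : ℝ) < (p : ℝ) - 1 := by linarith
      have h6 : (0 : ℝ) < (p : ℝ) := by linarith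
      field_simp
    rw [h5, h4]
    have hq' : (0 : ℝ) < q := by exact_mod_cast hq0
    apply le_of_eq
    field_simp
  · push Not at h
    have h1 : ∑ A ∈ P.powerset, (-1 : ℝ) ^ #A *
        (if q ∣ eA A then ((eA A : ℕ) : ℝ)⁻¹ else 0) = 0 := by
      refine sum_eq_zero fun A hA => ?_
      rw [if_neg (h A hA), mul_zero]
    rw [h1, abs_zero, mul_zero]
    positivity

lemma ind_fval (w t : ℕ) : ind w.factorial t =
    fval (primesTo w).powerset (fun A => (-1 : ℝ) ^ #A) t := ind_eq w t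

lemma ind_expSum (w T q : ℕ) {α β : UnitAddCircle} (hq : addOrderOf α = q) (hq0 : 0 < q)
    (hs : (w.factorial : ℝ) * ‖β‖ ≤ 1 / (2 * q)) :
    V (primesTo w) * ‖nsum (Ioc T (6 * T)) (ind w.factorial) (α + β)‖ ≤
      10 * T * ((q : ℝ) / q.totient) / (q * (1 + T * ‖β‖)) +
      V (primesTo w) * 2 ^ w * (q + 1 + 35 * (T * ‖β‖)) := by
  have hP : ∀ p ∈ primesTo w, p.Prime := fun p hp => (mem_primesTo.1 hp).2
  have hV : 0 < V (primesTo w) := V_pos hP
  have hq' : (0 : ℝ) < q := by exact_mod_cast hq0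
  have hφ : (0 : ℝ) < q.totient := by exact_mod_cast Nat.totient_pos.2 hq0
  have hβ0 := norm_nonneg β
  have hT0 : (0 : ℝ) ≤ T := Nat.cast_nonneg T
  have h0 : nsum (Ioc T (6 * T)) (ind w.factorial) (α + β) =
      nsum (Ioc T (6 * T)) (fval (primesTo w).powerset (fun A => (-1 : ℝ) ^ #A)) (α + β) := by
    unfold nsum
    refine sum_congr rfl fun t _ => ?_
    rw [ind_fval]
  have hAp : ∀ A ∈ (primesTo w).powerset, ∀ p ∈ A, p.Prime := fun A hA p hp =>
    hP p (mem_powerset.1 hA hp)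
  have h1 := typeI (primesTo w).powerset (fun A => (-1 : ℝ) ^ #A) hAp T (6 * T) (by omega) hq hq0
    (by
      intro A hA _
      refine le_trans ?_ hs
      apply mul_le_mul_of_nonneg_right _ hβ0
      have h2 : eA A ∣ w.factorial := by
        rw [eA_dvd_iff (hAp A hA)]
        intro p hp
        have h3 := mem_primesTo.1 (mem_powerset.1 hA hp)
        exact (h3.2.dvd_factorial).2 h3.1
      exact_mod_cast Nat.le_of_dvd (Nat.factorial_pos w) h2)
  rw [← h0] at h1
  have h2 := ramanujan_ind (primesTo w) hP q hq0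
  have h3 := norm_sum_e_le T (6 * T) rfl β
  have h4 : ∑ A ∈ (primesTo w).powerset, |(-1 : ℝ) ^ #A| ≤ 2 ^ w := by
    simp only [abs_pow, abs_neg, abs_one, one_pow, sum_const, card_powerset, nsmul_eq_mul, mul_one]
    push_cast
    apply pow_le_pow_right₀ (by norm_num)
    calc #(primesTo w) ≤ #(Icc 1 w) := card_le_card (filter_subset _ _)
      _ = w := by simp
  have h5 : (((6 * T : ℕ) : ℝ) - T) * ‖e β - 1‖ ≤ 35 * (T * ‖β‖) := by
    have h6 := norm_e_sub_one_le β
    have h7 := Real.pi_lt_d2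
    push_cast
    calc (6 * (T : ℝ) - T) * ‖e β - 1‖ = 5 * T * ‖e β - 1‖ := by ring
      _ ≤ 5 * T * (2 * Real.pi * ‖β‖) := by gcongr
      _ = 10 * Real.pi * (T * ‖β‖) := by ring
      _ ≤ 10 * 3.5 * (T * ‖β‖) := by gcongr; linarith
      _ = _ := by ring
  set SS := |∑ A ∈ (primesTo w).powerset, (-1 : ℝ) ^ #A *
    (if q ∣ eA A then ((eA A : ℕ) : ℝ)⁻¹ else 0)| with hSS
  have hSS0 : 0 ≤ SS := abs_nonneg _
  calc V (primesTo w) * ‖nsum (Ioc T (6 * T)) (ind w.factorial) (α + β)‖
      ≤ V (primesTo w) * (SS * ‖∑ n ∈ Ioc T (6 * T), e (n • β)‖ +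
        (∑ A ∈ (primesTo w).powerset, |(-1 : ℝ) ^ #A|) *
          (q + 1 + (((6 * T : ℕ) : ℝ) - T) * ‖e β - 1‖)) := by gcongr
    _ = (V (primesTo w) * SS) * ‖∑ n ∈ Ioc T (6 * T), e (n • β)‖ +
        V (primesTo w) * ((∑ A ∈ (primesTo w).powerset, |(-1 : ℝ) ^ #A|) *
          (q + 1 + (((6 * T : ℕ) : ℝ) - T) * ‖e β - 1‖)) := by ring
    _ ≤ (1 / q.totient) * (10 * T / (1 + T * ‖β‖)) +
        V (primesTo w) * (2 ^ w * (q + 1 + 35 * (T * ‖β‖))) := by
        have h8 : (0 : ℝ) ≤ (((6 * T : ℕ) : ℝ) - T) * ‖e β - 1‖ := by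
          apply mul_nonneg _ (norm_nonneg _)
          push_cast; linarith
        apply add_le_add
        · exact mul_le_mul h2 h3 (norm_nonneg _) (by positivity)
        · apply mul_le_mul_of_nonneg_left _ hV.le
          apply mul_le_mul h4 _ (by positivity) (by positivity)
          linarith
    _ = _ := by
        have h9 : (0 : ℝ) < 1 + T * ‖β‖ := by positivity
        field_simp

end LSieve
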