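import Pool.Agent.LibVinogradov.Density
import Pool.Agent.LibLargeSieve.Abel

/-!
# Level of the weights, pointwise inequalities, exponential sums
-/

namespace LSieve

open Finset

/-- The level of the weights. -/
def Dlev (b J : ℕ) : ℕ := 2 ^ (2 ^ J * (4 * b + 7))

lemma Dlev_pos (b J : ℕ) : 0 < Dlev b J := by unfold Dlev; positivity

lemma Bk_subset_PJ {j J : ℕ} (h : j < J) : Bk j ⊆ PJ J := by
  intro p hp
  have h1 := (mem_sdiff.1 hp).1
  rw [mem_PJ] at h1 ⊢
  exact ⟨h1.1.trans (Nat.pow_le_pow_right (by norm_num)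
    (Nat.pow_le_pow_right (by norm_num) (by omega))), h1.2⟩

lemma inter_PJ_Bk {j J : ℕ} (h : j < J) (A : Finset ℕ) : (A ∩ PJ J) ∩ Bk j = A ∩ Bk j := by
  rw [inter_assoc, inter_eq_right.2 (Bk_subset_PJ h)]

lemma eA_le (J : ℕ) : ∀ (b : ℕ) (A : Finset ℕ), A ⊆ PJ J →
    (∀ j < J, #(A ∩ Bk j) ≤ mlev b J j + 1) → eA A ≤ Dlev b J := by
  induction J with
  | zero =>
    intro b A hA _
    have h1 : A ⊆ {2} := by
      intro p hp
      have := mem_PJ.1 (hA hp)
      rw [mem_singleton]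
      have := this.2.two_le
      simp at *
      omega
    have h2 : eA A ≤ 2 := by
      unfold eA
      rcases subset_singleton_iff.1 h1 with h | h <;> rw [h] <;> simp
    refine h2.trans ?_
    unfold Dlev
    calc 2 = 2 ^ 1 := by norm_num
      _ ≤ _ := Nat.pow_le_pow_right (by norm_num) (by omega)
  | succ J ih =>
    intro b A hA hm
    have hsplit : A = (A ∩ PJ J) ∪ (A ∩ Bk J) := by
      rw [← inter_union_distrib_left, ← PJ_succ, inter_eq_left.2 hA]
    have hd : Disjoint (A ∩ PJ J) (A ∩ Bk J) :=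
      disjoint_of_subset_left inter_subset_right
        (disjoint_of_subset_right inter_subset_right (PJ_disj J))
    have h1 : eA A = eA (A ∩ PJ J) * eA (A ∩ Bk J) := by
      unfold eA
      rw [← prod_union hd, ← hsplit]
    have h2 : eA (A ∩ PJ J) ≤ Dlev (b + 1) J := by
      apply ih (b + 1) _ inter_subset_right
      intro j hj
      rw [inter_PJ_Bk hj]
      refine (hm j (by omega)).trans ?_
      unfold mlev
      omega
    have h3 : eA (A ∩ Bk J) ≤ 2 ^ (2 ^ (J + 1) * (2 * b + 1)) := by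
      unfold eA
      calc ∏ p ∈ A ∩ Bk J, p ≤ ∏ p ∈ A ∩ Bk J, 2 ^ (2 ^ (J + 1)) := by
            refine prod_le_prod (fun p _ => Nat.zero_le _) fun p hp => ?_
            have := (mem_sdiff.1 (mem_inter.1 hp).2).1
            exact (mem_PJ.1 this).1
        _ = 2 ^ (2 ^ (J + 1) * #(A ∩ Bk J)) := by rw [prod_const, pow_mul]
        _ ≤ _ := by
            apply Nat.pow_le_pow_right (by norm_num)
            apply Nat.mul_le_mul_left
            have := hm J (by omega)
            unfold mlev at this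
            omega
    rw [h1]
    refine (Nat.mul_le_mul h2 h3).trans ?_
    unfold Dlev
    rw [← pow_add]
    apply Nat.pow_le_pow_right (by norm_num)
    rw [pow_succ]
    nlinarith [Nat.pos_of_ne_zero (show 2 ^ J ≠ 0 by positivity)]

lemma lamc_supp (c : ℕ → ℕ → ℝ) (J : ℕ) : ∀ A : Finset ℕ, lamc c J A ≠ 0 →
    ∀ j < J, c j #(A ∩ Bk j) ≠ 0 := by
  induction J with
  | zero => intro A _ j hj; omega
  | succ J ih =>
    intro A hA j hj
    rw [lamc] at hA
    rcases Nat.lt_succ_iff_lt_or_eq.1 hj with h | rfl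
    · have := ih _ (left_ne_zero_of_mul hA) j h
      rwa [inter_PJ_Bk h] at this
    · exact right_ne_zero_of_mul hA

lemma lamc_abs (c : ℕ → ℕ → ℝ) (hc : ∀ j k, |c j k| ≤ 1) (J : ℕ) : ∀ A : Finset ℕ,
    |lamc c J A| ≤ 1 := by
  induction J with
  | zero => intro A; rw [lamc]; simp
  | succ J ih =>
    intro A
    rw [lamc, abs_mul]
    exact mul_le_one₀ (ih _) (abs_nonneg _) (hc _ _)

lemma eA_injOn (J : ℕ) : Set.InjOn eA ((PJ J).powerset : Set (Finset ℕ)) := by
  intro A hA A' hA' h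
  rw [mem_coe, mem_powerset] at hA hA'
  have h1 : (eA A).primeFactors = A := by
    unfold eA; exact Nat.primeFactors_prod (fun p hp => PJ_prime (hA hp))
  have h2 : (eA A').primeFactors = A' := by
    unfold eA; exact Nat.primeFactors_prod (fun p hp => PJ_prime (hA' hp))
  rw [← h1, ← h2, h]

lemma sum_abs_lamc (c : ℕ → ℕ → ℝ) (hc : ∀ j k, |c j k| ≤ 1) (b J : ℕ)
    (hs : ∀ j < J, ∀ k, c j k ≠ 0 → k ≤ mlev b J j + 1) :
    ∑ A ∈ (PJ J).powerset, |lamc c J A| ≤ Dlev b J := by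
  classical
  set S := {A ∈ (PJ J).powerset | lamc c J A ≠ 0} with hS
  have h1 : ∑ A ∈ (PJ J).powerset, |lamc c J A| = ∑ A ∈ S, |lamc c J A| := by
    rw [hS, sum_filter]
    refine sum_congr rfl fun A _ => ?_
    split_ifs with h
    · rfl
    · push Not at h; rw [h, abs_zero]
  rw [h1]
  have h2 : #S ≤ #(Icc 1 (Dlev b J)) := by
    refine card_le_card_of_injOn eA ?_ ?_
    · intro A hA
      rw [mem_coe, hS, mem_filter, mem_powerset] at hA
      rw [mem_coe, mem_Icc]
      refine ⟨eA_pos (fun p hp => PJ_prime (hA.1 hp)), eA_le J b A hA.1 ?_⟩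
      intro j hj
      exact hs j hj _ (lamc_supp c J A hA.2 j hj)
    · intro A hA A' hA' h
      apply eA_injOn J _ _ h
      · exact (mem_filter.1 hA).1
      · exact (mem_filter.1 hA').1
  calc ∑ A ∈ S, |lamc c J A| ≤ ∑ A ∈ S, (1 : ℝ) := sum_le_sum fun A _ => lamc_abs c hc J A
    _ = #S := by simp
    _ ≤ Dlev b J := by
        rw [Nat.card_Icc] at h2
        exact_mod_cast h2

lemma cs_supp {m k : ℕ} (h : cs m k ≠ 0) : k ≤ m := by
  unfold cs at h
  by_contra h1
  rw [if_neg h1] at h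
  exact h rfl

lemma ce_supp {m k : ℕ} (h : ce m k ≠ 0) : k = m := by
  unfold ce at h
  by_contra h1
  rw [if_neg h1] at h
  exact h rfl

lemma lam_supp (b J : ℕ) (A : Finset ℕ) (hA : A ⊆ PJ J) (h : lam b J A ≠ 0) :
    eA A ≤ Dlev b J := by
  apply eA_le J b A hA
  intro j hj
  have := cs_supp (lamc_supp _ J A h j hj)
  omega

lemma sum_abs_lam (b J : ℕ) : ∑ A ∈ (PJ J).powerset, |lam b J A| ≤ Dlev b J := by
  apply sum_abs_lamc _ (fun j k => cs_abs _ _)
  intro j _ k hk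
  have := cs_supp hk
  omega

lemma sum_abs_lamE (b J i : ℕ) : ∑ A ∈ (PJ J).powerset, |lamE b J i A| ≤ Dlev b J := by
  apply sum_abs_lamc
  · intro j k
    split_ifs
    · exact ce_abs _ _
    · exact cs_abs _ _
  · intro j _ k hk
    split_ifs at hk
    · have := ce_supp hk
      omega
    · have := cs_supp hk
      omega

/-- The function with given weights. -/
noncomputable def fval (𝒜 : Finset (Finset ℕ)) (w : Finset ℕ → ℝ) (n : ℕ) : ℝ :=
  ∑ A ∈ 𝒜, w A * (if eA A ∣ n then 1 else 0)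

/-- Divisibility indicator. -/
noncomputable def xn (n p : ℕ) : ℝ := if p ∣ n then 1 else 0

lemma xn_nonneg (n p : ℕ) : 0 ≤ xn n p := by unfold xn; split_ifs <;> norm_num
lemma xn_le_one (n p : ℕ) : xn n p ≤ 1 := by unfold xn; split_ifs <;> norm_num

/-- The indicator of the numbers without prime factor up to `2^(2^J)`. -/
noncomputable def roughI (J n : ℕ) : ℝ := ∏ p ∈ PJ J, (1 - xn n p)

lemma roughI_eq (J n : ℕ) : roughI J n = if ∀ p ∈ PJ J, ¬ p ∣ n then 1 else 0 := by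
  unfold roughI
  split_ifs with h
  · exact prod_eq_one fun p hp => by unfold xn; rw [if_neg (h p hp), sub_zero]
  · push Not at h
    obtain ⟨p, hp, hpn⟩ := h
    exact prod_eq_zero hp (by unfold xn; rw [if_pos hpn, sub_self])

lemma roughI_nonneg (J n : ℕ) : 0 ≤ roughI J n := by
  rw [roughI_eq]; split_ifs <;> norm_num

lemma roughI_le_one (J n : ℕ) : roughI J n ≤ 1 := by
  rw [roughI_eq]; split_ifs <;> norm_num

lemma fval_lamc (c : ℕ → ℕ → ℝ) (J n : ℕ) :
    fval (PJ J).powerset (lamc c J) n =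
      (∏ p ∈ PJ 0, (1 - xn n p)) * ∏ j ∈ range J, TB (c j) (Bk j) (xn n) 1 := by
  have h1 := lam_sum c J (xn n) 1
  have h2 : ∏ p ∈ PJ 0, ((1 : ℕ → ℝ) p - xn n p) = ∏ p ∈ PJ 0, (1 - xn n p) := rfl
  rw [← h2, ← h1]
  unfold fval
  refine sum_congr rfl fun A hA => ?_
  rw [mem_powerset] at hA
  have hAp : ∀ p ∈ A, p.Prime := fun p hp => PJ_prime (hA hp)
  congr 1
  simp only [Pi.one_apply, prod_const_one, mul_one]
  have hiff := eA_dvd_iff hAp n
  split_ifs with h
  · rw [hiff] at h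
    symm
    exact prod_eq_one fun p hp => by unfold xn; rw [if_pos (h p hp)]
  · rw [hiff] at h
    push Not at h
    obtain ⟨p, hp, hpn⟩ := h
    symm
    exact prod_eq_zero hp (by unfold xn; rw [if_neg hpn])

lemma prod_telescope (T o e : ℕ → ℝ) (ho : ∀ j, 0 ≤ o j) (hoT : ∀ j, o j ≤ T j)
    (he : ∀ j, T j ≤ o j + e j) (J : ℕ) :
    ∏ j ∈ range J, T j - ∏ j ∈ range J, o j ≤
      ∑ i ∈ range J, ∏ j ∈ range J, (if j = i then e j else T j) := by
  induction J with
  | zero => simp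
  | succ J ih =>
    rw [prod_range_succ, prod_range_succ, sum_range_succ]
    have h1 : ∑ i ∈ range J, ∏ j ∈ range (J + 1), (if j = i then e j else T j) =
        (∑ i ∈ range J, ∏ j ∈ range J, (if j = i then e j else T j)) * T J := by
      rw [sum_mul]
      refine sum_congr rfl fun i hi => ?_
      rw [mem_range] at hi
      rw [prod_range_succ, if_neg (by omega)]
    have h2 : ∏ j ∈ range (J + 1), (if j = J then e j else T j) = (∏ j ∈ range J, T j) * e J := by
      rw [prod_range_succ, if_pos rfl]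
      congr 1
      refine prod_congr rfl fun j hj => ?_
      rw [mem_range] at hj
      rw [if_neg (by omega)]
    rw [h1, h2]
    have h3 : 0 ≤ ∏ j ∈ range J, o j := prod_nonneg fun j _ => ho j
    have h4 : ∏ j ∈ range J, o j ≤ ∏ j ∈ range J, T j :=
      prod_le_prod (fun j _ => ho j) (fun j _ => hoT j)
    have h5 : 0 ≤ T J := (ho J).trans (hoT J)
    have h6 := he J
    have h7 := hoT J
    calc (∏ j ∈ range J, T j) * T J - (∏ j ∈ range J, o j) * o J
        = (∏ j ∈ range J, T j - ∏ j ∈ range J, o j) * T J + (∏ j ∈ range J, o j) * (T J - o J) := by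
          ring
      _ ≤ (∑ i ∈ range J, ∏ j ∈ range J, (if j = i then e j else T j)) * T J +
          (∏ j ∈ range J, T j) * e J := by
          apply add_le_add (mul_le_mul_of_nonneg_right ih h5)
          calc (∏ j ∈ range J, o j) * (T J - o J) ≤ (∏ j ∈ range J, T j) * (T J - o J) :=
                mul_le_mul_of_nonneg_right h4 (by linarith)
            _ ≤ (∏ j ∈ range J, T j) * e J :=
                mul_le_mul_of_nonneg_left (by linarith) (h3.trans h4)

lemma TB_xn_ge (b J j n : ℕ) : ∏ p ∈ Bk j, (1 - xn n p) ≤ TB (cs (mlev b J j)) (Bk j) (xn n) 1 := by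
  have h1 := (bonferroni (Bk j) (xn n) (fun p _ => xn_nonneg n p) (fun p _ => xn_le_one n p)
    (mlev b J j)).1
  rw [(mlev_even b J j).neg_one_pow, one_mul] at h1
  linarith

lemma TB_xn_le (b J j n : ℕ) : TB (cs (mlev b J j)) (Bk j) (xn n) 1 ≤
    ∏ p ∈ Bk j, (1 - xn n p) + TB (ce (mlev b J j + 1)) (Bk j) (xn n) 1 := by
  have h1 := (bonferroni (Bk j) (xn n) (fun p _ => xn_nonneg n p) (fun p _ => xn_le_one n p)
    (mlev b J j)).2
  rw [(mlev_even b J j).neg_one_pow, one_mul] at h1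
  linarith

lemma roughI_prod (J n : ℕ) : roughI J n =
    (∏ p ∈ PJ 0, (1 - xn n p)) * ∏ j ∈ range J, ∏ p ∈ Bk j, (1 - xn n p) :=
  (prod_f_range _ J).symm

lemma prod_xn_nonneg (B : Finset ℕ) (n : ℕ) : 0 ≤ ∏ p ∈ B, (1 - xn n p) :=
  prod_nonneg fun p _ => by linarith [xn_le_one n p]

lemma rough_le_fval (b J n : ℕ) : roughI J n ≤ fval (PJ J).powerset (lam b J) n := by
  unfold lam
  rw [fval_lamc, roughI_prod]
  apply mul_le_mul_of_nonneg_left _ (prod_xn_nonneg _ _)
  exact prod_le_prod (fun j _ => prod_xn_nonneg _ _) (fun j _ => TB_xn_ge b J j n)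

lemma fval_sub_rough (b J n : ℕ) : fval (PJ J).powerset (lam b J) n - roughI J n ≤
    ∑ i ∈ range J, fval (PJ J).powerset (lamE b J i) n := by
  unfold lam lamE
  rw [fval_lamc, roughI_prod, ← mul_sub]
  have h1 := prod_telescope (fun j => TB (cs (mlev b J j)) (Bk j) (xn n) 1)
    (fun j => ∏ p ∈ Bk j, (1 - xn n p))
    (fun j => TB (ce (mlev b J j + 1)) (Bk j) (xn n) 1)
    (fun j => prod_xn_nonneg _ _) (fun j => TB_xn_ge b J j n) (fun j => TB_xn_le b J j n) J
  refine (mul_le_mul_of_nonneg_left h1 (prod_xn_nonneg _ _)).trans (le_of_eq ?_)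
  rw [mul_sum]
  refine sum_congr rfl fun i _ => ?_
  rw [fval_lamc]
  congr 1
  refine prod_congr rfl fun j _ => ?_
  split_ifs <;> rfl

/-- Number of multiples in an interval. -/
lemma count_multiples (d T x : ℕ) (hd : 0 < d) (h : T ≤ x) :
    |∑ t ∈ Ioc T x, ((if d ∣ t then (1 : ℝ) else 0) - (d : ℝ)⁻¹)| ≤ 1 := by
  have h1 : ∀ x : ℕ, ∑ t ∈ Ioc 0 x, (if d ∣ t then (1 : ℝ) else 0) = ((x / d : ℕ) : ℝ) := by
    intro x
    rw [sum_boole, Nat.Ioc_filter_dvd_card_eq_div]
  have h2 : ∑ t ∈ Ioc T x, (if d ∣ t then (1 : ℝ) else 0) = ((x / d : ℕ) : ℝ) - ((T / d : ℕ) : ℝ) := by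
    rw [← h1, ← h1, eq_sub_iff_add_eq, add_comm]
    rw [← sum_union]
    · refine sum_congr ?_ fun _ _ => rfl
      ext t; simp only [mem_union, mem_Ioc]; omega
    · rw [Finset.disjoint_left]
      intro t h1 h2
      rw [mem_Ioc] at h1 h2; omega
  rw [sum_sub_distrib, h2, sum_const, Nat.card_Ioc, nsmul_eq_mul, Nat.cast_sub h]
  have hd' : (0 : ℝ) < d := by exact_mod_cast hd
  have e1 := Nat.div_mul_le_self x d
  have e2 := Nat.lt_div_mul_add (a := x) hd
  have e3 := Nat.div_mul_le_self T d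
  have e4 := Nat.lt_div_mul_add (a := T) hd
  have e1' : ((x / d : ℕ) : ℝ) * d ≤ x := by exact_mod_cast e1
  have e2' : (x : ℝ) < ((x / d : ℕ) : ℝ) * d + d := by exact_mod_cast e2
  have e3' : ((T / d : ℕ) : ℝ) * d ≤ T := by exact_mod_cast e3
  have e4' : (T : ℝ) < ((T / d : ℕ) : ℝ) * d + d := by exact_mod_cast e4
  have hinv : (d : ℝ) * (d : ℝ)⁻¹ = 1 := mul_inv_cancel₀ hd'.ne'
  have hi : 0 < (d : ℝ)⁻¹ := inv_pos.2 hd'
  have key : ∀ z : ℝ, ∀ c : ℝ, (z * d ≤ c * d) → z ≤ c := fun z c h =>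
    le_of_mul_le_mul_right h hd'
  rw [abs_le]
  constructor
  · apply key
    have : (((x / d : ℕ) : ℝ) - ((T / d : ℕ) : ℝ) - ((x : ℝ) - T) * (d : ℝ)⁻¹) * d =
        ((x / d : ℕ) : ℝ) * d - ((T / d : ℕ) : ℝ) * d - (x - T) * ((d : ℝ) * (d : ℝ)⁻¹) := by ring
    rw [this, hinv]; linarith
  · apply key
    have : (((x / d : ℕ) : ℝ) - ((T / d : ℕ) : ℝ) - ((x : ℝ) - T) * (d : ℝ)⁻¹) * d =
        ((x / d : ℕ) : ℝ) * d - ((T / d : ℕ) : ℝ) * d - (x - T) * ((d : ℝ) * (d : ℝ)⁻¹) := by ring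
    rw [this, hinv]; linarith

/-- Sum of `fval` over an interval. -/
lemma sum_fval_le (𝒜 : Finset (Finset ℕ)) (w : Finset ℕ → ℝ) (h𝒜 : ∀ A ∈ 𝒜, ∀ p ∈ A, p.Prime)
    (T X : ℕ) (hTX : T ≤ X) :
    ∑ n ∈ Ioc T X, fval 𝒜 w n ≤ (X - T) * ∑ A ∈ 𝒜, w A * ((eA A : ℕ) : ℝ)⁻¹ + ∑ A ∈ 𝒜, |w A| := by
  unfold fval
  rw [sum_comm, mul_sum, ← sum_add_distrib]
  refine sum_le_sum fun A hA => ?_
  rw [← mul_sum]
  have h1 := count_multiples (eA A) T X (eA_pos (h𝒜 A hA)) hTX
  rw [sum_sub_distrib, sum_const, Nat.card_Ioc, nsmul_eq_mul, Nat.cast_sub hTX] at h1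
  set s := ∑ n ∈ Ioc T X, (if eA A ∣ n then (1 : ℝ) else 0)
  have h2 : w A * (s - (X - T) * ((eA A : ℕ) : ℝ)⁻¹) ≤ |w A| := by
    calc w A * (s - (X - T) * ((eA A : ℕ) : ℝ)⁻¹) ≤ |w A * (s - (X - T) * ((eA A : ℕ) : ℝ)⁻¹)| :=
          le_abs_self _
      _ = |w A| * |s - (X - T) * ((eA A : ℕ) : ℝ)⁻¹| := abs_mul _ _
      _ ≤ |w A| * 1 := mul_le_mul_of_nonneg_left h1 (abs_nonneg _)
      _ = _ := mul_one _
  linarith

lemma geom_norm (a b : ℕ) (x : UnitAddCircle) (c : ℝ) (hc : 0 < c) (hx : c ≤ ‖x‖) :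
    ‖∑ m ∈ Ioc a b, e (m • x)‖ ≤ 1 / (2 * c) := by
  rcases le_total b a with h | h
  · rw [Ioc_eq_empty_of_le h]; simp; positivity
  · have h1 : ∑ m ∈ Ioc a b, e (m • x) = e ((a + 1) • x) * dker (b - a) x := by
      unfold dker
      rw [mul_sum]
      refine sum_nbij' (fun m => m - (a + 1)) (fun m => m + (a + 1)) ?_ ?_ ?_ ?_ ?_
      · intro m hm; rw [mem_Ioc] at hm; rw [mem_range]; omega
      · intro m hm; rw [mem_range] at hm; rw [mem_Ioc]; omega
      · intro m hm; rw [mem_Ioc] at hm; omega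
      · intro m hm; omega
      · intro m hm
        rw [mem_Ioc] at hm
        rw [← e_add, ← add_smul]
        congr 2
        omega
    rw [h1, norm_mul, norm_e, one_mul]
    have h2 := norm_dker_mul_le (b - a) x
    have h3 : 0 < ‖x‖ := lt_of_lt_of_le hc hx
    have h4 : ‖dker (b - a) x‖ ≤ 1 / (2 * ‖x‖) := by
      rw [le_div_iff₀ (by positivity)]; exact h2
    refine h4.trans ?_
    apply one_div_le_one_div_of_le (by positivity)
    linarith

/-- Exponential sum of `fval` near a rational. -/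
theorem typeI (𝒜 : Finset (Finset ℕ)) (w : Finset ℕ → ℝ) (h𝒜 : ∀ A ∈ 𝒜, ∀ p ∈ A, p.Prime)
    (T X : ℕ) (hTX : T ≤ X) {α β : UnitAddCircle} {q : ℕ} (hq : addOrderOf α = q) (hq0 : 0 < q)
    (hs : ∀ A ∈ 𝒜, w A ≠ 0 → ((eA A : ℕ) : ℝ) * ‖β‖ ≤ 1 / (2 * q)) :
    ‖nsum (Ioc T X) (fval 𝒜 w) (α + β)‖ ≤
      |∑ A ∈ 𝒜, w A * (if q ∣ eA A then ((eA A : ℕ) : ℝ)⁻¹ else 0)| *
        ‖∑ n ∈ Ioc T X, e (n • β)‖ +
      (∑ A ∈ 𝒜, |w A|) * (q + 1 + (X - T) * ‖e β - 1‖) := by
  have hq' : (0 : ℝ) < q := by exact_mod_cast hq0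
  have hXT : (0 : ℝ) ≤ X - T := by
    have : (T : ℝ) ≤ X := by exact_mod_cast hTX
    linarith
  set Z := ∑ n ∈ Ioc T X, e (n • β) with hZ
  set g : Finset ℕ → ℂ := fun A => ∑ n ∈ Ioc T X, ((if eA A ∣ n then (1 : ℝ) else 0 : ℝ) : ℂ) *
    e (n • (α + β)) with hg
  have h1 : nsum (Ioc T X) (fval 𝒜 w) (α + β) = ∑ A ∈ 𝒜, (w A : ℂ) * g A := by
    unfold nsum fval
    rw [hg]
    simp_rw [mul_sum]
    rw [sum_comm]
    refine sum_congr rfl fun n _ => ?_
    rw [Complex.ofReal_sum, sum_mul]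
    refine sum_congr rfl fun A _ => ?_
    rw [Complex.ofReal_mul, mul_assoc]
  have h2 : ∀ A ∈ 𝒜, w A ≠ 0 →
      ‖g A - ((if q ∣ eA A then ((eA A : ℕ) : ℝ)⁻¹ else 0 : ℝ) : ℂ) * Z‖ ≤
        q + 1 + (X - T) * ‖e β - 1‖ := by
    intro A hA hwA
    have hd := eA_pos (h𝒜 A hA)
    set d := eA A with hd'
    have hdR : (0 : ℝ) < d := by exact_mod_cast hd
    split_ifs with hqd
    · have h3 : g A - (((d : ℝ)⁻¹ : ℝ) : ℂ) * Z =
          ∑ t ∈ Ioc T X, (((if d ∣ t then (1 : ℝ) else 0) - (d : ℝ)⁻¹ : ℝ) : ℂ) * (e β) ^ t := by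
        rw [hg, hZ]
        simp only
        rw [mul_sum, ← sum_sub_distrib]
        refine sum_congr rfl fun t _ => ?_
        rw [← e_nsmul]
        by_cases hdt : d ∣ t
        · have h4 : t • α = 0 := by
            apply addOrderOf_dvd_iff_nsmul_eq_zero.1
            rw [hq]; exact hqd.trans hdt
          rw [smul_add, h4, zero_add, if_pos hdt]
          push_cast
          ring
        · rw [if_neg hdt]
          push_cast
          ring
      rw [h3]
      have h4 := abel_bound (fun t => (if d ∣ t then (1 : ℝ) else 0) - (d : ℝ)⁻¹) (e β) (norm_e β)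
        T X hTX 1 (fun x hx1 _ => count_multiples d T x hd hx1)
      refine h4.trans ?_
      linarith
    · rw [Complex.ofReal_zero, zero_mul, sub_zero]
      have h3 : g A = ∑ m ∈ Ioc (T / d) (X / d), e (m • (d • (α + β))) := by
        rw [hg]
        simp only
        have : ∀ n ∈ Ioc T X, ((if d ∣ n then (1 : ℝ) else 0 : ℝ) : ℂ) * e (n • (α + β)) =
            if d ∣ n then e (n • (α + β)) else 0 := by
          intro n _; split_ifs <;> simp
        rw [sum_congr rfl this, ← sum_filter]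
        symm
        refine sum_nbij' (fun m => d * m) (fun n => n / d) ?_ ?_ ?_ ?_ ?_
        · intro m hm
          rw [mem_Ioc] at hm
          rw [mem_filter, mem_Ioc]
          refine ⟨⟨?_, ?_⟩, Dvd.intro _ rfl⟩
          · have := (Nat.div_lt_iff_lt_mul hd).1 hm.1
            linarith
          · have := (Nat.le_div_iff_mul_le hd).1 hm.2
            linarith
        · intro n hn
          rw [mem_filter, mem_Ioc] at hn
          obtain ⟨⟨hn1, hn2⟩, k, rfl⟩ := hn
          rw [Nat.mul_div_cancel_left _ hd, mem_Ioc]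
          constructor
          · rw [Nat.div_lt_iff_lt_mul hd]; linarith
          · rw [Nat.le_div_iff_mul_le hd]; linarith
        · intro m _; exact Nat.mul_div_cancel_left _ hd
        · intro n hn
          rw [mem_filter] at hn
          exact Nat.mul_div_cancel' hn.2
        · intro m _
          rw [← mul_smul, mul_comm]
      rw [h3]
      have h4 : 1 / (2 * (q : ℝ)) ≤ ‖d • (α + β)‖ := by
        have h5 : d • α ≠ 0 := by
          intro h0
          apply hqd
          rw [← hq]; exact addOrderOf_dvd_iff_nsmul_eq_zero.2 h0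
        have h6 : q • (d • α) = 0 := by
          rw [smul_comm, ← hq, addOrderOf_nsmul_eq_zero, smul_zero]
        have h7 := norm_ge_of_nsmul_eq_zero hq0 h6 h5
        have h8 : 1 / (q : ℝ) ≤ ‖d • α‖ := by
          rw [div_le_iff₀ hq']; linarith
        have h9 : ‖d • α‖ ≤ ‖d • (α + β)‖ + ‖d • β‖ := by
          have : d • α = d • (α + β) - d • β := by rw [smul_add]; abel
          rw [this]
          exact norm_sub_le _ _
        have h10 : ‖d • β‖ ≤ (d : ℝ) * ‖β‖ := norm_nsmul_le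
        have h11 := hs A hA hwA
        have h12 : 1 / (q : ℝ) = 1 / (2 * q) + 1 / (2 * q) := by field_simp; norm_num
        linarith
      have h5 := geom_norm (T / d) (X / d) (d • (α + β)) (1 / (2 * q)) (by positivity) h4
      have h6 : 1 / (2 * (1 / (2 * (q : ℝ)))) = q := by field_simp
      rw [h6] at h5
      refine h5.trans ?_
      have := norm_nonneg (e β - 1)
      nlinarith [mul_nonneg hXT this]
  have h3 : nsum (Ioc T X) (fval 𝒜 w) (α + β) =
      ((∑ A ∈ 𝒜, w A * (if q ∣ eA A then ((eA A : ℕ) : ℝ)⁻¹ else 0) : ℝ) : ℂ) * Z +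
      ∑ A ∈ 𝒜, (w A : ℂ) * (g A - ((if q ∣ eA A then ((eA A : ℕ) : ℝ)⁻¹ else 0 : ℝ) : ℂ) * Z) := by
    rw [h1, Complex.ofReal_sum, sum_mul, ← sum_add_distrib]
    refine sum_congr rfl fun A _ => ?_
    rw [Complex.ofReal_mul]
    ring
  rw [h3]
  refine (norm_add_le _ _).trans ?_
  rw [norm_mul, Complex.norm_real, Real.norm_eq_abs]
  apply add_le_add le_rfl
  rw [sum_mul]
  refine (norm_sum_le _ _).trans (sum_le_sum fun A hA => ?_)
  rw [norm_mul, Complex.norm_real, Real.norm_eq_abs]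
  by_cases hwA : w A = 0
  · rw [hwA]; simp
  · exact mul_le_mul_of_nonneg_left (h2 A hA hwA) (abs_nonneg _)

/-- Exponential sum over rough numbers. -/
theorem rough_expSum (b J : ℕ) (T X : ℕ) (hTX : T ≤ X) {α β : UnitAddCircle} {q : ℕ}
    (hq : addOrderOf α = q) (hq0 : 0 < q) (hs : (Dlev b J : ℝ) * ‖β‖ ≤ 1 / (2 * q)) :
    ‖nsum (Ioc T X) (roughI J) (α + β)‖ ≤
      Kd * (Real.exp 8) ^ #q.primeFactors / q * (V (PJ J))⁻¹ * ‖∑ n ∈ Ioc T X, e (n • β)‖ +
      Kd * (V (PJ J))⁻¹ * (X - T) * (Real.exp 68 * (256 ^ b)⁻¹) +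
      Dlev b J * (q + 1 + J + (X - T) * ‖e β - 1‖) := by
  have h𝒜 : ∀ A ∈ (PJ J).powerset, ∀ p ∈ A, p.Prime := fun A hA p hp =>
    PJ_prime (mem_powerset.1 hA hp)
  have hVpos : 0 < (V (PJ J))⁻¹ := inv_pos.2 (V_pos (fun p hp => PJ_prime hp))
  have hKd : 0 < Kd := Real.exp_pos _
  have hXT : (0 : ℝ) ≤ X - T := by
    have : (T : ℝ) ≤ X := by exact_mod_cast hTX
    linarith
  have h1 := typeI (PJ J).powerset (lam b J) h𝒜 T X hTX hq hq0 (by
    intro A hA hw
    refine le_trans ?_ hs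
    have := lam_supp b J A (mem_powerset.1 hA) hw
    have : ((eA A : ℕ) : ℝ) ≤ Dlev b J := by exact_mod_cast this
    exact mul_le_mul_of_nonneg_right this (norm_nonneg _))
  have h2 := W_bound b J q hq0
  have h3 := sum_abs_lam b J
  -- the error
  have h4 : ∑ n ∈ Ioc T X, (fval (PJ J).powerset (lam b J) n - roughI J n) ≤
      Kd * (V (PJ J))⁻¹ * (X - T) * (Real.exp 68 * (256 ^ b)⁻¹) + J * Dlev b J := by
    calc ∑ n ∈ Ioc T X, (fval (PJ J).powerset (lam b J) n - roughI J n)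
        ≤ ∑ n ∈ Ioc T X, ∑ i ∈ range J, fval (PJ J).powerset (lamE b J i) n :=
          sum_le_sum fun n _ => fval_sub_rough b J n
      _ = ∑ i ∈ range J, ∑ n ∈ Ioc T X, fval (PJ J).powerset (lamE b J i) n := sum_comm
      _ ≤ ∑ i ∈ range J, ((X - T) * (Kd * eps b J i * (V (PJ J))⁻¹) + Dlev b J) := by
          refine sum_le_sum fun i hi => ?_
          refine (sum_fval_le _ _ h𝒜 T X hTX).trans ?_
          have e1 := E_bound b J i (mem_range.1 hi)
          have e2 := sum_abs_lamE b J i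
          gcongr
      _ = Kd * (V (PJ J))⁻¹ * (X - T) * (∑ i ∈ range J, eps b J i) + J * Dlev b J := by
          rw [sum_add_distrib, sum_const, card_range, nsmul_eq_mul, mul_sum]
          congr 1
          refine sum_congr rfl fun i _ => ?_
          ring
      _ ≤ _ := by
          have := sum_eps b J
          gcongr
  have h5 : ‖nsum (Ioc T X) (roughI J) (α + β)‖ ≤
      ‖nsum (Ioc T X) (fval (PJ J).powerset (lam b J)) (α + β)‖ +
      ∑ n ∈ Ioc T X, (fval (PJ J).powerset (lam b J) n - roughI J n) := by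
    have e1 : nsum (Ioc T X) (roughI J) (α + β) =
        nsum (Ioc T X) (fval (PJ J).powerset (lam b J)) (α + β) -
        nsum (Ioc T X) (fun n => fval (PJ J).powerset (lam b J) n - roughI J n) (α + β) := by
      unfold nsum
      rw [← sum_sub_distrib]
      refine sum_congr rfl fun n _ => ?_
      push_cast
      ring
    rw [e1]
    refine (norm_sub_le _ _).trans ?_
    gcongr
    unfold nsum
    refine (norm_sum_le _ _).trans (sum_le_sum fun n _ => ?_)
    rw [norm_mul, norm_e, mul_one, Complex.norm_real, Real.norm_eq_abs, abs_of_nonneg]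
    linarith [rough_le_fval b J n]
  have h6 : 0 ≤ ‖∑ n ∈ Ioc T X, e (n • β)‖ := norm_nonneg _
  have h7 : 0 ≤ ((q : ℝ) + 1 + (X - T) * ‖e β - 1‖) := by positivity
  calc ‖nsum (Ioc T X) (roughI J) (α + β)‖ ≤ _ := h5
    _ ≤ (Kd * (Real.exp 8) ^ #q.primeFactors / q * (V (PJ J))⁻¹ * ‖∑ n ∈ Ioc T X, e (n • β)‖ +
        Dlev b J * (q + 1 + (X - T) * ‖e β - 1‖)) +
        (Kd * (V (PJ J))⁻¹ * (X - T) * (Real.exp 68 * (256 ^ b)⁻¹) + J * Dlev b J) := by
        apply add_le_add _ h4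
        refine h1.trans ?_
        gcongr
    _ = _ := by ring

end LSieve
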