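import Pool.Agent.LibVinogradov.BlockSum

/-!
# Choice of parameters
-/

namespace LSieve

open Finset Filter Topology

/-- The parameter `J`. -/
def Jp (l b : ℕ) : ℕ := Nat.log 2 (8 * l / (4 * b + 7))

/-- The parameter `M`. -/
def Mp (l b : ℕ) : ℕ := 2 ^ (2 ^ (Jp l b - 2))

lemma poly_le_two_pow : ∀ᶠ r : ℕ in atTop, 100 * (r + 1) * (80 * (r + 1) + 7) ≤ 2 ^ r := by
  have h1 : Tendsto (fun r : ℕ => (r : ℝ) ^ 2 / (2 : ℝ) ^ r) atTop (𝓝 0) :=
    tendsto_pow_const_div_const_pow_of_one_lt 2 (by norm_num)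
  have h2 := h1.eventually_lt_const (show (0 : ℝ) < 1 / 40000 by norm_num)
  filter_upwards [h2, eventually_ge_atTop 1] with r hr hr1
  rw [div_lt_iff₀ (by positivity)] at hr
  have hr1' : (1 : ℝ) ≤ r := by exact_mod_cast hr1
  have : ((100 * (r + 1) * (80 * (r + 1) + 7) : ℕ) : ℝ) ≤ ((2 ^ r : ℕ) : ℝ) := by
    push_cast
    nlinarith
  exact_mod_cast this

lemma params : ∀ᶠ n : ℕ in atTop, ∀ b : ℕ, 2 ^ b ≤ (Nat.log 2 n) ^ 20 →
    Dlev b (Jp (Nat.log 2 n) b) ≤ n ^ 8 ∧ 2 ≤ Jp (Nat.log 2 n) b ∧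
    Nat.log 2 n ≤ 2 ^ (Jp (Nat.log 2 n) b - 2) * (4 * b + 7) ∧
    2 ^ (2 ^ (Jp (Nat.log 2 n) b)) = (Mp (Nat.log 2 n) b) ^ 4 ∧
    (Nat.log 2 n) ^ 100 ≤ Mp (Nat.log 2 n) b ∧ (Mp (Nat.log 2 n) b) ^ 4 ≤ n ^ 2 ∧
    Jp (Nat.log 2 n) b ≤ n ^ 2 := by
  have hlog : Tendsto (fun n : ℕ => Nat.log 2 n) atTop atTop :=
    tendsto_atTop.2 (fun m => eventually_atTop.2
      ⟨2 ^ m, fun n hn => Nat.le_log_of_pow_le (by norm_num) hn⟩)
  have hloglog : Tendsto (fun n : ℕ => Nat.log 2 (Nat.log 2 n)) atTop atTop := hlog.comp hlog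
  filter_upwards [hloglog.eventually poly_le_two_pow, hlog.eventually_ge_atTop 2,
    eventually_ge_atTop 8] with n hn hl2 hn8 b hb
  set l := Nat.log 2 n with hl
  set r := Nat.log 2 l with hr
  have hl0 : l ≠ 0 := by omega
  have hlr : 2 ^ r ≤ l := Nat.pow_log_le_self 2 hl0
  have hlr2 : l < 2 ^ (r + 1) := Nat.lt_pow_succ_log_self (by norm_num) l
  have hln : 2 ^ l ≤ n := Nat.pow_log_le_self 2 (by omega)
  -- `b ≤ 20 (r+1)`
  have hbr : b ≤ 20 * (r + 1) := by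
    have h1 : 2 ^ b ≤ 2 ^ ((r + 1) * 20) := by
      rw [pow_mul]
      exact hb.trans (Nat.pow_le_pow_left hlr2.le 20)
    have := (Nat.pow_le_pow_iff_right (by norm_num : 1 < 2)).1 h1
    linarith
  clear hb
  set N := 8 * l / (4 * b + 7) with hN
  have hpos : 0 < 4 * b + 7 := by omega
  have hlbig : 100 * (r + 1) * (4 * b + 7) ≤ l := by
    calc 100 * (r + 1) * (4 * b + 7) ≤ 100 * (r + 1) * (80 * (r + 1) + 7) := by
          apply Nat.mul_le_mul_left; omega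
      _ ≤ 2 ^ r := hn
      _ ≤ l := hlr
  have hNbig : 800 * (r + 1) ≤ N := by
    rw [hN, Nat.le_div_iff_mul_le hpos]
    calc 800 * (r + 1) * (4 * b + 7) = 8 * (100 * (r + 1) * (4 * b + 7)) := by ring
      _ ≤ 8 * l := Nat.mul_le_mul_left 8 hlbig
  have hN0 : N ≠ 0 := (lt_of_lt_of_le (show 0 < 800 * (r + 1) by positivity) hNbig).ne'
  have hJdef : Jp l b = Nat.log 2 N := rfl
  have h2J : 2 ^ (Jp l b) ≤ N := by rw [hJdef]; exact Nat.pow_log_le_self 2 hN0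
  have h2J1 : N < 2 ^ (Jp l b + 1) := by rw [hJdef]; exact Nat.lt_pow_succ_log_self (by norm_num) N
  have hJ2 : 2 ≤ Jp l b := by
    by_contra h
    push Not at h
    have : 2 ^ (Jp l b + 1) ≤ 2 ^ 2 := Nat.pow_le_pow_right (by norm_num) (by omega)
    omega
  have h4 : 2 ^ (Jp l b - 2) * 4 = 2 ^ (Jp l b) := by
    rw [show (4 : ℕ) = 2 ^ 2 by norm_num, ← pow_add]; congr 1; omega
  have h8 : 2 ^ (Jp l b - 2) * 8 = 2 ^ (Jp l b + 1) := by
    rw [show (8 : ℕ) = 2 ^ 3 by norm_num, ← pow_add]; congr 1; omega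
  have hNb : 8 * l < (N + 1) * (4 * b + 7) := by
    have := Nat.lt_mul_div_succ (8 * l) hpos
    rw [hN]; linarith
  refine ⟨?_, hJ2, ?_, ?_, ?_, ?_, ?_⟩
  · unfold Dlev
    calc 2 ^ (2 ^ Jp l b * (4 * b + 7)) ≤ 2 ^ (8 * l) := by
          apply Nat.pow_le_pow_right (by norm_num)
          calc 2 ^ Jp l b * (4 * b + 7) ≤ N * (4 * b + 7) := Nat.mul_le_mul_right _ h2J
            _ ≤ 8 * l := Nat.div_mul_le_self _ _
      _ = (2 ^ l) ^ 8 := by rw [← pow_mul]; ring_nf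
      _ ≤ n ^ 8 := Nat.pow_le_pow_left hln 8
  · have h5 : 8 * l ≤ (2 ^ (Jp l b - 2) * (4 * b + 7)) * 8 := by
      calc 8 * l ≤ (N + 1) * (4 * b + 7) := hNb.le
        _ ≤ 2 ^ (Jp l b + 1) * (4 * b + 7) := Nat.mul_le_mul_right _ h2J1
        _ = _ := by rw [← h8]; ring
    omega
  · unfold Mp
    rw [← pow_mul, h4]
  · have h5 : 100 * (r + 1) ≤ 2 ^ (Jp l b - 2) := by omega
    unfold Mp
    calc l ^ 100 ≤ (2 ^ (r + 1)) ^ 100 := Nat.pow_le_pow_left hlr2.le 100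
      _ = 2 ^ (100 * (r + 1)) := by rw [← pow_mul]; ring_nf
      _ ≤ _ := Nat.pow_le_pow_right (by norm_num) h5
  · unfold Mp
    rw [← pow_mul, h4]
    calc 2 ^ (2 ^ Jp l b) ≤ 2 ^ (2 * l) := by
          apply Nat.pow_le_pow_right (by norm_num)
          refine h2J.trans ?_
          rw [hN]
          calc 8 * l / (4 * b + 7) ≤ 8 * l / 7 := Nat.div_le_div_left (by omega) (by norm_num)
            _ ≤ 2 * l := by omega
      _ = (2 ^ l) ^ 2 := by rw [← pow_mul]; ring_nf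
      _ ≤ n ^ 2 := Nat.pow_le_pow_left hln 2
  · have h5 : Jp l b ≤ N := (Nat.lt_two_pow_self).le.trans h2J
    have h6 : N ≤ 8 * l := Nat.div_le_self _ _
    have h7 : l ≤ n := Nat.log_le_self 2 n
    calc Jp l b ≤ 8 * n := by omega
      _ ≤ n * n := Nat.mul_le_mul_right _ hn8
      _ = n ^ 2 := by ring

/-- `K ^ ω(q)` is at most a constant times `q ^ (1/4)`. -/
lemma pow_omega (K : ℝ) (hK : 1 ≤ K) : ∃ C : ℝ, 1 ≤ C ∧ ∀ q : ℕ, 0 < q →
    (K ^ #q.primeFactors) ^ 4 ≤ C * q := by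
  classical
  obtain ⟨N, hN⟩ := exists_nat_ge (K ^ 4)
  have hK4 : 1 ≤ K ^ 4 := one_le_pow₀ hK
  refine ⟨(K ^ 4) ^ N, one_le_pow₀ hK4, fun q hq => ?_⟩
  have h1 : (K ^ #q.primeFactors) ^ 4 = ∏ p ∈ q.primeFactors, K ^ 4 := by
    rw [prod_const, ← pow_mul, ← pow_mul, mul_comm]
  rw [h1]
  have h2 : ∏ p ∈ q.primeFactors, K ^ 4 ≤
      ∏ p ∈ q.primeFactors, ((if p ≤ N then K ^ 4 else 1) * (p : ℝ)) := by
    refine prod_le_prod (fun p _ => by positivity) fun p hp => ?_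
    have hp1 : (1 : ℝ) ≤ p := by exact_mod_cast (Nat.prime_of_mem_primeFactors hp).one_le
    split_ifs with h
    · exact le_mul_of_one_le_right (by positivity) hp1
    · rw [one_mul]
      push Not at h
      have : (N : ℝ) ≤ p := by exact_mod_cast h.le
      linarith
  refine h2.trans ?_
  rw [prod_mul_distrib]
  have h3 : ∏ p ∈ q.primeFactors, (p : ℝ) ≤ q := by
    rw [← Nat.cast_prod]
    exact_mod_cast Nat.le_of_dvd hq (Nat.prod_primeFactors_dvd q)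
  have h4 : ∏ p ∈ q.primeFactors, (if p ≤ N then K ^ 4 else 1) ≤ (K ^ 4) ^ N := by
    rw [← prod_filter, prod_const]
    apply pow_le_pow_right₀ hK4
    calc #{p ∈ q.primeFactors | p ≤ N} ≤ #(Icc 1 N) := by
          apply card_le_card
          intro p hp
          rw [mem_filter] at hp
          rw [mem_Icc]
          exact ⟨(Nat.prime_of_mem_primeFactors hp.1).one_le, hp.2⟩
      _ = N := by simp
  have h5 : 0 ≤ ∏ p ∈ q.primeFactors, (p : ℝ) := prod_nonneg fun p _ => Nat.cast_nonneg p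
  calc _ ≤ (K ^ 4) ^ N * ∏ p ∈ q.primeFactors, (p : ℝ) := by gcongr
    _ ≤ _ := by gcongr

end LSieve
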