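import Pool.Agent.LibVinogradov.Params

/-!
# The contribution of the rough numbers
-/

namespace LSieve

open Finset Filter Topology

lemma norm_sum_e_le (T X : ℕ) (hX : X = 6 * T) (β : UnitAddCircle) :
    ‖∑ n ∈ Ioc T X, e (n • β)‖ ≤ 10 * T / (1 + T * ‖β‖) := by
  have hT0 : (0 : ℝ) ≤ T := Nat.cast_nonneg T
  have hβ0 := norm_nonneg β
  have h1 : ‖∑ n ∈ Ioc T X, e (n • β)‖ ≤ 5 * T := by
    refine (norm_sum_le _ _).trans ?_
    simp only [norm_e, sum_const, Nat.card_Ioc, nsmul_eq_mul, mul_one]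
    rw [hX]
    have : 6 * T - T = 5 * T := by omega
    rw [this]; push_cast; exact le_rfl
  rcases le_or_gt (T * ‖β‖) 1 with h | h
  · refine h1.trans ?_
    rw [le_div_iff₀ (by positivity)]
    nlinarith
  · have hβ : 0 < ‖β‖ := by
      rcases hβ0.eq_or_lt with h0 | h0
      · rw [← h0, mul_zero] at h; linarith
      · exact h0
    refine (geom_norm T X β ‖β‖ hβ le_rfl).trans ?_
    rw [div_le_div_iff₀ (by positivity) (by positivity)]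
    nlinarith

/-- Rough numbers near a rational. -/
theorem rough_part : ∃ C : ℝ, 1 ≤ C ∧ ∀ᶠ n : ℕ in atTop, ∀ b : ℕ, 2 ^ b ≤ (Nat.log 2 n) ^ 20 →
    ∀ (α β : UnitAddCircle) (q : ℕ), addOrderOf α = q → 0 < q → q ≤ n ^ 16 →
    ‖β‖ ≤ 1 / (q * (((n ^ 16 : ℕ) : ℝ) + 1)) → ∀ s τ : ℝ, 0 < s → 0 ≤ τ → 1 ≤ τ ^ 4 * s ^ 3 →
    s ≤ q * (1 + ((2 * n ^ 32 : ℕ) : ℝ) * ‖β‖) →
    ‖nsum (Ioc (2 * n ^ 32) (6 * (2 * n ^ 32))) (roughI (Jp (Nat.log 2 n) b)) (α + β)‖ ≤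
      C * (V (PJ (Jp (Nat.log 2 n) b)))⁻¹ * n ^ 32 * (τ + (256 ^ b)⁻¹) + 100 * n ^ 24 := by
  obtain ⟨C1, hC1, hC⟩ := pow_omega (Real.exp 8) (Real.one_le_exp (by norm_num))
  have hKd : 1 ≤ Kd := Real.one_le_exp (Real.exp_pos _).le
  have hE : 1 ≤ Real.exp 68 := Real.one_le_exp (by norm_num)
  refine ⟨20 * Kd * C1 * Real.exp 68, ?_, ?_⟩
  · have h1 : 1 ≤ Kd * C1 := one_le_mul_of_one_le_of_one_le hKd hC1
    have h2 : 1 ≤ Kd * C1 * Real.exp 68 := one_le_mul_of_one_le_of_one_le h1 hE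
    nlinarith
  filter_upwards [params, eventually_ge_atTop 8] with n hn hn8 b hb α β q hq hq0 hqn hβ s τ hs hτ
    hτs hsS
  obtain ⟨p1, p2, p3, p4, p5, p6, p7⟩ := hn b hb
  set J := Jp (Nat.log 2 n) b with hJ
  set T := 2 * n ^ 32 with hT
  set X := 6 * T with hX
  have hn' : (8 : ℝ) ≤ n := by exact_mod_cast hn8
  have hq' : (1 : ℝ) ≤ q := by exact_mod_cast hq0
  have hVpos : 0 < (V (PJ J))⁻¹ := inv_pos.2 (V_pos (fun p hp => PJ_prime hp))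
  have hTX : T ≤ X := by omega
  have hβ0 := norm_nonneg β
  have hTR : (T : ℝ) = 2 * (n : ℝ) ^ 32 := by rw [hT]; push_cast; ring
  have hXT : (X : ℝ) - T = 10 * (n : ℝ) ^ 32 := by rw [hX]; push_cast; rw [hTR]; ring
  have hn16 : (0 : ℝ) < (n : ℝ) ^ 16 := by positivity
  have hD : (Dlev b J : ℝ) * ‖β‖ ≤ 1 / (2 * q) := by
    have e1 : (Dlev b J : ℝ) ≤ (n : ℝ) ^ 8 := by exact_mod_cast p1
    calc (Dlev b J : ℝ) * ‖β‖ ≤ (n : ℝ) ^ 8 * (1 / (q * (((n ^ 16 : ℕ) : ℝ) + 1))) := by gcongr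
      _ ≤ 1 / (2 * q) := by
          rw [mul_one_div, div_le_div_iff₀ (by positivity) (by positivity)]
          push_cast
          have e2 : 2 * (n : ℝ) ^ 8 ≤ (n : ℝ) ^ 16 + 1 := by
            have : (n : ℝ) ^ 16 = (n : ℝ) ^ 8 * (n : ℝ) ^ 8 := by ring
            have e3 : (2 : ℝ) ≤ (n : ℝ) ^ 8 := by
              calc (2 : ℝ) ≤ 8 ^ 8 := by norm_num
                _ ≤ (n : ℝ) ^ 8 := pow_le_pow_left₀ (by norm_num) hn' 8
            nlinarith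
          nlinarith
  have h1 := rough_expSum b J T X hTX hq hq0 hD
  have h2 := norm_sum_e_le T X hX β
  -- first term
  have h3 : (Real.exp 8) ^ #q.primeFactors / q * ‖∑ n ∈ Ioc T X, e (n • β)‖ ≤
      20 * n ^ 32 * (C1 * τ) := by
    have e1 : (Real.exp 8) ^ #q.primeFactors / (q * (1 + T * ‖β‖)) ≤ C1 * τ := by
      apply le_of_pow_le_pow_left₀ (n := 4) (by norm_num) (by positivity)
      have hS : 0 < (q : ℝ) * (1 + T * ‖β‖) := by positivity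
      rw [div_pow, div_le_iff₀ (by positivity)]
      have hx1 : 1 ≤ 1 + (T : ℝ) * ‖β‖ := by
        have : 0 ≤ (T : ℝ) * ‖β‖ := by positivity
        linarith
      calc ((Real.exp 8) ^ #q.primeFactors) ^ 4 ≤ C1 * q := hC q hq0
        _ ≤ C1 * q * (τ ^ 4 * s ^ 3) := le_mul_of_one_le_right (by positivity) hτs
        _ ≤ C1 * q * (τ ^ 4 * (q * (1 + T * ‖β‖)) ^ 3) := by gcongr
        _ ≤ C1 ^ 4 * (q * (1 + T * ‖β‖)) * (τ ^ 4 * (q * (1 + T * ‖β‖)) ^ 3) := by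
            have e2 : C1 ≤ C1 ^ 4 := by
              calc C1 = C1 ^ 1 := (pow_one _).symm
                _ ≤ C1 ^ 4 := pow_le_pow_right₀ hC1 (by norm_num)
            have e3 : (q : ℝ) ≤ q * (1 + T * ‖β‖) := le_mul_of_one_le_right (by positivity) hx1
            gcongr
        _ = _ := by ring
    calc (Real.exp 8) ^ #q.primeFactors / q * ‖∑ n ∈ Ioc T X, e (n • β)‖
        ≤ (Real.exp 8) ^ #q.primeFactors / q * (10 * T / (1 + T * ‖β‖)) := by gcongr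
      _ = 10 * T * ((Real.exp 8) ^ #q.primeFactors / (q * (1 + T * ‖β‖))) := by
          field_simp
      _ ≤ 10 * T * (C1 * τ) := by gcongr
      _ = _ := by rw [hTR]; ring
  -- third term
  have h4 : (Dlev b J : ℝ) * (q + 1 + J + (X - T) * ‖e β - 1‖) ≤ 100 * n ^ 24 := by
    have e1 : (Dlev b J : ℝ) ≤ (n : ℝ) ^ 8 := by exact_mod_cast p1
    have e2 : (q : ℝ) ≤ (n : ℝ) ^ 16 := by exact_mod_cast hqn
    have e3 : (J : ℝ) ≤ (n : ℝ) ^ 2 := by exact_mod_cast p7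
    have e4 : ‖e β - 1‖ ≤ 2 * Real.pi * ‖β‖ := norm_e_sub_one_le β
    have e5 : ‖β‖ ≤ 1 / (n : ℝ) ^ 16 := by
      refine hβ.trans ?_
      apply one_div_le_one_div_of_le hn16
      push_cast
      nlinarith
    have e6 : (X - T : ℝ) * ‖e β - 1‖ ≤ 63 * (n : ℝ) ^ 16 := by
      rw [hXT]
      calc 10 * (n : ℝ) ^ 32 * ‖e β - 1‖ ≤ 10 * (n : ℝ) ^ 32 * (2 * Real.pi * (1 / (n : ℝ) ^ 16)) := by
            gcongr
            exact e4.trans (by gcongr)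
        _ = 20 * Real.pi * (n : ℝ) ^ 16 := by field_simp; ring
        _ ≤ _ := by
            have := Real.pi_lt_d2
            nlinarith
    have e7 : (1 : ℝ) ≤ (n : ℝ) ^ 16 := one_le_pow₀ (by linarith)
    have e8 : (n : ℝ) ^ 2 ≤ (n : ℝ) ^ 16 := pow_le_pow_right₀ (by linarith) (by norm_num)
    calc (Dlev b J : ℝ) * (q + 1 + J + (X - T) * ‖e β - 1‖)
        ≤ (n : ℝ) ^ 8 * ((n : ℝ) ^ 16 + (n : ℝ) ^ 16 + (n : ℝ) ^ 16 + 63 * (n : ℝ) ^ 16) := by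
          have : 0 ≤ (X - T : ℝ) * ‖e β - 1‖ := by rw [hXT]; positivity
          gcongr
          exact e3.trans e8
      _ = 66 * (n : ℝ) ^ 24 := by ring
      _ ≤ _ := by gcongr; norm_num
  have hKd0 : 0 < Kd := by linarith
  calc ‖nsum (Ioc T X) (roughI J) (α + β)‖ ≤ _ := h1
    _ = Kd * (V (PJ J))⁻¹ * ((Real.exp 8) ^ #q.primeFactors / q * ‖∑ n ∈ Ioc T X, e (n • β)‖) +
        Kd * (V (PJ J))⁻¹ * (X - T) * (Real.exp 68 * (256 ^ b)⁻¹) +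
        Dlev b J * (q + 1 + J + (X - T) * ‖e β - 1‖) := by ring
    _ ≤ Kd * (V (PJ J))⁻¹ * (20 * n ^ 32 * (C1 * τ)) +
        Kd * (V (PJ J))⁻¹ * (10 * (n : ℝ) ^ 32) * (Real.exp 68 * (256 ^ b)⁻¹) + 100 * n ^ 24 := by
        rw [hXT] at h4 ⊢
        gcongr
    _ ≤ Kd * (V (PJ J))⁻¹ * (20 * n ^ 32 * (C1 * τ)) * Real.exp 68 +
        Kd * (V (PJ J))⁻¹ * (20 * (n : ℝ) ^ 32) * (Real.exp 68 * (256 ^ b)⁻¹) * C1 +
          100 * n ^ 24 := by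
        have e1 : Kd * (V (PJ J))⁻¹ * (20 * n ^ 32 * (C1 * τ)) ≤
            Kd * (V (PJ J))⁻¹ * (20 * n ^ 32 * (C1 * τ)) * Real.exp 68 :=
          le_mul_of_one_le_right (by positivity) hE
        have e2 : Kd * (V (PJ J))⁻¹ * (10 * (n : ℝ) ^ 32) * (Real.exp 68 * (256 ^ b)⁻¹) ≤
            Kd * (V (PJ J))⁻¹ * (20 * (n : ℝ) ^ 32) * (Real.exp 68 * (256 ^ b)⁻¹) * C1 := by
          calc Kd * (V (PJ J))⁻¹ * (10 * (n : ℝ) ^ 32) * (Real.exp 68 * (256 ^ b)⁻¹)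
              ≤ Kd * (V (PJ J))⁻¹ * (20 * (n : ℝ) ^ 32) * (Real.exp 68 * (256 ^ b)⁻¹) := by
                gcongr; norm_num
            _ ≤ _ := le_mul_of_one_le_right (by positivity) hC1
        linarith
    _ = _ := by ring

end LSieve
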