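import Pool.Agent.LibLargeSieve.SetProd
import Pool.Agent.LibLargeSieve.Bilinear

/-!
# Brun-Hooley sieve weights
-/

namespace LSieve

open Finset

/-- The primes up to `2^(2^J)`. -/
def PJ (J : ℕ) : Finset ℕ := primesTo (2 ^ (2 ^ J))

/-- The `j`-th block of primes. -/
def Bk (j : ℕ) : Finset ℕ := PJ (j + 1) \ PJ j

lemma PJ_prime {J p : ℕ} (h : p ∈ PJ J) : p.Prime := (mem_primesTo.1 h).2

lemma mem_PJ {J p : ℕ} : p ∈ PJ J ↔ p ≤ 2 ^ (2 ^ J) ∧ p.Prime := mem_primesTo

lemma PJ_mono {J : ℕ} : PJ J ⊆ PJ (J + 1) := by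
  intro p hp
  rw [mem_PJ] at hp ⊢
  refine ⟨hp.1.trans ?_, hp.2⟩
  exact Nat.pow_le_pow_right (by norm_num) (Nat.pow_le_pow_right (by norm_num) (by omega))

lemma PJ_succ (J : ℕ) : PJ (J + 1) = PJ J ∪ Bk J := (union_sdiff_of_subset PJ_mono).symm

lemma PJ_disj (J : ℕ) : Disjoint (PJ J) (Bk J) := disjoint_sdiff

lemma Bk_prime {J p : ℕ} (h : p ∈ Bk J) : p.Prime := PJ_prime (mem_sdiff.1 h).1

/-- A block sum. -/
noncomputable def TB (c : ℕ → ℝ) (B : Finset ℕ) (x y : ℕ → ℝ) : ℝ :=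
  ∑ A ∈ B.powerset, c #A * ((∏ p ∈ A, x p) * ∏ p ∈ B \ A, y p)

/-- Sieve weights given by block coefficients. -/
noncomputable def lamc (c : ℕ → ℕ → ℝ) : ℕ → Finset ℕ → ℝ
  | 0, A => (-1) ^ #A
  | (J + 1), A => lamc c J (A ∩ PJ J) * c J #(A ∩ Bk J)

lemma sum_powerset_disj {M : Type*} [AddCommMonoid M] (B C : Finset ℕ) (h : Disjoint B C)
    (F : Finset ℕ → M) :
    ∑ A ∈ (B ∪ C).powerset, F A = ∑ A ∈ B.powerset, ∑ A' ∈ C.powerset, F (A ∪ A') := by
  rw [← sum_product']
  refine sum_nbij' (fun A => (A ∩ B, A ∩ C)) (fun x => x.1 ∪ x.2) ?_ ?_ ?_ ?_ ?_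
  · intro A _
    rw [mem_product, mem_powerset, mem_powerset]
    exact ⟨inter_subset_right, inter_subset_right⟩
  · intro x hx
    rw [mem_product, mem_powerset, mem_powerset] at hx
    rw [mem_powerset]
    exact union_subset_union hx.1 hx.2
  · intro A hA
    rw [mem_powerset] at hA
    simp only
    rw [← inter_union_distrib_left]
    exact inter_eq_left.2 hA
  · intro x hx
    rw [mem_product, mem_powerset, mem_powerset] at hx
    obtain ⟨h1, h2⟩ := hx
    have e1 : (x.1 ∪ x.2) ∩ B = x.1 := by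
      rw [union_inter_distrib_right, inter_eq_left.2 h1,
        disjoint_iff_inter_eq_empty.1 (disjoint_of_subset_left h2 h.symm), union_empty]
    have e2 : (x.1 ∪ x.2) ∩ C = x.2 := by
      rw [union_inter_distrib_right, inter_eq_left.2 h2,
        disjoint_iff_inter_eq_empty.1 (disjoint_of_subset_left h1 h), empty_union]
    rw [e1, e2]
  · intro A hA
    rw [mem_powerset] at hA
    rw [← inter_union_distrib_left, inter_eq_left.2 hA]

theorem lam_sum (c : ℕ → ℕ → ℝ) (J : ℕ) (x y : ℕ → ℝ) :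
    ∑ A ∈ (PJ J).powerset, lamc c J A * ((∏ p ∈ A, x p) * ∏ p ∈ PJ J \ A, y p) =
      (∏ p ∈ PJ 0, (y p - x p)) * ∏ j ∈ range J, TB (c j) (Bk j) x y := by
  induction J with
  | zero =>
    rw [range_zero, prod_empty, mul_one]
    have h1 : ∏ p ∈ PJ 0, (y p - x p) = ∏ p ∈ PJ 0, ((-x p) + y p) :=
      prod_congr rfl fun p _ => by ring
    rw [h1, prod_add]
    refine sum_congr rfl fun A _ => ?_
    rw [prod_neg]
    unfold lamc
    ring
  | succ J ih =>
    rw [prod_range_succ, ← mul_assoc, ← ih, PJ_succ, sum_powerset_disj _ _ (PJ_disj J)]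
    unfold TB
    rw [sum_mul_sum]
    refine sum_congr rfl fun A hA => sum_congr rfl fun A' hA' => ?_
    rw [mem_powerset] at hA hA'
    have hd := PJ_disj J
    have e1 : (A ∪ A') ∩ PJ J = A := by
      rw [union_inter_distrib_right, inter_eq_left.2 hA,
        disjoint_iff_inter_eq_empty.1 (disjoint_of_subset_left hA' hd.symm), union_empty]
    have e2 : (A ∪ A') ∩ Bk J = A' := by
      rw [union_inter_distrib_right, inter_eq_left.2 hA',
        disjoint_iff_inter_eq_empty.1 (disjoint_of_subset_left hA hd), empty_union]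
    have e3 : (PJ J ∪ Bk J) \ (A ∪ A') = (PJ J \ A) ∪ (Bk J \ A') := by
      ext p
      simp only [mem_sdiff, mem_union]
      constructor
      · rintro ⟨h1 | h1, h2⟩
        · left; exact ⟨h1, fun h => h2 (Or.inl h)⟩
        · right; exact ⟨h1, fun h => h2 (Or.inr h)⟩
      · rintro (⟨h1, h2⟩ | ⟨h1, h2⟩)
        · refine ⟨Or.inl h1, ?_⟩
          rintro (h | h)
          · exact h2 h
          · exact disjoint_left.1 hd h1 (hA' h)
        · refine ⟨Or.inr h1, ?_⟩
          rintro (h | h)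
          · exact disjoint_left.1 hd (hA h) h1
          · exact h2 h
    have e4 : Disjoint A A' := disjoint_of_subset_left hA (disjoint_of_subset_right hA' hd)
    have e5 : Disjoint (PJ J \ A) (Bk J \ A') :=
      disjoint_of_subset_left sdiff_subset (disjoint_of_subset_right sdiff_subset hd)
    rw [lamc, e1, e2, e3, prod_union e4, prod_union e5]
    ring

/-- Truncated alternating coefficients. -/
noncomputable def cs (m k : ℕ) : ℝ := if k ≤ m then (-1) ^ k else 0

/-- Indicator coefficients. -/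
noncomputable def ce (m k : ℕ) : ℝ := if k = m then 1 else 0

lemma cs_abs (m k : ℕ) : |cs m k| ≤ 1 := by
  unfold cs; split_ifs <;> simp

lemma ce_abs (m k : ℕ) : |ce m k| ≤ 1 := by
  unfold ce; split_ifs <;> simp

lemma ce_nonneg (m k : ℕ) : 0 ≤ ce m k := by
  unfold ce; split_ifs <;> norm_num

lemma TB_abs_le (c : ℕ → ℝ) (hc : ∀ k, |c k| ≤ 1) (B : Finset ℕ) (x y : ℕ → ℝ)
    (hx : ∀ p ∈ B, 0 ≤ x p) (hy : ∀ p ∈ B, 0 ≤ y p) :
    |TB c B x y| ≤ ∏ p ∈ B, (x p + y p) := by
  unfold TB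
  rw [prod_add]
  refine (abs_sum_le_sum_abs _ _).trans (sum_le_sum fun A hA => ?_)
  rw [mem_powerset] at hA
  rw [abs_mul]
  have h1 : 0 ≤ (∏ p ∈ A, x p) * ∏ p ∈ B \ A, y p :=
    mul_nonneg (prod_nonneg fun p hp => hx p (hA hp))
      (prod_nonneg fun p hp => hy p (mem_sdiff.1 hp).1)
  rw [abs_of_nonneg h1]
  calc |c #A| * _ ≤ 1 * _ := mul_le_mul_of_nonneg_right (hc _) h1
    _ = _ := one_mul _

lemma TB_insert (c : ℕ → ℝ) (B : Finset ℕ) (x : ℕ → ℝ) (p : ℕ) (hp : p ∉ B) :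
    TB c (insert p B) x 1 = TB c B x 1 + x p * TB (fun k => c (k + 1)) B x 1 := by
  unfold TB
  rw [sum_powerset_insert hp, mul_sum]
  congr 1
  · refine sum_congr rfl fun A _ => ?_
    simp
  · refine sum_congr rfl fun A hA => ?_
    rw [mem_powerset] at hA
    have h1 : p ∉ A := fun h => hp (hA h)
    rw [card_insert_of_notMem h1, prod_insert h1]
    simp
    ring

lemma TB_congr (c c' : ℕ → ℝ) (h : ∀ k, c k = c' k) (B : Finset ℕ) (x y : ℕ → ℝ) :
    TB c B x y = TB c' B x y := by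
  have : c = c' := funext h
  rw [this]

lemma TB_neg (c : ℕ → ℝ) (B : Finset ℕ) (x y : ℕ → ℝ) :
    TB (fun k => - c k) B x y = - TB c B x y := by
  unfold TB
  rw [← sum_neg_distrib]
  exact sum_congr rfl fun A _ => by ring

lemma TB_zero (B : Finset ℕ) (x y : ℕ → ℝ) : TB (fun _ => 0) B x y = 0 := by
  unfold TB; simp

lemma cs_succ (m k : ℕ) : cs (m + 1) (k + 1) = - cs m k := by
  unfold cs
  by_cases h : k ≤ m
  · rw [if_pos (by omega), if_pos h, pow_succ]; ring
  · rw [if_neg (by omega), if_neg h]; ring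

lemma cs_zero_succ (k : ℕ) : cs 0 (k + 1) = 0 := by
  unfold cs; rw [if_neg (by omega)]

lemma ce_succ (m k : ℕ) : ce (m + 1) (k + 1) = ce m k := by
  unfold ce
  by_cases h : k = m
  · rw [if_pos (by omega), if_pos h]
  · rw [if_neg (by omega), if_neg h]

lemma ce_zero_succ (k : ℕ) : ce 0 (k + 1) = 0 := by
  unfold ce; rw [if_neg (by omega)]

lemma TB_ce_zero (B : Finset ℕ) (x : ℕ → ℝ) : TB (ce 0) B x 1 = 1 := by
  induction B using Finset.induction_on with
  | empty => simp [TB, ce]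
  | insert p B hp ih =>
    rw [TB_insert _ _ _ _ hp, ih, TB_congr _ (fun _ => 0) (fun k => ce_zero_succ k), TB_zero,
      mul_zero, add_zero]

lemma TB_cs_zero (B : Finset ℕ) (x : ℕ → ℝ) : TB (cs 0) B x 1 = 1 := by
  induction B using Finset.induction_on with
  | empty => simp [TB, cs]
  | insert p B hp ih =>
    rw [TB_insert _ _ _ _ hp, ih, TB_congr _ (fun _ => 0) (fun k => cs_zero_succ k), TB_zero,
      mul_zero, add_zero]

/-- Bonferroni inequalities. -/
lemma bonferroni (B : Finset ℕ) (x : ℕ → ℝ) (hx0 : ∀ p ∈ B, 0 ≤ x p) (hx1 : ∀ p ∈ B, x p ≤ 1) :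
    ∀ m : ℕ, 0 ≤ (-1) ^ m * (TB (cs m) B x 1 - ∏ p ∈ B, (1 - x p)) ∧
      (-1) ^ m * (TB (cs m) B x 1 - ∏ p ∈ B, (1 - x p)) ≤ TB (ce (m + 1)) B x 1 := by
  induction B using Finset.induction_on with
  | empty =>
    intro m
    have h1 : TB (cs m) ∅ x 1 = 1 := by simp [TB, cs]
    have h2 : TB (ce (m + 1)) ∅ x 1 = 0 := by simp [TB, ce]
    rw [h1, h2]; simp
  | insert p B hp ih =>
    have hxp0 := hx0 p (mem_insert_self _ _)
    have hxp1 := hx1 p (mem_insert_self _ _)
    have ih' := ih (fun q hq => hx0 q (mem_insert_of_mem hq))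
      (fun q hq => hx1 q (mem_insert_of_mem hq))
    have hv0 : 0 ≤ ∏ p ∈ B, (1 - x p) := prod_nonneg fun q hq => by
      have := hx1 q (mem_insert_of_mem hq); linarith
    have hv1 : ∏ p ∈ B, (1 - x p) ≤ 1 := prod_le_one
      (fun q hq => by have := hx1 q (mem_insert_of_mem hq); linarith)
      (fun q hq => by have := hx0 q (mem_insert_of_mem hq); linarith)
    intro m
    rw [prod_insert hp, TB_insert _ _ _ _ hp, TB_insert _ _ _ _ hp]
    rw [TB_congr (fun k => ce (m + 1) (k + 1)) (ce m) (fun k => ce_succ m k)]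
    cases m with
    | zero =>
      rw [TB_congr (fun k => cs 0 (k + 1)) (fun _ => 0) (fun k => cs_zero_succ k), TB_zero,
        TB_cs_zero, TB_ce_zero]
      have h1 := ih' 0
      rw [TB_cs_zero] at h1
      simp only [pow_zero, one_mul, mul_zero, add_zero, zero_add, mul_one] at h1 ⊢
      constructor
      · nlinarith
      · nlinarith
    | succ m =>
      rw [TB_congr (fun k => cs (m + 1) (k + 1)) (fun k => - cs m k) (fun k => cs_succ m k),
        TB_neg]
      have h1 := ih' (m + 1)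
      have h2 := ih' m
      have h3 : (-1 : ℝ) ^ (m + 1) * (TB (cs (m + 1)) B x 1 + x p * -TB (cs m) B x 1 -
          (1 - x p) * ∏ p ∈ B, (1 - x p)) =
          (-1) ^ (m + 1) * (TB (cs (m + 1)) B x 1 - ∏ p ∈ B, (1 - x p)) +
          x p * ((-1) ^ m * (TB (cs m) B x 1 - ∏ p ∈ B, (1 - x p))) := by
        rw [pow_succ]; ring
      rw [h3]
      constructor
      · have := mul_nonneg hxp0 h2.1
        linarith [h1.1]
      · have := mul_le_mul_of_nonneg_left h2.2 hxp0
        linarith [h1.2]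

lemma TB_rankin (B : Finset ℕ) (x : ℕ → ℝ) (hx0 : ∀ p ∈ B, 0 ≤ x p) (m : ℕ) (t : ℝ) (ht : 0 < t) :
    TB (ce m) B x 1 ≤ (t ^ m)⁻¹ * ∏ p ∈ B, (1 + t * x p) := by
  have h1 : ∏ p ∈ B, (1 + t * x p) = ∏ p ∈ B, (t * x p + 1) := prod_congr rfl fun p _ => by ring
  rw [h1, prod_add, mul_sum]
  unfold TB
  refine sum_le_sum fun A hA => ?_
  rw [mem_powerset] at hA
  have h2 : 0 ≤ ∏ p ∈ A, x p := prod_nonneg fun p hp => hx0 p (hA hp)
  simp only [Pi.one_apply, prod_const_one, mul_one]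
  rw [prod_mul_distrib, prod_const]
  unfold ce
  split_ifs with h
  · rw [h]
    apply le_of_eq
    field_simp
  · rw [zero_mul]
    positivity

end LSieve
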